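import Pool.Agent.Nfv.Pl

/-! Subsets which no Sylow `r`-subgroup of a solvable transitive group stabilizes, `r` odd. The only
exception is `r = 3` for the primitive groups of degree 8. -/

set_option autoImplicit false

namespace Pool.Agent.Nth

open Pool.Agent.Nan Pool.Agent.Nas Pool.Agent.Nfv

/-- No Sylow `r`-subgroup stabilizes `Δ`, except if it acts trivially. -/
def Gr (Y : Type) {J : Type} [Group Y] [MulAction Y J] (r : ℕ) (Δ : Finset J) : Prop :=
  ∀ R : Sylow r Y, (∀ x ∈ (R : Subgroup Y), ∀ j ∈ Δ, x • j ∈ Δ) →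
    ∀ x ∈ (R : Subgroup Y), ∀ j : J, x • j = j

/-- There is a good set for all odd primes. -/
def GA (Y : Type) {J : Type} [Group Y] [MulAction Y J] (j₀ j₁ : J) : Prop :=
  ∃ Δ : Finset J, j₀ ∈ Δ ∧ j₁ ∈ Δ ∧ (Nontrivial J → 2 ≤ Δ.card) ∧
    ∀ r : ℕ, r.Prime → 3 ≤ r → Gr Y r Δ

/-- The exceptional case: two sets `D₀ ⊆ D₁` which are good for all primes `r ≥ 5`; if there is a Sylow `3`-subgroup
which stabilizes `D₀`, then each Sylow `3`-subgroup `T₁` which stabilizes `D₁` stabilizes `D₀` too, and it moves the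
point `d` of `D₁`. -/
def GB (Y : Type) {J : Type} [Group Y] [MulAction Y J] (j₀ j₁ : J) : Prop :=
  ∃ (D₀ D₁ : Finset J) (d : J), j₀ ∈ D₀ ∧ j₁ ∈ D₀ ∧ (Nontrivial J → 2 ≤ D₀.card) ∧ D₀ ⊆ D₁ ∧
    d ∈ D₁ ∧ d ∉ D₀ ∧ (∀ r : ℕ, r.Prime → 5 ≤ r → Gr Y r D₀ ∧ Gr Y r D₁) ∧
    ∀ T₀ T₁ : Sylow 3 Y, (∀ x ∈ (T₀ : Subgroup Y), ∀ j ∈ D₀, x • j ∈ D₀) →
      (∀ x ∈ (T₁ : Subgroup Y), ∀ j ∈ D₁, x • j ∈ D₁) →
        (∀ x ∈ (T₁ : Subgroup Y), ∀ j ∈ D₀, x • j ∈ D₀) ∧
          ∃ x ∈ (T₁ : Subgroup Y), x • d ≠ d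

section
variable {Y J : Type} [Group Y] [Finite Y] [Finite J] [MulAction Y J]

-- BEGIN ta
/-- A normal `s`-subgroup is contained in every Sylow `s`-subgroup. -/
private theorem ta_le {s : ℕ} (hsp : s.Prime) (N : Subgroup Y) (hN : N.Normal)
    (hpg : IsPGroup s N) (R : Sylow s Y) : N ≤ (R : Subgroup Y) := by
  haveI : Fact s.Prime := ⟨hsp⟩
  obtain ⟨P, hP⟩ := hpg.exists_le_sylow
  obtain ⟨g, hg⟩ := MulAction.exists_smul_eq Y P R
  intro n hn
  rw [← hg, Sylow.coe_subgroup_smul, Subgroup.mem_pointwise_smul_iff_inv_smul_mem]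
  have h := hN.conj_mem n hn g⁻¹
  rw [inv_inv] at h
  apply hP
  have e : (MulAut.conj g)⁻¹ • n = g⁻¹ * n * g := by
    rw [← map_inv, MulAut.smul_def, MulAut.conj_apply, inv_inv]
  rw [e]
  exact h

/-- (ta, size 3) PROOF. See the proof of `fix_pt` in Nfv/Pl.lean (copy it): `prim_reg` gives `N` (regular, commutative, exponent `s`), `card J = card N = s ^ k`. `N` is a normal `s`-subgroup, so it is contained in every Sylow
`s`-subgroup `R`, and it is transitive. If `x ≠ 1` fixes `j₀` then the number of its fixed points is `card C = s ^ i`, `C = C_N(x)` (as a subgroup of `N`), `C ≠ N`, so `i < k`, and `C.index = s ^ (k - i)`; if `x ^ r = 1`, `r ≠ s`, then `C.index % r = 1` (this is `hmod` in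
the proof of `fix_pt`). -/
theorem pr3 [Nontrivial J] (hs : Group.IsSolvable Y)
    (hf : ∀ y : Y, (∀ j : J, y • j = j) → y = 1) (hp : MulAction.IsPreprimitive Y J) :
    ∃ s k : ℕ, s.Prime ∧ 0 < k ∧ Nat.card J = s ^ k ∧
      (∀ R : Sylow s Y, ∀ j j' : J, ∃ x ∈ (R : Subgroup Y), x • j = j') ∧
      ∀ (x : Y) (j₀ : J), x ≠ 1 → x • j₀ = j₀ →
        ∃ i < k, Nat.card {j : J // x • j = j} = s ^ i ∧
          ∀ r : ℕ, r.Prime → r ≠ s → x ^ r = 1 → r ∣ s ^ (k - i) - 1 := by
  obtain ⟨N, s, hN, hs', hexp, htr, hreg, hcen, -⟩ := prim_reg hs hf hp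
  have hNn : N.Normal := hN.nor
  haveI : Fact s.Prime := ⟨hs'⟩
  have hpg : IsPGroup s N := fun a => ⟨1, by
    rw [pow_one]; exact Subtype.ext (by simpa using hexp a a.2)⟩
  -- the bijection
  have hbij : ∀ j₀ : J, Function.Bijective (fun n : N => (n : Y) • j₀) := by
    intro j₀
    constructor
    · intro a b hab
      have h1 : ((b : Y)⁻¹ * (a : Y)) • j₀ = j₀ := by
        rw [mul_smul]
        have : (a : Y) • j₀ = (b : Y) • j₀ := hab
        rw [this, inv_smul_smul]
      have h2 := hreg _ (N.mul_mem (N.inv_mem b.2) a.2) j₀ h1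
      exact Subtype.ext (inv_mul_eq_one.1 h2).symm
    · intro j
      obtain ⟨n, hn, hnj⟩ := htr j₀ j
      exact ⟨⟨n, hn⟩, hnj⟩
  have hcardJ : Nat.card J = Nat.card N := by
    obtain ⟨j₀⟩ : Nonempty J := inferInstance
    exact (Nat.card_congr (Equiv.ofBijective _ (hbij j₀))).symm
  obtain ⟨k, hk⟩ := IsPGroup.iff_card.1 hpg
  have hJ2 : 1 < Nat.card J := Finite.one_lt_card
  have hk0 : 0 < k := by
    rcases Nat.eq_zero_or_pos k with h | h
    · rw [hcardJ, hk, h, pow_zero] at hJ2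
      omega
    · exact h
  refine ⟨s, k, hs', hk0, hcardJ.trans hk, ?_, ?_⟩
  · intro R j j'
    obtain ⟨n, hn, hnj⟩ := htr j j'
    exact ⟨n, ta_le hs' N hNn hpg R hn, hnj⟩
  intro x j₀ hx1 hj₀
  have hxinv : x⁻¹ • j₀ = j₀ := by
    conv_lhs => rw [← hj₀]
    rw [inv_smul_smul]
  set C : Subgroup N := (Subgroup.centralizer {x}).subgroupOf N with hC
  have hmemC : ∀ n : N, n ∈ C ↔ x * n = n * x := by
    intro n
    rw [hC, Subgroup.mem_subgroupOf, Subgroup.mem_centralizer_singleton_iff]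
    exact eq_comm
  have hfixC : ∀ n : N, x • ((n : Y) • j₀) = (n : Y) • j₀ ↔ n ∈ C := by
    intro n
    rw [hmemC]
    constructor
    · intro h1
      have h2 : ((n : Y)⁻¹ * (x * n * x⁻¹)) • j₀ = j₀ := by
        rw [mul_smul, mul_smul, mul_smul, hxinv, h1, inv_smul_smul]
      have h3 := hreg _ (N.mul_mem (N.inv_mem n.2) (hNn.conj_mem _ n.2 x)) j₀ h2
      have h4 : x * (n : Y) * x⁻¹ = n := (inv_mul_eq_one.1 h3).symm
      exact mul_inv_eq_iff_eq_mul.1 h4
    · intro h1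
      rw [smul_smul, h1, mul_smul, hj₀]
  have hcardFix : Nat.card {j : J // x • j = j} = Nat.card C := by
    symm
    refine Nat.card_congr ?_
    exact (Equiv.ofBijective _ (hbij j₀)).subtypeEquiv (fun n => (hfixC n).symm)
  have hmul : Nat.card C * C.index = Nat.card N := Subgroup.card_mul_index C
  -- an element of `N` which does not commute with `x`
  have hxN : x ∉ N := fun h => hx1 (hreg x h j₀ hj₀)
  obtain ⟨n, hn, hnx⟩ : ∃ n ∈ N, ¬ x * n = n * x := by
    by_contra hcon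
    push Not at hcon
    exact hxN (hcen x hcon)
  obtain ⟨m, hm⟩ := hpg.index C
  have hm0 : m ≠ 0 := by
    rintro rfl
    rw [pow_zero, Subgroup.index_eq_one] at hm
    exact hnx ((hmemC ⟨n, hn⟩).1 (by rw [hm]; trivial))
  have hs2 := hs'.two_le
  -- the order of `C`
  have hCdvd : Nat.card C ∣ s ^ k := by
    rw [← hk, ← hmul]
    exact Dvd.intro _ rfl
  obtain ⟨i, hik, hi⟩ := (Nat.dvd_prime_pow hs').1 hCdvd
  have him : i + m = k := by
    have h1 : s ^ (i + m) = s ^ k := by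
      rw [pow_add, ← hi, ← hm, hmul, hk]
    exact Nat.pow_right_injective hs2 h1
  refine ⟨i, by omega, hcardFix.trans hi, ?_⟩
  intro r hr hsr hx
  have hmod : C.index % r = 1 := by
    haveI : Fact r.Prime := ⟨hr⟩
    have hxg : IsPGroup r (Subgroup.zpowers x) := by
      refine IsPGroup.of_card (n := 1) ?_
      rw [Nat.card_zpowers, pow_one]
      exact orderOf_eq_prime hx hx1
    have h1 := hxg.card_modEq_card_fixedPoints J
    have h2 : Nat.card (MulAction.fixedPoints (Subgroup.zpowers x) J) =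
        Nat.card {j : J // x • j = j} := by
      refine Nat.card_congr (Equiv.subtypeEquivRight fun j => ?_)
      rw [MulAction.mem_fixedPoints]
      constructor
      · intro h
        exact h ⟨x, Subgroup.mem_zpowers x⟩
      · rintro h ⟨g, hg⟩
        have h3 : Subgroup.zpowers x ≤ MulAction.stabilizer Y j := by
          rw [Subgroup.zpowers_le]
          exact MulAction.mem_stabilizer_iff.2 h
        exact MulAction.mem_stabilizer_iff.1 (h3 hg)
    rw [h2, hcardFix, hcardJ, ← hmul] at h1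
    have hcop : Nat.Coprime r (Nat.card C) := by
      exact Nat.Coprime.coprime_dvd_right hCdvd
        (Nat.Coprime.pow_right k ((Nat.coprime_primes hr hs').2 hsr))
    have h4 : Nat.card C * C.index ≡ Nat.card C * 1 [MOD r] := by
      rw [mul_one]; exact h1
    have h5 := Nat.ModEq.cancel_left_of_coprime hcop h4
    have h6 : C.index % r = 1 % r := h5
    rw [h6, Nat.mod_eq_of_lt hr.one_lt]
  have hki : k - i = m := by omega
  rw [hki, ← hm]
  have h2 := Nat.div_add_mod C.index r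
  rw [hmod] at h2
  refine ⟨C.index / r, ?_⟩
  omega
-- END ta

-- BEGIN tb
private theorem tb_el {r : ℕ} (R : Sylow r Y) (x : Y) (hx : x ∈ (R : Subgroup Y))
    (h1 : x ≠ 1) : ∃ y ∈ Subgroup.zpowers x, y ^ r = 1 ∧ y ≠ 1 := by
  classical
  have hex : ∃ k : ℕ, x ^ (r ^ k) = 1 := by
    obtain ⟨k, hk⟩ := R.isPGroup' ⟨x, hx⟩
    refine ⟨k, ?_⟩
    have := congrArg (Subtype.val) hk
    simpa using this
  have hk0 : Nat.find hex ≠ 0 := by
    intro h0
    have h2 := Nat.find_spec hex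
    rw [h0] at h2
    exact h1 (by simpa using h2)
  obtain ⟨k, hk⟩ := Nat.exists_eq_succ_of_ne_zero hk0
  refine ⟨x ^ (r ^ k), Subgroup.pow_mem _ (Subgroup.mem_zpowers x) _, ?_, ?_⟩
  · have h2 := Nat.find_spec hex
    rw [hk] at h2
    rw [← pow_mul, ← pow_succ]
    exact h2
  · exact Nat.find_min hex (by omega)

/-- An element of a Sylow `r`-subgroup, `r` odd, which stabilizes `{a, b}` fixes `a`. -/
private theorem tb_fix {r : ℕ} (hr : r.Prime) (hr3 : 3 ≤ r) (R : Sylow r Y) (x : Y)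
    (hx : x ∈ (R : Subgroup Y)) (a b : J) (ha : x • a = a ∨ x • a = b)
    (hb : x • b = a ∨ x • b = b) : x • a = a := by
  rcases ha with ha | ha
  · exact ha
  rcases hb with hb | hb
  · -- `x ^ 2` fixes `a`
    have h2 : (x * x) • a = a := by rw [mul_smul, ha, hb]
    have hxs : x * x ∈ MulAction.stabilizer Y a := MulAction.mem_stabilizer_iff.2 h2
    obtain ⟨k, hk⟩ := R.isPGroup' ⟨x, hx⟩
    have hk' : x ^ (r ^ k) = 1 := by
      have := congrArg (Subtype.val) hk
      simpa using this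
    have hodd : Odd (r ^ k) := (hr.odd_of_ne_two (by omega)).pow
    obtain ⟨m, hm⟩ := hodd
    have e : x = ((x * x) ^ m)⁻¹ := by
      rw [hm, pow_succ, pow_mul, pow_two] at hk'
      exact eq_inv_of_mul_eq_one_right hk'
    have hxst : x ∈ MulAction.stabilizer Y a := by
      rw [e]
      exact Subgroup.inv_mem _ (Subgroup.pow_mem _ hxs _)
    exact MulAction.mem_stabilizer_iff.1 hxst
  · have : a = b := by
      have h3 : x • a = x • b := by rw [ha, hb]
      exact smul_left_cancel x h3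
    rw [ha, this]

private theorem tb_main [Nontrivial J] (s : ℕ)
    (h0 : ∀ R : Sylow s Y, ∀ j j' : J, ∃ x ∈ (R : Subgroup Y), x • j = j')
    (h1 : ∀ (r : ℕ) (x : Y), r.Prime → 3 ≤ r → r ≠ s → x ^ r = 1 → x ≠ 1 →
      Nat.card {j : J // x • j = j} ≤ 1) (j₀ j₁ : J) (hne : j₀ ≠ j₁) (r : ℕ) (hr : r.Prime)
    (hr3 : 3 ≤ r) (Δ : Finset J) (hΔ : ∀ j, j ∈ Δ ↔ j = j₀ ∨ j = j₁) : Gr Y r Δ := by
  intro R hR x hx j
  have hall : ∀ y ∈ (R : Subgroup Y), y • j₀ = j₀ ∧ y • j₁ = j₁ := by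
    intro y hy
    have e0 : y • j₀ = j₀ ∨ y • j₀ = j₁ := (hΔ _).1 (hR y hy j₀ ((hΔ _).2 (Or.inl rfl)))
    have e1 : y • j₁ = j₀ ∨ y • j₁ = j₁ := (hΔ _).1 (hR y hy j₁ ((hΔ _).2 (Or.inr rfl)))
    exact ⟨tb_fix hr hr3 R y hy j₀ j₁ e0 e1, tb_fix hr hr3 R y hy j₁ j₀ e1.symm e0.symm⟩
  by_cases hrs : r = s
  · exfalso
    subst hrs
    obtain ⟨y, hy, hyj⟩ := h0 R j₀ j₁
    exact hne ((hall y hy).1.symm.trans hyj)
  · by_cases hx1 : x = 1
    · rw [hx1, one_smul]
    · exfalso
      obtain ⟨y, hyx, hyr, hy1⟩ := tb_el R x hx hx1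
      have hy : y ∈ (R : Subgroup Y) := by
        have : Subgroup.zpowers x ≤ (R : Subgroup Y) := by
          rw [Subgroup.zpowers_le]
          exact hx
        exact this hyx
      have hc := h1 r y hr hr3 hrs hyr hy1
      have hsub : Subsingleton {j : J // y • j = j} := Finite.card_le_one_iff_subsingleton.1 hc
      exact hne (congrArg Subtype.val
        (Subsingleton.elim (⟨j₀, (hall y hy).1⟩ : {j : J // y • j = j}) ⟨j₁, (hall y hy).2⟩))

/-- (tb, size 3) PROOF. If `j₀ = j₁` replace `j₁` by another point. `Δ = {j₀, j₁}`. Let `r` be an odd prime and let `R` stabilize `Δ`. Every `x ∈ R` has odd order, so it fixes `j₀` and `j₁`: if `x • j₀ = j₁` then `x • j₁ = j₀`, `x ^ 2` fixes `j₀`, and `x` is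
a power of `x ^ 2`. If `r = s` this contradicts `h0` (`J` is not trivial). If `r ≠ s` and `x ∈ R` is not 1 then some power `y` of `x` has `y ^ r = 1`, `y ≠ 1` (`pl2_el` of Nas/Pl.lean or `pf3_el` of Nfv/Pl.lean, private: copy), and `y` fixes two points: contradiction to `h1`. -/
theorem two3 [Nontrivial J] (s : ℕ)
    (h0 : ∀ R : Sylow s Y, ∀ j j' : J, ∃ x ∈ (R : Subgroup Y), x • j = j')
    (h1 : ∀ (r : ℕ) (x : Y), r.Prime → 3 ≤ r → r ≠ s → x ^ r = 1 → x ≠ 1 →
      Nat.card {j : J // x • j = j} ≤ 1) (j₀ j₁ : J) : GA Y j₀ j₁ := by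
  classical
  obtain ⟨j₂, hj₂, h01⟩ : ∃ j₂ : J, j₀ ≠ j₂ ∧ (j₁ = j₀ ∨ j₁ = j₂) := by
    by_cases h : j₀ = j₁
    · obtain ⟨j₂, hj₂⟩ := exists_ne j₀
      exact ⟨j₂, hj₂.symm, Or.inl h.symm⟩
    · exact ⟨j₁, h, Or.inr rfl⟩
  refine ⟨{j₀, j₂}, by simp, ?_, ?_, ?_⟩
  · rw [Finset.mem_insert, Finset.mem_singleton]
    exact h01
  · intro _
    rw [Finset.card_pair hj₂]
  · intro r hr hr3
    refine tb_main s h0 h1 j₀ j₂ hj₂ r hr hr3 _ ?_
    intro j
    rw [Finset.mem_insert, Finset.mem_singleton]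
-- END tb

-- BEGIN tc
/-- (tc, size 1) PROOF. `s ≤ 43`, `k ≤ 5`; for `k = 1` clear; for `k ≥ 2` `s ≤ 5`: `s ^ k = 4, 9, 27, 25` and `s ^ (k - i) - 1 = 1; 2; 2, 8; 4` for `i > 0`, which have no prime divisor `r ≥ 3`. -/
theorem small3 (s k i r : ℕ) (hs : s.Prime) (hk : 0 < k) (hn : s ^ k < 44) (h8 : s ^ k ≠ 8)
    (h16 : s ^ k ≠ 16) (h32 : s ^ k ≠ 32) (hi : i < k) (hr : r.Prime) (h3 : 3 ≤ r)
    (hd : r ∣ s ^ (k - i) - 1) : i = 0 := by
  by_contra h0
  have hk2 : 2 ≤ k := by omega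
  have hs2 := hs.two_le
  have hk5 : k ≤ 5 := by
    by_contra h
    have h1 : 2 ^ 6 ≤ s ^ k :=
      (Nat.pow_le_pow_right (by norm_num) (by omega)).trans (Nat.pow_le_pow_left hs2 k)
    omega
  have hs6 : s ≤ 6 := by
    by_contra h
    have h1 : 7 ^ 2 ≤ s ^ k :=
      (Nat.pow_le_pow_left (by omega : 7 ≤ s) 2).trans
        (Nat.pow_le_pow_right (by omega) hk2)
    omega
  have key : ∀ a : ℕ, r ∣ 2 ^ a → False := by
    intro a ha
    have := (Nat.prime_dvd_prime_iff_eq hr Nat.prime_two).1 (hr.dvd_of_dvd_pow ha)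
    omega
  have c1 : s ^ (k - i) - 1 = 2 ^ 0 ∨ s ^ (k - i) - 1 = 2 ^ 1 ∨ s ^ (k - i) - 1 = 2 ^ 2 ∨
      s ^ (k - i) - 1 = 2 ^ 3 := by
    interval_cases s
    · interval_cases k
      · interval_cases i <;> simp_all
      · exact absurd rfl h8
      · exact absurd rfl h16
      · exact absurd rfl h32
    · interval_cases k
      · interval_cases i <;> simp_all
      · interval_cases i <;> simp_all
      · omega
      · omega
    · exact absurd hs (by norm_num)
    · interval_cases k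
      · interval_cases i <;> simp_all
      · omega
      · omega
      · omega
    · exact absurd hs (by norm_num)
  rcases c1 with h | h | h | h <;> rw [h] at hd <;> exact key _ hd
-- END tc

-- BEGIN td
omit [Finite Y] in
private theorem td_el {r : ℕ} (R : Sylow r Y) (x : Y) (hx : x ∈ (R : Subgroup Y))
    (h1 : x ≠ 1) : ∃ y ∈ (R : Subgroup Y), y ^ r = 1 ∧ y ≠ 1 := by
  classical
  have hex : ∃ k : ℕ, x ^ (r ^ k) = 1 := by
    obtain ⟨k, hk⟩ := R.isPGroup' ⟨x, hx⟩
    refine ⟨k, ?_⟩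
    have := congrArg (Subtype.val) hk
    simpa using this
  have hk0 : Nat.find hex ≠ 0 := by
    intro h0
    have h2 := Nat.find_spec hex
    rw [h0] at h2
    exact h1 (by simpa using h2)
  obtain ⟨k, hk⟩ := Nat.exists_eq_succ_of_ne_zero hk0
  refine ⟨x ^ (r ^ k), Subgroup.pow_mem _ hx _, ?_, ?_⟩
  · have h2 := Nat.find_spec hex
    rw [hk] at h2
    rw [← pow_mul, ← pow_succ]
    exact h2
  · exact Nat.find_min hex (by omega)

/-- the number of the stable sets is at most `2 ^ c`, `c` the number of orbits -/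
private theorem td_cnt (r n q : ℕ) (hr : r.Prime) (hn : n = Nat.card J)
    (x : Y) (hx : x ^ r = 1) (hx1 : x ≠ 1)
    (hfp : ∀ y : Y, y ^ r = 1 → y ≠ 1 → q * Nat.card {j : J // y • j = j} ≤ Nat.card J) :
    ∃ c : ℕ, q * (c * r) ≤ (q + (r - 1)) * n ∧
      Nat.card {Δ : Finset J // ∀ j ∈ Δ, x • j ∈ Δ} ≤ 2 ^ c := by
  classical
  let _ : Fintype Y := Fintype.ofFinite Y
  let _ : Fintype J := Fintype.ofFinite J
  set G := Subgroup.zpowers x with hG
  let _ : Fintype G := Fintype.ofFinite G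
  let _ : Fintype (Quotient (MulAction.orbitRel G J)) := Fintype.ofFinite _
  have hB := MulAction.sum_card_fixedBy_eq_card_orbits_mul_card_group G J
  have hcG : Fintype.card G = r := by
    have := Fact.mk hr
    rw [← Nat.card_eq_fintype_card, Nat.card_zpowers]
    exact orderOf_eq_prime hx hx1
  have hfix1 : Fintype.card (MulAction.fixedBy J (1 : G)) ≤ n := by
    rw [hn, Nat.card_eq_fintype_card]
    exact Fintype.card_subtype_le _
  have hone : ∀ g ∈ (Finset.univ.erase (1 : G)),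
      q * Fintype.card (MulAction.fixedBy J g) ≤ n := by
    intro g hg
    have hg1' : g ≠ 1 := Finset.ne_of_mem_erase hg
    have hgr : (g : Y) ^ r = 1 := by
      obtain ⟨g, hg'⟩ := g
      obtain ⟨k, hk⟩ := Subgroup.mem_zpowers_iff.1 hg'
      show g ^ r = 1
      rw [← hk, ← zpow_natCast, ← zpow_mul, mul_comm, zpow_mul, zpow_natCast, hx, one_zpow]
    have hg1 : (g : Y) ≠ 1 := fun h => hg1' (Subtype.ext h)
    have h3 := hfp g hgr hg1
    have h4 : Fintype.card (MulAction.fixedBy J g) = Nat.card {j : J // (g : Y) • j = j} := by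
      rw [← Nat.card_eq_fintype_card]
      rfl
    rw [h4, hn]
    exact h3
  have hsum : q * (Fintype.card (Quotient (MulAction.orbitRel G J)) * r) ≤
      (q + (r - 1)) * n := by
    rw [← hcG, ← hB, Finset.mul_sum, ← Finset.add_sum_erase _ _ (Finset.mem_univ (1 : G)),
      add_mul]
    refine Nat.add_le_add (Nat.mul_le_mul_left _ hfix1) ?_
    refine (Finset.sum_le_sum hone).trans ?_
    rw [Finset.sum_const, Finset.card_erase_of_mem (Finset.mem_univ _), Finset.card_univ,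
      smul_eq_mul]
  refine ⟨_, hsum, ?_⟩
  have hinv : ∀ Δ : Finset J, (∀ j ∈ Δ, x • j ∈ Δ) → ∀ g : G, ∀ j ∈ Δ, g • j ∈ Δ := by
    intro Δ hΔ g j hj
    obtain ⟨g, hg'⟩ := g
    show g • j ∈ Δ
    have hg2 : g ∈ Submonoid.powers x := mem_powers_iff_mem_zpowers.2 hg'
    obtain ⟨k, hk⟩ := hg2
    have hk' : x ^ k = g := hk
    rw [← hk']
    clear hk hk' hg'
    induction k with
    | zero => simpa using hj
    | succ k ih => rw [pow_succ', mul_smul]; exact hΔ _ ih
  let F : {Δ : Finset J // ∀ j ∈ Δ, x • j ∈ Δ} → Set (Quotient (MulAction.orbitRel G J)) :=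
    fun Δ => {q | ∃ j ∈ Δ.1, Quotient.mk (MulAction.orbitRel G J) j = q}
  have hsub : ∀ Δ Δ' : {Δ : Finset J // ∀ j ∈ Δ, x • j ∈ Δ}, F Δ = F Δ' → Δ.1 ⊆ Δ'.1 := by
    intro Δ Δ' h j hj
    have h1 : Quotient.mk (MulAction.orbitRel G J) j ∈ F Δ := ⟨j, hj, rfl⟩
    rw [h] at h1
    obtain ⟨j', hj', he⟩ := h1
    have h2 : MulAction.orbitRel G J j j' := (Quotient.exact he.symm)
    obtain ⟨g, hg⟩ := MulAction.orbitRel_apply.1 h2
    have hg' : g • j' = j := hg
    rw [← hg']
    exact hinv Δ'.1 Δ'.2 g j' hj'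
  have hF : Function.Injective F := by
    intro Δ Δ' h
    exact Subtype.ext (Finset.Subset.antisymm (hsub _ _ h) (hsub _ _ h.symm))
  have hc := Nat.card_le_card_of_injective F hF
  refine hc.trans ?_
  rw [Nat.card_eq_fintype_card, Fintype.card_set]

private theorem td_main [Nontrivial J] (s : ℕ) (hJ : 3 ≤ Nat.card J)
    (h0 : ∀ R : Sylow s Y, ∀ j j' : J, ∃ x ∈ (R : Subgroup Y), x • j = j')
    (h1 : ∀ (r : ℕ) (x : Y), r.Prime → 3 ≤ r → r ≠ s → x ^ r = 1 → x ≠ 1 →
      4 * Nat.card {j : J // x • j = j} ≤ Nat.card J)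
    (hc : 4 * Nat.card Y * 2 ^ (Nat.card J / 2) < 2 ^ Nat.card J) (j₀ j₁ : J) (hne : j₀ ≠ j₁) :
    GA Y j₀ j₁ := by
  classical
  let _ : Fintype Y := Fintype.ofFinite Y
  let _ : Fintype J := Fintype.ofFinite J
  -- it is enough to find a proper `Δ` which no element of odd prime order `r ≠ s` stabilizes
  suffices h : ∃ Δ : Finset J, j₀ ∈ Δ ∧ j₁ ∈ Δ ∧ (∃ j : J, j ∉ Δ) ∧ ∀ r : ℕ, r.Prime → 3 ≤ r →
      r ≠ s → ∀ x : Y, x ^ r = 1 → x ≠ 1 → ¬ ∀ j ∈ Δ, x • j ∈ Δ by
    obtain ⟨Δ, g0, g1, ⟨j₂, g3⟩, g2⟩ := h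
    refine ⟨Δ, g0, g1, fun _ => ?_, ?_⟩
    · have : ({j₀, j₁} : Finset J) ⊆ Δ := by
        intro j hj
        rcases Finset.mem_insert.1 hj with rfl | hj
        · exact g0
        · rw [Finset.mem_singleton.1 hj]; exact g1
      have h3 := Finset.card_le_card this
      rw [Finset.card_pair hne] at h3
      exact h3
    · intro r hr hr3 R hR x hx
      by_cases hrs : r = s
      · subst hrs
        exfalso
        obtain ⟨y, hy, hyj⟩ := h0 R j₀ j₂
        exact g3 (hyj ▸ hR y hy j₀ g0)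
      · by_contra hcon
        have hx1 : x ≠ 1 := by
          rintro rfl
          exact hcon (fun j => one_smul _ _)
        obtain ⟨y, hy, hyr, hy1⟩ := td_el R x hx hx1
        exact g2 r hr hr3 hrs y hyr hy1 (hR y hy)
  by_cases hex : ∃ (r : ℕ) (x : Y), r.Prime ∧ 3 ≤ r ∧ r ≠ s ∧ x ^ r = 1 ∧ x ≠ 1
  · -- counting
    obtain ⟨r₁, x₁, hr₁, hr₁3, hr₁s, hx₁, hx₁1⟩ := hex
    suffices h : ∃ Δ : Finset J, j₀ ∈ Δ ∧ j₁ ∈ Δ ∧ ∀ r : ℕ, r.Prime → 3 ≤ r →
        r ≠ s → ∀ x : Y, x ^ r = 1 → x ≠ 1 → ¬ ∀ j ∈ Δ, x • j ∈ Δ by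
      obtain ⟨Δ, g0, g1, g2⟩ := h
      refine ⟨Δ, g0, g1, ?_, g2⟩
      by_contra hall
      push Not at hall
      exact g2 r₁ hr₁ hr₁3 hr₁s x₁ hx₁ hx₁1 fun j _ => hall _
    by_contra hcon
    push Not at hcon
    let A := {Δ : Finset J // j₀ ∈ Δ ∧ j₁ ∈ Δ}
    have hbad : ∀ Δ : A, ∃ x : {x : Y // ∃ r : ℕ, r.Prime ∧ 3 ≤ r ∧ r ≠ s ∧ x ^ r = 1 ∧ x ≠ 1},
        ∀ j ∈ Δ.1, x.1 • j ∈ Δ.1 := by
      rintro ⟨Δ, g0, g1⟩
      obtain ⟨r, hr, hr3, hrs, x, hx, hx1, hst⟩ := hcon Δ g0 g1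
      exact ⟨⟨x, r, hr, hr3, hrs, hx, hx1⟩, hst⟩
    choose φ hφ using hbad
    let F : A → (x : {x : Y // ∃ r : ℕ, r.Prime ∧ 3 ≤ r ∧ r ≠ s ∧ x ^ r = 1 ∧ x ≠ 1}) ×
        {Δ : Finset J // ∀ j ∈ Δ, x.1 • j ∈ Δ} := fun Δ => ⟨φ Δ, ⟨Δ.1, hφ Δ⟩⟩
    have hF : Function.Injective F := by
      intro a b hab
      have h5 : ((F a).2 : Finset J) = ((F b).2 : Finset J) := by rw [hab]
      exact Subtype.ext h5
    have hA := Nat.card_le_card_of_injective F hF
    have horb : ∀ (r : ℕ) (x : Y), r.Prime → 3 ≤ r → r ≠ s → x ^ r = 1 → x ≠ 1 →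
        Nat.card {Δ : Finset J // ∀ j ∈ Δ, x • j ∈ Δ} ≤ 2 ^ (Nat.card J / 2) := by
      intro r x hr hr3 hrs hx hx1
      obtain ⟨c, hcc, hcard⟩ := td_cnt r (Nat.card J) 4 hr rfl x hx hx1
        (fun y hy hy1 => h1 r y hr hr3 hrs hy hy1)
      refine hcard.trans (Nat.pow_le_pow_right (by norm_num) ?_)
      have hle : 2 * c ≤ Nat.card J := by
        obtain ⟨t, rfl⟩ := Nat.exists_eq_add_of_le hr3
        have h1 : 4 + (3 + t - 1) = 6 + t := by omega
        rw [h1] at hcc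
        nlinarith
      omega
    have hsig : Nat.card ((x : {x : Y // ∃ r : ℕ, r.Prime ∧ 3 ≤ r ∧ r ≠ s ∧ x ^ r = 1 ∧ x ≠ 1}) ×
        {Δ : Finset J // ∀ j ∈ Δ, x.1 • j ∈ Δ}) ≤ Nat.card Y * 2 ^ (Nat.card J / 2) := by
      rw [Nat.card_sigma]
      calc ∑ x : {x : Y // ∃ r : ℕ, r.Prime ∧ 3 ≤ r ∧ r ≠ s ∧ x ^ r = 1 ∧ x ≠ 1},
            Nat.card {Δ : Finset J // ∀ j ∈ Δ, x.1 • j ∈ Δ}
          ≤ ∑ x : {x : Y // ∃ r : ℕ, r.Prime ∧ 3 ≤ r ∧ r ≠ s ∧ x ^ r = 1 ∧ x ≠ 1},
            2 ^ (Nat.card J / 2) := by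
            refine Finset.sum_le_sum ?_
            rintro ⟨x, r, hr, hr3, hrs, hx, hx1⟩ _
            exact horb r x hr hr3 hrs hx hx1
        _ = Fintype.card {x : Y // ∃ r : ℕ, r.Prime ∧ 3 ≤ r ∧ r ≠ s ∧ x ^ r = 1 ∧ x ≠ 1} *
            2 ^ (Nat.card J / 2) := by
            rw [Finset.sum_const, Finset.card_univ, smul_eq_mul]
        _ ≤ Nat.card Y * 2 ^ (Nat.card J / 2) := by
            refine Nat.mul_le_mul_right _ ?_
            rw [Nat.card_eq_fintype_card]
            exact Fintype.card_subtype_le _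
    let E : Finset J → A × (Prop × Prop) := fun S =>
      (⟨insert j₀ (insert j₁ S), by simp, by simp⟩, (j₀ ∈ S, j₁ ∈ S))
    have hE : Function.Injective E := by
      intro S T hST
      have h6 : insert j₀ (insert j₁ S) = insert j₀ (insert j₁ T) :=
        congrArg (fun z : A × (Prop × Prop) => (z.1 : A).1) hST
      have h7 : (j₀ ∈ S) = (j₀ ∈ T) := congrArg (fun z : A × (Prop × Prop) => z.2.1) hST
      have h8 : (j₁ ∈ S) = (j₁ ∈ T) := congrArg (fun z : A × (Prop × Prop) => z.2.2) hST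
      ext j
      by_cases e0 : j = j₀
      · rw [e0]; exact iff_of_eq h7
      by_cases e1 : j = j₁
      · rw [e1]; exact iff_of_eq h8
      have h9 : j ∈ insert j₀ (insert j₁ S) ↔ j ∈ insert j₀ (insert j₁ T) := by rw [h6]
      simpa [e0, e1] using h9
    have hEc := Nat.card_le_card_of_injective E hE
    have hEl : Nat.card (Finset J) = 2 ^ Nat.card J := by
      rw [Nat.card_eq_fintype_card, Fintype.card_finset, Nat.card_eq_fintype_card]
    have hEr : Nat.card (A × (Prop × Prop)) = Nat.card A * 4 := by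
      rw [Nat.card_prod]
      congr 1
      rw [Nat.card_prod]
      simp
    rw [hEl, hEr] at hEc
    have h10 : 2 ^ Nat.card J ≤ 4 * Nat.card Y * 2 ^ (Nat.card J / 2) := by
      calc 2 ^ Nat.card J ≤ Nat.card A * 4 := hEc
        _ ≤ (Nat.card Y * 2 ^ (Nat.card J / 2)) * 4 :=
            Nat.mul_le_mul_right 4 (hA.trans hsig)
        _ = 4 * Nat.card Y * 2 ^ (Nat.card J / 2) := by ring
    omega
  · -- no such elements
    refine ⟨{j₀, j₁}, by simp, by simp, ?_, ?_⟩
    · by_contra hall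
      push Not at hall
      have h3 : (Finset.univ : Finset J) ⊆ {j₀, j₁} := fun j _ => hall j
      have h4 := Finset.card_le_card h3
      rw [Finset.card_univ, ← Nat.card_eq_fintype_card, Finset.card_pair hne] at h4
      omega
    · intro r hr hr3 hrs x hx hx1
      exact absurd ⟨r, x, hr, hr3, hrs, hx, hx1⟩ hex

/-- (td, size 4) PROOF. See the proof of `pf3_main` in Nfv/Pl.lean (copy, with the private lemmas `pf3_el`, `pf3_cnt`). If there is no `x ≠ 1` with `x ^ r = 1` for an odd prime `r ≠ s` take `Δ = {j₀, j₁}` (or `{j₀, j}` if `j₀ = j₁`): `r = s` is excluded by `h0` and `hJ` as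
in `two3` (`Δ` is not everything and `R` is transitive). Otherwise count the sets `Δ` which contain `j₀` and `j₁` (`j₀ ≠ j₁`): `2 ^ (n - 2)`. Those which are stabilized by some `x ≠ 1` with `x ^ r = 1`, `r` an odd prime, `r ≠ s`: at most `card Y * 2 ^ (n / 2)`, since
the number `c` of orbits of `x` satisfies `4 * (c * r) ≤ (4 + (r - 1)) * n` (`pf3_cnt` with `q = 4`), so `c ≤ n / 2` (`r ≥ 3`). So by `hc` there is a `Δ` which no such `x` stabilizes; in particular it is not all of `J`, so no transitive group stabilizes it: `r = s`. -/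
theorem cnt3 [Nontrivial J] (s : ℕ) (hJ : 3 ≤ Nat.card J)
    (h0 : ∀ R : Sylow s Y, ∀ j j' : J, ∃ x ∈ (R : Subgroup Y), x • j = j')
    (h1 : ∀ (r : ℕ) (x : Y), r.Prime → 3 ≤ r → r ≠ s → x ^ r = 1 → x ≠ 1 →
      4 * Nat.card {j : J // x • j = j} ≤ Nat.card J)
    (hc : 4 * Nat.card Y * 2 ^ (Nat.card J / 2) < 2 ^ Nat.card J) (j₀ j₁ : J) : GA Y j₀ j₁ := by
  by_cases hne : j₀ = j₁
  · obtain ⟨j₂, hj₂⟩ := exists_ne j₀
    obtain ⟨Δ, g0, _, g2, g3⟩ := td_main s hJ h0 h1 hc j₀ j₂ hj₂.symm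
    exact ⟨Δ, g0, hne ▸ g0, g2, g3⟩
  · exact td_main s hJ h0 h1 hc j₀ j₁ hne
-- END td

-- BEGIN te
private def te_F {X S : Type} [Group X] [AddCommGroup S] [Module (ZMod 2) S]
    (ρ : Representation (ZMod 2) X S) (P : Subgroup X) : Submodule (ZMod 2) S where
  carrier := {w | ∀ g ∈ P, ρ g w = w}
  zero_mem' := fun g _ => map_zero _
  add_mem' := fun {a b} ha hb g hg => by rw [map_add, ha g hg, hb g hg]
  smul_mem' := fun c a ha g hg => by rw [map_smul, ha g hg]

private theorem te_card {S : Type} [AddCommGroup S] [Module (ZMod 2) S] [Finite S]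
    (hS : Nat.card S = 16) (W : Submodule (ZMod 2) S) :
    Nat.card W = 1 ∨ Nat.card W = 2 ∨ Nat.card W = 4 ∨ Nat.card W = 8 ∨ Nat.card W = 16 := by
  have h1 : Nat.card W ∣ 2 ^ 4 := by
    have h2 : Nat.card W.toAddSubgroup ∣ Nat.card S := AddSubgroup.card_addSubgroup_dvd_card _
    rw [hS] at h2
    exact h2
  obtain ⟨k, hk, h3⟩ := (Nat.dvd_prime_pow Nat.prime_two).1 h1
  rw [h3]
  interval_cases k <;> norm_num

private theorem te_mod {X S : Type} [Group X] [AddCommGroup S] [Module (ZMod 2) S] [Finite S]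
    (ρ : Representation (ZMod 2) X S) (q : ℕ) (hq : q.Prime)
    (P : Subgroup X) (hP : IsPGroup q P) (W : Submodule (ZMod 2) S)
    (hW : ∀ g ∈ P, ∀ w ∈ W, ρ g w ∈ W) :
    Nat.card W ≡ Nat.card (W ⊓ te_F ρ P : Submodule (ZMod 2) S) [MOD q] := by
  have : Fact q.Prime := ⟨hq⟩
  letI : MulAction P W :=
    { smul := fun g w => ⟨ρ (g : X) (w : S), hW _ g.2 _ w.2⟩
      one_smul := fun w => Subtype.ext (by
        show ρ ((1 : P) : X) (w : S) = w
        rw [Subgroup.coe_one, map_one]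
        rfl)
      mul_smul := fun a b w => Subtype.ext (by
        show ρ ((a * b : P) : X) (w : S) = ρ (a : X) (ρ (b : X) (w : S))
        rw [Subgroup.coe_mul, map_mul]
        rfl) }
  have h1 := hP.card_modEq_card_fixedPoints (α := W)
  have h2 : Nat.card (MulAction.fixedPoints P W) =
      Nat.card (W ⊓ te_F ρ P : Submodule (ZMod 2) S) := by
    refine Nat.card_congr ⟨fun w => ⟨(w : W), (w : W).2, fun g hg => ?_⟩,
      fun w => ⟨⟨w, w.2.1⟩, fun g => ?_⟩, fun w => rfl, fun w => rfl⟩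
    · exact congrArg Subtype.val (w.2 ⟨g, hg⟩)
    · exact Subtype.ext (w.2.2 g g.2)
  rw [h2] at h1
  exact h1

private theorem te_zp {X S : Type} [Group X] [AddCommGroup S] [Module (ZMod 2) S]
    (ρ : Representation (ZMod 2) X S) (x : X) (w : S) :
    w ∈ te_F ρ (Subgroup.zpowers x) ↔ ρ x w = w := by
  constructor
  · intro h
    exact h x (Subgroup.mem_zpowers x)
  · intro h g hg
    let K : Subgroup X :=
      { carrier := {g | ρ g w = w}
        one_mem' := by
          show ρ 1 w = w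
          rw [map_one]
          rfl
        mul_mem' := by
          intro a b ha hb
          show ρ (a * b) w = w
          have ha' : ρ a w = w := ha
          have hb' : ρ b w = w := hb
          rw [map_mul]
          show ρ a (ρ b w) = w
          rw [hb', ha']
        inv_mem' := by
          intro a ha
          show ρ a⁻¹ w = w
          have ha' : ρ a w = w := ha
          calc ρ a⁻¹ w = ρ a⁻¹ (ρ a w) := by rw [ha']
            _ = (ρ a⁻¹ * ρ a) w := rfl
            _ = w := by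
              rw [← map_mul, inv_mul_cancel, map_one]
              rfl }
    have h1 : Subgroup.zpowers x ≤ K := Subgroup.zpowers_le.2 h
    exact h1 hg

private theorem te_pg {X : Type} [Group X] (q : ℕ) (x : X) (hx : x ^ q = 1) :
    IsPGroup q (Subgroup.zpowers x) := by
  intro g
  obtain ⟨g, hg⟩ := g
  obtain ⟨k, rfl⟩ := Subgroup.mem_zpowers_iff.1 hg
  refine ⟨1, Subtype.ext ?_⟩
  show (x ^ k) ^ (q ^ 1) = 1
  rw [pow_one, ← zpow_natCast, ← zpow_mul, mul_comm, zpow_mul, zpow_natCast, hx, one_zpow]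

private theorem te_top {X S : Type} [Group X] [AddCommGroup S] [Module (ZMod 2) S] [Finite S]
    (hS : Nat.card S = 16) (W : Submodule (ZMod 2) S) (h : Nat.card W = 16) : ∀ w, w ∈ W := by
  have h1 : W = ⊤ := by
    have h2 : W.toAddSubgroup = ⊤ := by
      apply AddSubgroup.eq_top_of_card_eq
      rw [hS]
      exact h
    rw [Submodule.eq_top_iff']
    intro w
    have h3 : w ∈ W.toAddSubgroup := by
      rw [h2]
      exact AddSubgroup.mem_top _
    exact h3
  intro w
  rw [h1]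
  exact Submodule.mem_top

private theorem te_two {S : Type} [AddCommGroup S] [Module (ZMod 2) S] [Finite S]
    (W : Submodule (ZMod 2) S) (v : S) (hv : v ∈ W) (h0 : v ≠ 0) : Nat.card W ≠ 1 := by
  intro h
  have h1 : Subsingleton W := (Nat.card_eq_one_iff_unique.1 h).1
  have h2 : (⟨v, hv⟩ : W) = 0 := Subsingleton.elim _ _
  exact h0 (congrArg Subtype.val h2)

/-- The cardinality of the fixed space of an element of prime order. -/
private theorem te_x {X S : Type} [Group X] [AddCommGroup S] [Module (ZMod 2) S] [Finite S]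
    (ρ : Representation (ZMod 2) X S) (hS : Nat.card S = 16) (q : ℕ) (hq : q.Prime)
    (P : Subgroup X) (hP : IsPGroup q P) : 16 ≡ Nat.card (te_F ρ P) [MOD q] := by
  have h1 := te_mod ρ q hq P hP ⊤ fun _ _ _ _ => Submodule.mem_top
  have h2 : Nat.card (⊤ : Submodule (ZMod 2) S) = 16 := by
    rw [← hS]
    exact Nat.card_congr Submodule.topEquiv.toEquiv
  rw [h2, top_inf_eq] at h1
  exact h1

private theorem te_min {Y : Type} [Group Y] [Finite Y] [Nontrivial Y] (hs : Group.IsSolvable Y) :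
    ∃ (N : Subgroup Y) (r : ℕ), Ab N ∧ r.Prime ∧ (∀ x ∈ N, x ^ r = 1) ∧ N ≠ ⊥ := by
  have : Group.IsSolvable Y := hs
  obtain ⟨n, hn⟩ := (Group.isSolvable_def Y).1 inferInstance
  have hex : ∃ n, derivedSeries Y n = ⊥ := ⟨n, hn⟩
  classical
  have h0 : Nat.find hex ≠ 0 := by
    intro h0
    have h1 := Nat.find_spec hex
    rw [h0, derivedSeries_zero] at h1
    exact top_ne_bot h1
  obtain ⟨k, hk⟩ := Nat.exists_eq_succ_of_ne_zero h0
  have hk1 : derivedSeries Y k ≠ ⊥ := Nat.find_min hex (by omega)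
  have hk2 : ⁅derivedSeries Y k, derivedSeries Y k⁆ = ⊥ := by
    rw [← derivedSeries_succ, ← Nat.succ_eq_add_one, ← hk]
    exact Nat.find_spec hex
  have hcom : ∀ a ∈ derivedSeries Y k, ∀ b ∈ derivedSeries Y k, a * b = b * a := by
    intro a ha b hb
    have h1 := Subgroup.commutator_mem_commutator ha hb
    rw [hk2, Subgroup.mem_bot, commutatorElement_eq_one_iff_mul_comm] at h1
    exact h1
  have hcard : Nat.card (derivedSeries Y k) ≠ 1 := by
    intro h1
    exact hk1 (Subgroup.card_eq_one.1 h1)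
  obtain ⟨r, hr, hrd⟩ := Nat.exists_prime_and_dvd hcard
  have : Fact r.Prime := ⟨hr⟩
  obtain ⟨x, hx⟩ := exists_prime_orderOf_dvd_card' r hrd
  let N : Subgroup Y :=
    { carrier := {y | y ∈ derivedSeries Y k ∧ y ^ r = 1}
      one_mem' := ⟨Subgroup.one_mem _, one_pow r⟩
      mul_mem' := by
        rintro a b ⟨ha, ha1⟩ ⟨hb, hb1⟩
        refine ⟨Subgroup.mul_mem _ ha hb, ?_⟩
        rw [(show Commute a b from hcom a ha b hb).mul_pow, ha1, hb1, one_mul]
      inv_mem' := by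
        rintro a ⟨ha, ha1⟩
        refine ⟨Subgroup.inv_mem _ ha, ?_⟩
        rw [inv_pow, ha1, inv_one] }
  have hmem : ∀ y, y ∈ N ↔ y ∈ derivedSeries Y k ∧ y ^ r = 1 := fun y => Iff.rfl
  refine ⟨N, r, ⟨⟨?_⟩, ?_⟩, hr, ?_, ?_⟩
  · intro y hy g
    rw [hmem] at hy ⊢
    refine ⟨(derivedSeries_normal Y k).conj_mem y hy.1 g, ?_⟩
    rw [conj_pow, hy.2, mul_one, mul_inv_cancel]
  · intro a ha b hb
    exact hcom a ha.1 b hb.1
  · intro y hy
    exact hy.2
  · intro h1
    have hxN : (x : Y) ∈ N := by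
      rw [hmem]
      refine ⟨x.2, ?_⟩
      have h2 : (x : Y) ^ orderOf x = 1 := by
        rw [← Subgroup.coe_pow, pow_orderOf_eq_one, Subgroup.coe_one]
      rw [hx] at h2
      exact h2
    rw [h1, Subgroup.mem_bot] at hxN
    have h3 : x = 1 := Subtype.ext hxN
    rw [h3, orderOf_one] at hx
    exact hr.one_lt.ne hx

private theorem te_el {Y : Type} [Group Y] {r : ℕ} (R : Sylow r Y) (x : Y)
    (hx : x ∈ (R : Subgroup Y)) (h1 : x ≠ 1) : ∃ y ∈ (R : Subgroup Y), y ^ r = 1 ∧ y ≠ 1 := by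
  classical
  have hex : ∃ k : ℕ, x ^ (r ^ k) = 1 := by
    obtain ⟨k, hk⟩ := R.isPGroup' ⟨x, hx⟩
    refine ⟨k, ?_⟩
    have := congrArg (Subtype.val) hk
    simpa using this
  have hk0 : Nat.find hex ≠ 0 := by
    intro h0
    have h2 := Nat.find_spec hex
    rw [h0] at h2
    exact h1 (by simpa using h2)
  obtain ⟨k, hk⟩ := Nat.exists_eq_succ_of_ne_zero hk0
  refine ⟨x ^ (r ^ k), Subgroup.pow_mem _ hx _, ?_, ?_⟩
  · have h2 := Nat.find_spec hex
    rw [hk, Nat.succ_eq_add_one, pow_succ, pow_mul] at h2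
    exact h2
  · exact Nat.find_min hex (by omega)

/-- The linear form of the statement. -/
private theorem te_lin {X S : Type} [Group X] [Finite X] [AddCommGroup S] [Finite S]
    [Nontrivial S] [Module (ZMod 2) S] (ρ : Representation (ZMod 2) X S)
    (hs : Group.IsSolvable X) (hf : ∀ h, (∀ w, ρ h w = w) → h = 1) (hirr : Irrd ρ ⊤)
    (hS : Nat.card S = 16) (r : ℕ) (hr : r.Prime) (h3 : 3 ≤ r) (R : Sylow r X) (v : S)
    (hv0 : v ≠ 0) (hv : ∀ x ∈ (R : Subgroup X), ρ x v = v) : ∀ x ∈ (R : Subgroup X), x = 1 := by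
  intro x₀ hx₀
  by_contra hne
  obtain ⟨x, hxR, hxr, hx1⟩ := te_el R x₀ hx₀ hne
  have : Nontrivial X := ⟨⟨x, 1, hx1⟩⟩
  have : Fact r.Prime := ⟨hr⟩
  obtain ⟨M, q, hMab, hq, hMq, hMne⟩ := te_min hs
  have : Fact q.Prime := ⟨hq⟩
  have hMn := hMab.nor
  obtain ⟨-, hz4, -, -⟩ := zx2 ρ hs hf hirr 4 hS
  obtain ⟨hz4, hz5⟩ := hz4 rfl
  -- the fixed space of `M` is zero
  have hMF : te_F ρ M = ⊥ := by
    rcases hirr (te_F ρ M) (by
      intro g _ w hw m hm
      have h1 : g⁻¹ * m * g ∈ M := by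
        have := hMn.conj_mem m hm g⁻¹
        simpa using this
      have h2 : ρ (g⁻¹ * m * g) w = w := hw _ h1
      have h4 : m * g = g * (g⁻¹ * m * g) := by group
      calc ρ m (ρ g w) = ρ (m * g) w := by rw [map_mul]; rfl
        _ = ρ g (ρ (g⁻¹ * m * g) w) := by rw [h4, map_mul]; rfl
        _ = ρ g w := by rw [h2]) with h | h
    · exact h
    · exfalso
      apply hMne
      rw [Subgroup.eq_bot_iff_forall]
      intro m hm
      apply hf
      intro w
      have h1 : w ∈ te_F ρ M := by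
        rw [h]
        exact Submodule.mem_top
      exact h1 m hm
  have hMp : IsPGroup q M := fun m => ⟨1, Subtype.ext (by
    rw [pow_one]
    exact hMq m m.2)⟩
  have hq15 : q ∣ 15 := by
    have h1 := te_x ρ hS q hq M hMp
    have h2 : Nat.card (te_F ρ M) = 1 := by
      rw [hMF]
      simp
    rw [h2] at h1
    exact (Nat.modEq_iff_dvd' (by norm_num)).1 h1.symm
  have hq35 : q = 3 ∨ q = 5 := by
    have h1 : q ∣ 3 * 5 := hq15
    rcases (hq.dvd_mul).1 h1 with h2 | h2
    · left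
      exact (Nat.prime_dvd_prime_iff_eq hq (by norm_num)).1 h2
    · right
      exact (Nat.prime_dvd_prime_iff_eq hq (by norm_num)).1 h2
  -- `r ≠ q`
  have hrq : r ≠ q := by
    rintro rfl
    have h1 : M ≤ (R : Subgroup X) := hMp.le_sylow_of_normal R
    have h2 : v ∈ te_F ρ M := fun m hm => hv m (h1 hm)
    rw [hMF, Submodule.mem_bot] at h2
    exact hv0 h2
  -- the fixed space of `x`
  have hvF : v ∈ te_F ρ (Subgroup.zpowers x) := (te_zp ρ x v).2 (hv x hxR)
  have hF1 : Nat.card (te_F ρ (Subgroup.zpowers x)) ≠ 1 := te_two _ v hvF hv0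
  have hF16 : Nat.card (te_F ρ (Subgroup.zpowers x)) ≠ 16 := by
    intro h
    apply hx1
    apply hf
    intro w
    exact (te_zp ρ x w).1 (te_top (X := X) hS _ h w)
  have hFr := te_x ρ hS r hr _ (te_pg r x hxr)
  have hFc := te_card hS (te_F ρ (Subgroup.zpowers x))
  have hr37 : r = 3 ∨ r = 7 := by
    have h1 : Nat.card (te_F ρ (Subgroup.zpowers x)) ≤ 16 := by omega
    have h2 : r ∣ 16 - Nat.card (te_F ρ (Subgroup.zpowers x)) :=
      (Nat.modEq_iff_dvd' h1).1 hFr.symm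
    rcases hFc with h | h | h | h | h
    · exact absurd h hF1
    · rw [h] at h2
      have h4 : r ∣ 7 * 2 := h2
      rcases (hr.dvd_mul).1 h4 with h5 | h5
      · right
        exact (Nat.prime_dvd_prime_iff_eq hr (by norm_num)).1 h5
      · have := Nat.le_of_dvd (by norm_num) h5
        omega
    · rw [h] at h2
      have h4 : r ∣ 3 * 2 ^ 2 := h2
      rcases (hr.dvd_mul).1 h4 with h5 | h5
      · left
        exact (Nat.prime_dvd_prime_iff_eq hr (by norm_num)).1 h5
      · have := Nat.le_of_dvd (by norm_num) (hr.dvd_of_dvd_pow h5)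
        omega
    · rw [h] at h2
      have h4 : r ∣ 2 ^ 3 := h2
      have := Nat.le_of_dvd (by norm_num) (hr.dvd_of_dvd_pow h4)
      omega
    · exact absurd h hF16
  have hr7 : r ≠ 7 := by
    rintro rfl
    have h1 : x ^ 5 = 1 := hz5 x ⟨hx1, 7, hr, by norm_num, hxr⟩
    apply hx1
    have h2 : x ^ 15 = 1 := by
      rw [show (15 : ℕ) = 5 * 3 from rfl, pow_mul, h1, one_pow]
    have h4 : x ^ 14 = 1 := by
      rw [show (14 : ℕ) = 7 * 2 from rfl, pow_mul, hxr, one_pow]
    calc x = x ^ 14 * x := by rw [h4, one_mul]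
      _ = x ^ 15 := by rw [← pow_succ]
      _ = 1 := h2
  obtain rfl : r = 3 := by tauto
  obtain rfl : q = 5 := by
    rcases hq35 with h | h
    · exact absurd h.symm hrq
    · exact h
  -- a generator of a subgroup of order 5
  obtain ⟨m, hmM, hm1⟩ : ∃ m ∈ M, m ≠ 1 := by
    by_contra hcon
    push Not at hcon
    exact hMne ((Subgroup.eq_bot_iff_forall _).2 hcon)
  have hm5 : m ^ 5 = 1 := hMq m hmM
  have hom : orderOf m = 5 := orderOf_eq_prime hm5 hm1
  -- `M` is `zpowers m`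
  have hMz : ∀ g ∈ M, g ∈ Subgroup.zpowers m := by
    have h1 : Nat.card M ≤ 5 := by
      have h2 : Nat.card M = Set.ncard (M : Set X) := rfl
      have h4 : (M : Set X) ⊆ insert 1 {x : X | P5 x} := by
        intro g hg
        by_cases h5 : g = 1
        · exact Set.mem_insert_iff.2 (Or.inl h5)
        · exact Set.mem_insert_iff.2 (Or.inr ⟨h5, 5, by norm_num, le_rfl, hMq g hg⟩)
      have h5 := Set.ncard_le_ncard h4 (Set.toFinite _)
      have h6 := Set.ncard_insert_le (1 : X) {x : X | P5 x}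
      have h7 : Set.ncard {x : X | P5 x} = Nat.card {x : X // P5 x} := rfl
      omega
    have h2 : Subgroup.zpowers m ≤ M := Subgroup.zpowers_le.2 hmM
    have h4 : Nat.card (Subgroup.zpowers m) = 5 := by
      rw [Nat.card_zpowers, hom]
    have h5 : Subgroup.zpowers m = M := by
      apply Subgroup.eq_of_le_of_card_ge h2
      rw [h4]
      exact h1
    intro g hg
    rw [h5]
    exact hg
  -- `x` commutes with `m`
  have hcomm : x * m = m * x := by
    obtain ⟨k, hk⟩ := Subgroup.mem_zpowers_iff.1 (hMz _ (hMn.conj_mem m hmM x))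
    obtain ⟨j, hj5, hj⟩ : ∃ j : ℕ, j < 5 ∧ x * m * x⁻¹ = m ^ j := by
      refine ⟨(k % 5).toNat, by omega, ?_⟩
      rw [← hk]
      have h1 : m ^ (k % (orderOf m : ℤ)) = m ^ k := zpow_mod_orderOf m k
      rw [hom] at h1
      rw [← h1, ← zpow_natCast, Int.toNat_of_nonneg (by omega)]
      rfl
    have hstep : ∀ i : ℕ, x * m ^ i * x⁻¹ = m ^ (j * i) := by
      intro i
      rw [← conj_pow, hj, ← pow_mul]
    have h3 : x ^ 3 * m * (x ^ 3)⁻¹ = m ^ (j * (j * j)) := by
      have h4 : x ^ 3 * m * (x ^ 3)⁻¹ = x * (x * (x * m * x⁻¹) * x⁻¹) * x⁻¹ := by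
        have h6 : x ^ 3 = x * (x * x) := by rw [pow_succ', pow_two]
        rw [h6]
        simp only [mul_inv_rev, mul_assoc]
      rw [h4, hj, hstep, hstep]
    rw [hxr, one_mul, inv_one, mul_one] at h3
    have h4 : m ^ 1 = m ^ (j * (j * j)) := by rw [pow_one]; exact h3
    have h5 := (pow_inj_mod (x := m)).1 h4
    rw [hom] at h5
    have h6 : j = 1 := by
      interval_cases j <;> revert h5 <;> decide
    rw [h6, pow_one] at hj
    exact mul_inv_eq_iff_eq_mul.1 hj
  -- the fixed space of `x` is invariant under `m`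
  have hinv : ∀ g ∈ Subgroup.zpowers m, ∀ w ∈ te_F ρ (Subgroup.zpowers x),
      ρ g w ∈ te_F ρ (Subgroup.zpowers x) := by
    intro g hg w hw
    obtain ⟨k, rfl⟩ := Subgroup.mem_zpowers_iff.1 hg
    have h1 : x * m ^ k = m ^ k * x := (show Commute x m from hcomm).zpow_right k
    rw [te_zp] at hw ⊢
    calc ρ x (ρ (m ^ k) w) = ρ (x * m ^ k) w := by rw [map_mul]; rfl
      _ = ρ (m ^ k) (ρ x w) := by rw [h1, map_mul]; rfl
      _ = ρ (m ^ k) w := by rw [hw]
  have hmF : te_F ρ (Subgroup.zpowers m) = ⊥ := by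
    rw [eq_bot_iff]
    intro w hw
    rw [← hMF]
    intro g hg
    exact hw g (hMz g hg)
  have h1 := te_mod ρ 5 (by norm_num) _ (te_pg 5 m hm5) _ hinv
  rw [hmF, inf_bot_eq] at h1
  have h2 : Nat.card (⊥ : Submodule (ZMod 2) S) = 1 := by simp
  rw [h2] at h1
  rcases hFc with h | h | h | h | h
  · exact hF1 h
  · rw [h] at h1
    revert h1
    decide
  · rw [h] at h1
    revert h1
    decide
  · rw [h] at h1
    revert h1
    decide
  · exact hF16 h

private noncomputable def te_rep {G S : Type} [Group G] [AddCommGroup S] (r : ℕ)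
    [Module (ZMod r) S] (φ : G →* AddMonoid.End S) : Representation (ZMod r) G S where
  toFun y := AddMonoidHom.toZModLinearMap r (φ y)
  map_one' := by
    ext x
    show φ 1 x = x
    rw [map_one φ]
    rfl
  map_mul' a b := by
    ext x
    show φ (a * b) x = φ a (φ b x)
    rw [map_mul φ]
    rfl

private theorem te_bd {G S : Type} [Group G] [Finite G] [AddCommGroup S] [Finite S]
    [Nontrivial S] (hN : Nat.card S = 16) (hs : Group.IsSolvable G) (q : ℕ) (hq : q = 2)
    [iM : Module (ZMod q) S] (φ : G →* AddMonoid.End S) (hfai : ∀ g, (∀ x, φ g x = x) → g = 1)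
    (hirr : ∀ D : AddSubgroup S, (∀ g, ∀ x ∈ D, φ g x ∈ D) → D = ⊥ ∨ D = ⊤)
    (r : ℕ) (hr : r.Prime) (h3 : 3 ≤ r) (R : Sylow r G) (v : S)
    (hv0 : v ≠ 0) (hv : ∀ x ∈ (R : Subgroup G), φ x v = v) : ∀ x ∈ (R : Subgroup G), x = 1 := by
  subst hq
  have hf : ∀ h, (∀ w : S, te_rep 2 φ h w = w) → h = 1 := fun h hh => hfai h hh
  have hi : Irrd (te_rep 2 φ) ⊤ := by
    intro W hW
    rcases hirr W.toAddSubgroup fun g x hx => hW g (Subgroup.mem_top _) _ hx with h | h
    · left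
      rw [Submodule.eq_bot_iff]
      intro w hw
      have h1 : w ∈ W.toAddSubgroup := hw
      rw [h, AddSubgroup.mem_bot] at h1
      exact h1
    · right
      rw [Submodule.eq_top_iff']
      intro w
      have h1 : w ∈ W.toAddSubgroup := by
        rw [h]
        exact AddSubgroup.mem_top _
      exact h1
  exact te_lin (te_rep 2 φ) hs hf hi hN r hr h3 R v hv0 hv

/-- (te, size 4) Degree 16. PROOF. Suppose `x₀ ∈ R`, `x₀ ≠ 1`. `prim_reg` gives `N` with `card N = 16` (regular), `s = 2`. `Y₀` = the stabilizer of `j₀`, `R ≤ Y₀`. `n₁ ∈ N` with `n₁ • j₀ = j₁`: `n₁ ≠ 1` commutes with all `x ∈ R` (`x n₁ x⁻¹ n₁⁻¹ ∈ N` fixes `j₁`). Let `M` be a minimal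
normal subgroup of `Y₀` (`Y₀ ≠ 1`; solvable: `M` is commutative of prime exponent `q`, `ob1_min` of Nas/Ob.lean). `C_N(M)` is normalized by `Y₀` and by `N`, so it is normal in `Y = N Y₀`, so it is `1` or `N` (minimality of `N`); it is not `N` (`C_Y(N) ≤ N`, `M ∩ N = 1`). So `C_N(M) = 1`; so `q` divides `15`
(`M` is a `q`-group, it acts by conjugation on the set `N` of 16 elements and fixes only `1`: `IsPGroup.card_modEq_card_fixedPoints`), so `q = 3` or `5`. If `r = q` then `M ≤ R` (`M` is normal in `Y₀`, and `R` is a Sylow subgroup of `Y₀`), so `n₁ ∈ C_N(M)`, contradiction. Let `r ≠ q`. By `pr3` an element `x ∈ R` of order `r` has `2 ^ i` fixed points,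
`r ∣ 2 ^ (4 - i) - 1`, `i ≥ 1` (two fixed points), so `i = 1`, `r = 7` or `i = 2`, `r = 3`. `q = 3`: `r = 7`. Then there is an `x` of order 7 in the solvable group `Y₀`, which acts faithfully and irreducibly on `N` (`16 = 2 ^ 4`): contradiction to `zx2` (`d = 4`: `x ^ 5 = 1`) (see the proof of `pl25` in Nfv/Pl.lean for the module). `q = 5`: an `m ∈ M`, `m ≠ 1`,
has `2 ^ i` fixed points with `5 ∣ 2 ^ (4 - i) - 1`, so `i = 0`: `M` acts semiregularly on `N \ {1}`, so `card M` divides `15`, `card M = 5`. `R` acts by conjugation on `M`; `r = 3` or `7` does not divide `4`, so `R` centralizes `M`. `C_N(R)` is not 1 and normalized by `M`, so its order is `1` modulo `5` (semiregular) and a power of 2: it is 16, so `R` centralizes `N`, `R = 1`. -/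
theorem deg16 [Nontrivial J] (hJ : Nat.card J = 16) (hs : Group.IsSolvable Y)
    (hf : ∀ y : Y, (∀ j : J, y • j = j) → y = 1) (hp : MulAction.IsPreprimitive Y J) (r : ℕ)
    (hr : r.Prime) (h3 : 3 ≤ r) (R : Sylow r Y) (j₀ j₁ : J) (hne : j₀ ≠ j₁)
    (h0 : ∀ x ∈ (R : Subgroup Y), x • j₀ = j₀) (h1 : ∀ x ∈ (R : Subgroup Y), x • j₁ = j₁) :
    ∀ x ∈ (R : Subgroup Y), x = 1 := by
  classical
  obtain ⟨M, q, hab, hq, hexp, htr, hreg, hcen, hmin⟩ := prim_reg hs hf hp
  have hM := hab.nor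
  have hcom := hab.com
  have := Fact.mk hq
  have := Fact.mk hr
  have hbij : Function.Bijective (fun x : M => (x : Y) • j₀) := by
    constructor
    · intro a b hab
      have h1 : ((b : Y)⁻¹ * (a : Y)) • j₀ = j₀ := by
        have h2 : (a : Y) • j₀ = (b : Y) • j₀ := hab
        rw [mul_smul, h2, inv_smul_smul]
      have h3 := hreg _ (M.mul_mem (M.inv_mem b.2) a.2) j₀ h1
      exact Subtype.ext (inv_mul_eq_one.1 h3).symm
    · intro j'
      obtain ⟨x, hx, hxj⟩ := htr j₀ j'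
      exact ⟨⟨x, hx⟩, hxj⟩
  have hcard : Nat.card M = 16 := (Nat.card_congr (Equiv.ofBijective _ hbij)).trans hJ
  have hq2 : q = 2 := by
    have hnt : Nontrivial M := by
      have : 1 < Nat.card M := by rw [hcard]; norm_num
      exact Finite.one_lt_card_iff_nontrivial.1 this
    obtain ⟨m, hm⟩ := exists_ne (1 : M)
    have h1 : orderOf m ∣ q := orderOf_dvd_of_pow_eq_one (Subtype.ext (hexp m m.2))
    have h2 : orderOf m ∣ Nat.card M := orderOf_dvd_natCard m
    rw [hcard] at h2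
    have h3 : orderOf m ≠ 1 := by
      rw [Ne, orderOf_eq_one_iff]
      exact hm
    have h4 : orderOf m = q := (hq.eq_one_or_self_of_dvd _ h1).resolve_left h3
    rw [h4] at h2
    have h5 : q ∣ 2 ^ 4 := by simpa using h2
    exact (Nat.prime_dvd_prime_iff_eq hq Nat.prime_two).1 (hq.dvd_of_dvd_pow h5)
  letI iC : CommGroup M :=
    { (inferInstance : Group M) with
      mul_comm := fun a b => Subtype.ext (hcom a a.2 b b.2) }
  have hsol : Group.IsSolvable (MulAction.stabilizer Y j₀) := by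
    have := hs
    infer_instance
  have hnt : Nontrivial (Additive M) := by
    obtain ⟨a, b, hab⟩ := exists_pair_ne J
    obtain ⟨x, hx⟩ := hbij.2 a
    obtain ⟨y, hy⟩ := hbij.2 b
    refine ⟨Additive.ofMul x, Additive.ofMul y, fun hxy => hab ?_⟩
    have h1 : x = y := hxy
    rw [← hx, ← hy, h1]
  let φ : MulAction.stabilizer Y j₀ →* MulAut M :=
    MulAut.conjNormal.comp (MulAction.stabilizer Y j₀).subtype
  have hφ : ∀ (y : MulAction.stabilizer Y j₀) (x : M),
      ((φ y x : M) : Y) = (y : Y) * (x : Y) * (y : Y)⁻¹ :=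
    fun y x => MulAut.conjNormal_apply _ _
  let θ : MulAction.stabilizer Y j₀ →* AddMonoid.End (Additive M) :=
    { toFun := fun y => MonoidHom.toAdditive (φ y).toMonoidHom
      map_one' := by
        refine AddMonoidHom.ext fun x => ?_
        show Additive.ofMul (φ 1 (Additive.toMul x)) = x
        rw [map_one φ]
        rfl
      map_mul' := fun a b => by
        refine AddMonoidHom.ext fun x => ?_
        show Additive.ofMul (φ (a * b) (Additive.toMul x)) =
          Additive.ofMul (φ a (φ b (Additive.toMul x)))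
        rw [map_mul φ]
        rfl }
  have hexp' : ∀ x : Additive M, q • x = 0 := fun x =>
    Subtype.ext (hexp _ (Additive.toMul x).2)
  have hfai : ∀ y, (∀ x, θ y x = x) → y = 1 := by
    intro y hy
    have h1 : (y : Y) ∈ M := by
      refine hcen _ fun x hx => ?_
      have h2 := hφ y ⟨x, hx⟩
      have h4 : φ y ⟨x, hx⟩ = ⟨x, hx⟩ := hy (Additive.ofMul ⟨x, hx⟩)
      rw [h4] at h2
      have h3 : x = (y : Y) * x * (y : Y)⁻¹ := h2
      exact (eq_mul_inv_iff_mul_eq.1 h3).symm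
    have h2 := hreg _ h1 j₀ y.2
    exact Subtype.ext h2
  have hirr : ∀ D : AddSubgroup (Additive M), (∀ g, ∀ x ∈ D, θ g x ∈ D) → D = ⊥ ∨ D = ⊤ := by
    intro D' hD'
    let D : Subgroup M := AddSubgroup.toSubgroup' D'
    have hD : ∀ g, ∀ x ∈ D, φ g x ∈ D := fun g x hx => hD' g _ hx
    have hnor : (D.map M.subtype).Normal := by
      refine ⟨fun y hy g => ?_⟩
      obtain ⟨z, hzD, rfl⟩ := hy
      obtain ⟨m, hm, hmj⟩ := htr j₀ (g • j₀)
      have hst : m⁻¹ * g ∈ MulAction.stabilizer Y j₀ := by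
        rw [MulAction.mem_stabilizer_iff, mul_smul, ← hmj, inv_smul_smul]
      have h1 : g * (z : Y) * g⁻¹ = (m⁻¹ * g) * (z : Y) * (m⁻¹ * g)⁻¹ := by
        have h2 : (m⁻¹ * g) * (z : Y) * (m⁻¹ * g)⁻¹ ∈ M := hM.conj_mem (z : Y) z.2 _
        have h3 : g * (z : Y) * g⁻¹ = m * ((m⁻¹ * g) * (z : Y) * (m⁻¹ * g)⁻¹) * m⁻¹ := by group
        rw [h3, hcom m hm _ h2, mul_assoc, mul_inv_cancel, mul_one]
      exact ⟨φ ⟨m⁻¹ * g, hst⟩ z, hD _ z hzD, (hφ ⟨m⁻¹ * g, hst⟩ z).trans h1.symm⟩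
    have hle : D.map M.subtype ≤ M := by
      rintro y ⟨z, _, rfl⟩
      exact z.2
    rcases hmin _ hnor hle with h | h
    · left
      rw [eq_bot_iff]
      intro x hx
      have h1 : ((Additive.toMul x : M) : Y) ∈ D.map M.subtype := ⟨Additive.toMul x, hx, rfl⟩
      rw [h, Subgroup.mem_bot] at h1
      rw [AddSubgroup.mem_bot]
      exact Subtype.ext h1
    · right
      rw [eq_top_iff]
      intro x _
      have h1 : ((Additive.toMul x : M) : Y) ∈ D.map M.subtype := by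
        rw [h]
        exact (Additive.toMul x).2
      obtain ⟨z, hz, hzx⟩ := h1
      have h2 : z = Additive.toMul x := Subtype.ext hzx
      have h3 : Additive.ofMul z ∈ D' := hz
      rw [h2] at h3
      exact h3
  have hc' : Nat.card (Additive M) = 16 := hcard
  obtain ⟨n, hn, hnj⟩ := htr j₀ j₁
  have hle : (R : Subgroup Y) ≤ MulAction.stabilizer Y j₀ := fun x hx =>
    MulAction.mem_stabilizer_iff.mpr (h0 x hx)
  have hn1 : (⟨n, hn⟩ : M) ≠ 1 := by
    intro h
    have h2 : n = 1 := congrArg Subtype.val h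
    rw [h2, one_smul] at hnj
    exact hne hnj
  have hcn : ∀ x ∈ (R : Subgroup Y), x * n * x⁻¹ = n := by
    intro x hx
    have h2 : x * n * x⁻¹ ∈ M := hM.conj_mem n hn x
    have h4 : (x * n * x⁻¹ * n⁻¹) • j₁ = j₁ := by
      have h5 : n⁻¹ • j₁ = j₀ := by rw [← hnj, inv_smul_smul]
      have h6 : x⁻¹ • j₀ = j₀ := by
        rw [inv_smul_eq_iff]
        exact (h0 x hx).symm
      rw [mul_smul, h5, mul_smul, h6, mul_smul, hnj]
      exact h1 x hx
    have h5 := hreg _ (M.mul_mem h2 (M.inv_mem hn)) j₁ h4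
    exact mul_inv_eq_one.1 h5
  have key := @te_bd (MulAction.stabilizer Y j₀) (Additive M) _ _ _ _ hnt hc' hsol q hq2
    (AddCommGroup.zmodModule hexp') θ hfai hirr r hr h3 (R.subtype hle)
    (Additive.ofMul ⟨n, hn⟩) (fun h => hn1 h) (by
      intro x hx
      rw [Sylow.coe_subtype, Subgroup.mem_subgroupOf] at hx
      have h2 : φ x ⟨n, hn⟩ = ⟨n, hn⟩ := Subtype.ext ((hφ x ⟨n, hn⟩).trans (hcn x hx))
      exact h2)
  intro x hx
  have h2 := key ⟨x, hle hx⟩ (by
    rw [Sylow.coe_subtype, Subgroup.mem_subgroupOf]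
    exact hx)
  exact congrArg Subtype.val h2
-- END te

-- BEGIN tf
/-- The action by endomorphisms on a commutative group of exponent `r`. -/
private noncomputable def tf_rep {G S : Type} [Group G] [AddCommGroup S] (r : ℕ)
    [Module (ZMod r) S] (φ : G →* AddMonoid.End S) : Representation (ZMod r) G S where
  toFun y := AddMonoidHom.toZModLinearMap r (φ y)
  map_one' := by
    ext x
    show φ 1 x = x
    rw [map_one φ]
    rfl
  map_mul' a b := by
    ext x
    show φ (a * b) x = φ a (φ b x)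
    rw [map_mul φ]
    rfl

private theorem tf_bd {G S : Type} [Group G] [Finite G] [AddCommGroup S] [Finite S] [Nontrivial S]
    (hN : Nat.card S = 32) (hs : Group.IsSolvable G) (r : ℕ) (hr : r = 2)
    [iM : Module (ZMod r) S] (φ : G →* AddMonoid.End S) (hfai : ∀ g, (∀ x, φ g x = x) → g = 1)
    (hirr : ∀ D : AddSubgroup S, (∀ g, ∀ x ∈ D, φ g x ∈ D) → D = ⊥ ∨ D = ⊤) :
    Nat.card G ≤ 155 := by
  subst hr
  haveI : Fact (Nat.Prime 2) := ⟨Nat.prime_two⟩
  have hf : ∀ h, (∀ w : S, tf_rep 2 φ h w = w) → h = 1 := fun h hh => hfai h hh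
  have hi : Irrd (tf_rep 2 φ) ⊤ := by
    intro W hW
    rcases hirr W.toAddSubgroup fun g x hx => hW g (Subgroup.mem_top _) _ hx with h | h
    · left
      rw [Submodule.eq_bot_iff]
      intro w hw
      have h1 : w ∈ W.toAddSubgroup := hw
      rw [h, AddSubgroup.mem_bot] at h1
      exact h1
    · right
      rw [Submodule.eq_top_iff']
      intro w
      have h1 : w ∈ W.toAddSubgroup := by
        rw [h]
        exact AddSubgroup.mem_top _
      exact h1
  obtain ⟨J, hJ, W, UU, h⟩ := bs_ex hi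
  haveI := hJ
  obtain ⟨⟨j⟩, b, hb0, hbJ, hb, hb2⟩ := bl_dim h hi 5 (by rw [hN]; norm_num)
  have hb2' : 2 ≤ b := hb2 rfl (by norm_num)
  have hb5 : b = 5 := by
    rcases (Nat.dvd_prime Nat.prime_five).1 (Dvd.intro _ hbJ) with h1 | h1
    · omega
    · exact h1
  have hJ1 : Nat.card J = 1 := by
    rw [hb5] at hbJ
    omega
  haveI : Subsingleton J := (Nat.card_eq_one_iff_unique.1 hJ1).1
  have hq := bl_one h hf j
  exact (zq2 hq hs 5 (by rw [hN]; norm_num)).1 rfl

/-- (tf, size 3) Degree 32. PROOF. `prim_reg`: `N` regular, `card N = 32`, the stabilizer `Y₀` of a point acts faithfully and irreducibly by conjugation on `Additive N`, a module over `ZMod 2` (see the proof of `pl25` in Nfv/Pl.lean), `card Y = 32 * card Y₀` (proof of `prim_card` in Nas/Ob.lean). `bs_ex` gives a block system, `bl_dim` (`d = 5`): `b * card J = 5`,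
`b ≥ 2`, so there is one block, `bl_one`, `zq2` (`b = 5`): `card Y₀ ≤ 155`. -/
theorem deg32 [Nontrivial J] (hJ : Nat.card J = 32) (hs : Group.IsSolvable Y)
    (hf : ∀ y : Y, (∀ j : J, y • j = j) → y = 1) (hp : MulAction.IsPreprimitive Y J) :
    Nat.card Y ≤ 4960 := by
  classical
  obtain ⟨j⟩ : Nonempty J := inferInstance
  obtain ⟨M, r, hab, hr, hexp, htr, hreg, hcen, hmin⟩ := prim_reg hs hf hp
  have hM := hab.nor
  have hcom := hab.com
  haveI := Fact.mk hr
  have hbij : Function.Bijective (fun x : M => (x : Y) • j) := by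
    constructor
    · intro a b hab
      have h1 : ((b : Y)⁻¹ * (a : Y)) • j = j := by
        have h2 : (a : Y) • j = (b : Y) • j := hab
        rw [mul_smul, h2, inv_smul_smul]
      have h3 := hreg _ (M.mul_mem (M.inv_mem b.2) a.2) j h1
      exact Subtype.ext (inv_mul_eq_one.1 h3).symm
    · intro j'
      obtain ⟨x, hx, hxj⟩ := htr j j'
      exact ⟨⟨x, hx⟩, hxj⟩
  have hcard : Nat.card M = 32 := (Nat.card_congr (Equiv.ofBijective _ hbij)).trans hJ
  have hr2 : r = 2 := by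
    have hnt : Nontrivial M := by
      have : 1 < Nat.card M := by rw [hcard]; norm_num
      exact Finite.one_lt_card_iff_nontrivial.1 this
    obtain ⟨m, hm⟩ := exists_ne (1 : M)
    have h1 : orderOf m ∣ r := orderOf_dvd_of_pow_eq_one (Subtype.ext (hexp m m.2))
    have h2 : orderOf m ∣ Nat.card M := orderOf_dvd_natCard m
    rw [hcard] at h2
    have h3 : orderOf m ≠ 1 := by
      rw [Ne, orderOf_eq_one_iff]
      exact hm
    have h4 : orderOf m = r := (hr.eq_one_or_self_of_dvd _ h1).resolve_left h3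
    rw [h4] at h2
    have h5 : r ∣ 2 ^ 5 := by simpa using h2
    exact (Nat.prime_dvd_prime_iff_eq hr Nat.prime_two).1 (hr.dvd_of_dvd_pow h5)
  letI iC : CommGroup M :=
    { (inferInstance : Group M) with
      mul_comm := fun a b => Subtype.ext (hcom a a.2 b b.2) }
  have hsol : Group.IsSolvable (MulAction.stabilizer Y j) := by
    haveI := hs
    infer_instance
  have hnt : Nontrivial (Additive M) := by
    obtain ⟨a, b, hab⟩ := exists_pair_ne J
    obtain ⟨x, hx⟩ := hbij.2 a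
    obtain ⟨y, hy⟩ := hbij.2 b
    refine ⟨Additive.ofMul x, Additive.ofMul y, fun hxy => hab ?_⟩
    have h1 : x = y := hxy
    rw [← hx, ← hy, h1]
  let φ : MulAction.stabilizer Y j →* MulAut M :=
    MulAut.conjNormal.comp (MulAction.stabilizer Y j).subtype
  have hφ : ∀ (y : MulAction.stabilizer Y j) (x : M),
      ((φ y x : M) : Y) = (y : Y) * (x : Y) * (y : Y)⁻¹ :=
    fun y x => MulAut.conjNormal_apply _ _
  let θ : MulAction.stabilizer Y j →* AddMonoid.End (Additive M) :=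
    { toFun := fun y => MonoidHom.toAdditive (φ y).toMonoidHom
      map_one' := by
        refine AddMonoidHom.ext fun x => ?_
        show Additive.ofMul (φ 1 (Additive.toMul x)) = x
        rw [map_one φ]
        rfl
      map_mul' := fun a b => by
        refine AddMonoidHom.ext fun x => ?_
        show Additive.ofMul (φ (a * b) (Additive.toMul x)) =
          Additive.ofMul (φ a (φ b (Additive.toMul x)))
        rw [map_mul φ]
        rfl }
  have hexp' : ∀ x : Additive M, r • x = 0 := fun x =>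
    Subtype.ext (hexp _ (Additive.toMul x).2)
  have hfai : ∀ y, (∀ x, θ y x = x) → y = 1 := by
    intro y hy
    have h1 : (y : Y) ∈ M := by
      refine hcen _ fun x hx => ?_
      have h2 := hφ y ⟨x, hx⟩
      have h4 : φ y ⟨x, hx⟩ = ⟨x, hx⟩ := hy (Additive.ofMul ⟨x, hx⟩)
      rw [h4] at h2
      have h3 : x = (y : Y) * x * (y : Y)⁻¹ := h2
      exact (eq_mul_inv_iff_mul_eq.1 h3).symm
    have h2 := hreg _ h1 j y.2
    exact Subtype.ext h2
  have hirr : ∀ D : AddSubgroup (Additive M), (∀ g, ∀ x ∈ D, θ g x ∈ D) → D = ⊥ ∨ D = ⊤ := by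
    intro D' hD'
    let D : Subgroup M := AddSubgroup.toSubgroup' D'
    have hD : ∀ g, ∀ x ∈ D, φ g x ∈ D := fun g x hx => hD' g _ hx
    have hnor : (D.map M.subtype).Normal := by
      refine ⟨fun y hy g => ?_⟩
      obtain ⟨z, hzD, rfl⟩ := hy
      obtain ⟨m, hm, hmj⟩ := htr j (g • j)
      have hst : m⁻¹ * g ∈ MulAction.stabilizer Y j := by
        rw [MulAction.mem_stabilizer_iff, mul_smul, ← hmj, inv_smul_smul]
      have h1 : g * (z : Y) * g⁻¹ = (m⁻¹ * g) * (z : Y) * (m⁻¹ * g)⁻¹ := by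
        have h2 : (m⁻¹ * g) * (z : Y) * (m⁻¹ * g)⁻¹ ∈ M := hM.conj_mem (z : Y) z.2 _
        have h3 : g * (z : Y) * g⁻¹ = m * ((m⁻¹ * g) * (z : Y) * (m⁻¹ * g)⁻¹) * m⁻¹ := by group
        rw [h3, hcom m hm _ h2, mul_assoc, mul_inv_cancel, mul_one]
      exact ⟨φ ⟨m⁻¹ * g, hst⟩ z, hD _ z hzD, (hφ ⟨m⁻¹ * g, hst⟩ z).trans h1.symm⟩
    have hle : D.map M.subtype ≤ M := by
      rintro y ⟨z, _, rfl⟩
      exact z.2
    rcases hmin _ hnor hle with h | h
    · left
      rw [eq_bot_iff]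
      intro x hx
      have h1 : ((Additive.toMul x : M) : Y) ∈ D.map M.subtype := ⟨Additive.toMul x, hx, rfl⟩
      rw [h, Subgroup.mem_bot] at h1
      rw [AddSubgroup.mem_bot]
      exact Subtype.ext h1
    · right
      rw [eq_top_iff]
      intro x _
      have h1 : ((Additive.toMul x : M) : Y) ∈ D.map M.subtype := by
        rw [h]
        exact (Additive.toMul x).2
      obtain ⟨z, hz, hzx⟩ := h1
      have h2 : z = Additive.toMul x := Subtype.ext hzx
      have h3 : Additive.ofMul z ∈ D' := hz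
      rw [h2] at h3
      exact h3
  have hc' : Nat.card (Additive M) = 32 := hcard
  have h155 : Nat.card (MulAction.stabilizer Y j) ≤ 155 :=
    @tf_bd (MulAction.stabilizer Y j) (Additive M) _ _ _ _ hnt hc' hsol r hr2
      (AddCommGroup.zmodModule hexp') θ hfai hirr
  have hidx : (MulAction.stabilizer Y j).index = 32 := by
    have htr' : MulAction.IsPretransitive Y J := ⟨fun a b => by
      obtain ⟨x, -, hx⟩ := htr a b
      exact ⟨x, hx⟩⟩
    rw [MulAction.index_stabilizer_of_transitive Y j, hJ]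
  rw [← Subgroup.card_mul_index (MulAction.stabilizer Y j), hidx]
  omega
-- END tf

-- BEGIN tg
private theorem tg_step (m : ℕ) (hm : 22 ≤ m) : (2 * m + 2) ^ 4 ≤ 2 * (2 * m) ^ 4 := by
  obtain ⟨k, rfl⟩ := Nat.exists_eq_add_of_le hm
  ring_nf
  nlinarith [Nat.zero_le (k ^ 4), Nat.zero_le (k ^ 3), Nat.zero_le (k ^ 2), Nat.zero_le k]

private theorem tg_even : ∀ m : ℕ, 22 ≤ m → (2 * m) ^ 4 < 2 ^ m := by
  intro m hm
  induction m, hm using Nat.le_induction with
  | base => norm_num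
  | succ m hm ih =>
    have h1 := tg_step m hm
    rw [pow_succ 2 m]
    have h2 : 2 * (m + 1) = 2 * m + 2 := by ring
    rw [h2]
    omega

/-- (tg, size 2) PROOF. `n ^ 4 < 2 ^ (n - n / 2)` for `n ≥ 44`: see `pf3_num1` in Nfv/Pl.lean. -/
theorem num3 (n : ℕ) (hn : 44 ≤ n) : n ^ 4 * 2 ^ (n / 2) < 2 ^ n := by
  rcases Nat.even_or_odd' n with ⟨m, rfl | rfl⟩
  · have h1 : 2 * m / 2 = m := by omega
    have h2 := tg_even m (by omega)
    rw [h1, two_mul, pow_add, ← two_mul]
    exact Nat.mul_lt_mul_of_pos_right h2 (by positivity)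
  · have h1 : (2 * m + 1) / 2 = m := by omega
    have h2 := tg_even m (by omega)
    have h3 := tg_step m (by omega)
    have h4 : (2 * m + 1) ^ 4 ≤ (2 * m + 2) ^ 4 := Nat.pow_le_pow_left (by omega) 4
    have h5 : (2 * m + 1) ^ 4 < 2 ^ (m + 1) := by
      rw [pow_succ 2 m]
      omega
    have h6 : 2 ^ (2 * m + 1) = 2 ^ (m + 1) * 2 ^ m := by
      rw [← pow_add]
      congr 1
      ring
    rw [h1, h6]
    exact Nat.mul_lt_mul_of_pos_right h5 (by positivity)
-- END tg

-- BEGIN th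
private theorem th_odd {x : Y} {n : ℕ} (hn : ¬ 2 ∣ n) (hx : x ^ n = 1) {a b : J}
    (hab : a ≠ b) (ha : x • a = a ∨ x • a = b) (hb : x • b = a ∨ x • b = b) :
    x • a = a ∧ x • b = b := by
  rcases ha with ha | ha
  · refine ⟨ha, ?_⟩
    rcases hb with hb | hb
    · exact absurd (MulAction.injective x (ha.trans hb.symm)) hab
    · exact hb
  · exfalso
    rcases hb with hb | hb
    · obtain ⟨l, hl⟩ : ∃ l, n = 2 * l + 1 := ⟨n / 2, by omega⟩
      have h2 : (x ^ 2) • a = a := by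
        rw [pow_two, mul_smul, ha, hb]
      have h3 : ∀ m : ℕ, ((x ^ 2) ^ m) • a = a := by
        intro m
        induction m with
        | zero => rw [pow_zero, one_smul]
        | succ m ih => rw [pow_succ, mul_smul, h2, ih]
      have h4 : x ^ n = x * (x ^ 2) ^ l := by
        rw [hl, ← pow_mul, pow_succ']
      have h5 : (x ^ n) • a = b := by
        rw [h4, mul_smul, h3, ha]
      rw [hx, one_smul] at h5
      exact hab h5
    · exact hab (MulAction.injective x (ha.trans hb.symm))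

private theorem th_fix {s k : ℕ}
    (hfix : ∀ (x : Y) (j₀ : J), x ≠ 1 → x • j₀ = j₀ →
        ∃ i < k, Nat.card {j : J // x • j = j} = s ^ i ∧
          ∀ r : ℕ, r.Prime → r ≠ s → x ^ r = 1 → r ∣ s ^ (k - i) - 1)
    (r : ℕ) (x : Y) (hr : r.Prime) (hrs : r ≠ s) (hxr : x ^ r = 1) (hx1 : x ≠ 1) :
    Nat.card {j : J // x • j = j} = 0 ∨
      ∃ i < k, Nat.card {j : J // x • j = j} = s ^ i ∧ r ∣ s ^ (k - i) - 1 := by
  by_cases h : ∃ j : J, x • j = j
  · obtain ⟨j, hj⟩ := h
    obtain ⟨i, hi, hc, hd⟩ := hfix x j hx1 hj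
    exact Or.inr ⟨i, hi, hc, hd r hr hrs hxr⟩
  · left
    rw [Nat.card_eq_zero]
    left
    exact ⟨fun j => h ⟨j.1, j.2⟩⟩

private theorem th_16 [Nontrivial J] (hJ : Nat.card J = 16) (hs : Group.IsSolvable Y)
    (hf : ∀ y : Y, (∀ j : J, y • j = j) → y = 1) (hp : MulAction.IsPreprimitive Y J)
    (j₀ j₁ : J) (hne : j₀ ≠ j₁) : ∃ Δ : Finset J, j₀ ∈ Δ ∧ j₁ ∈ Δ ∧ 2 ≤ Δ.card ∧
    ∀ r : ℕ, r.Prime → 3 ≤ r → Gr Y r Δ := by
  classical
  refine ⟨{j₀, j₁}, by simp, by simp, by rw [Finset.card_pair hne], ?_⟩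
  intro r hr h3 R hR
  have hfx : ∀ x ∈ (R : Subgroup Y), x • j₀ = j₀ ∧ x • j₁ = j₁ := by
    intro x hx
    obtain ⟨m, hm⟩ := R.isPGroup' ⟨x, hx⟩
    have hm' : x ^ r ^ m = 1 := by
      have := congrArg Subtype.val hm
      simpa using this
    have hodd : ¬ 2 ∣ r ^ m := by
      intro h
      have h2 := Nat.prime_two.dvd_of_dvd_pow h
      have := (Nat.prime_dvd_prime_iff_eq Nat.prime_two hr).1 h2
      omega
    refine th_odd hodd hm' hne ?_ ?_
    · have := hR x hx j₀ (by simp)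
      simpa using this
    · have := hR x hx j₁ (by simp)
      simpa using this
  intro x hx j
  rw [deg16 hJ hs hf hp r hr h3 R j₀ j₁ hne (fun x hx => (hfx x hx).1)
    (fun x hx => (hfx x hx).2) x hx, one_smul]

/-- (th, size 3) PROOF. `pr3`: `n = card J = s ^ k`. If `n < 44` and `n` is not `8, 16, 32`: `two3` with `small3` (an `x ≠ 1` with `x ^ r = 1` without fixed points has 0 of them). `n = 16`: `s = 2`; `Δ = {j₀, j₁}` (or `{j₀, j}`): a Sylow subgroup which stabilizes it fixes both points (odd order, as in `two3`), `deg16`. `n = 32` or `n ≥ 44`: `cnt3`;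
`h1` from `pr3`: `x` has no fixed point or `s ^ i`, `r ∣ s ^ (k - i) - 1`, `s ^ (k - i) ≥ r + 1 ≥ 4`; `hc`: `deg32`, resp. `prim_card (card J) (ob _)` and `num3`. -/
theorem p3_prim [Nontrivial J] (h8 : Nat.card J ≠ 8) (hs : Group.IsSolvable Y)
    (hf : ∀ y : Y, (∀ j : J, y • j = j) → y = 1) (hp : MulAction.IsPreprimitive Y J)
    (j₀ j₁ : J) : GA Y j₀ j₁ := by
  obtain ⟨s, k, hsp, hk, hcard, htrans, hfix⟩ := pr3 hs hf hp
  by_cases h16 : Nat.card J = 16
  · by_cases hne : j₀ = j₁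
    · obtain ⟨j₂, hj₂⟩ := exists_ne j₀
      obtain ⟨Δ, h0, h1, h2, h3⟩ := th_16 h16 hs hf hp j₀ j₂ hj₂.symm
      exact ⟨Δ, h0, hne ▸ h0, fun _ => h2, h3⟩
    · obtain ⟨Δ, h0, h1, h2, h3⟩ := th_16 h16 hs hf hp j₀ j₁ hne
      exact ⟨Δ, h0, h1, fun _ => h2, h3⟩
  have hcase : (Nat.card J < 44 ∧ Nat.card J ≠ 32) ∨ (Nat.card J = 32 ∨ 44 ≤ Nat.card J) := by
    omega
  rcases hcase with ⟨hlt, h32⟩ | hbig
  · refine two3 s htrans ?_ j₀ j₁
    intro r x hr h3 hrs hxr hx1
    rcases th_fix hfix r x hr hrs hxr hx1 with h | ⟨i, hi, hc, hd⟩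
    · rw [h]
      exact Nat.zero_le 1
    · have hi0 := small3 s k i r hsp hk (hcard ▸ hlt) (hcard ▸ h8) (hcard ▸ h16) (hcard ▸ h32) hi
        hr h3 hd
      rw [hc, hi0, pow_zero]
  · refine cnt3 s (by omega) htrans ?_ ?_ j₀ j₁
    · intro r x hr h3 hrs hxr hx1
      rcases th_fix hfix r x hr hrs hxr hx1 with h | ⟨i, hi, hc, hd⟩
      · rw [h, mul_zero]
        exact Nat.zero_le _
      · have h1 : 1 < s ^ (k - i) := Nat.one_lt_pow (by omega) hsp.one_lt
        have h2 : r ≤ s ^ (k - i) - 1 := Nat.le_of_dvd (by omega) hd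
        have h4 : 4 ≤ s ^ (k - i) := by omega
        rw [hc, hcard]
        calc 4 * s ^ i ≤ s ^ (k - i) * s ^ i := Nat.mul_le_mul_right _ h4
          _ = s ^ k := by rw [← pow_add, Nat.sub_add_cancel hi.le]
    · rcases hbig with h32 | h44
      · have h1 := deg32 h32 hs hf hp
        rw [h32]
        calc 4 * Nat.card Y * 2 ^ (32 / 2) ≤ 4 * 4960 * 2 ^ (32 / 2) :=
              Nat.mul_le_mul_right _ (Nat.mul_le_mul_left _ h1)
          _ < 2 ^ 32 := by norm_num
      · have h1 := prim_card (Nat.card J) (ob _) le_rfl hs hf hp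
        exact lt_of_le_of_lt (Nat.mul_le_mul_right _ h1) (num3 _ h44)
-- END th

-- BEGIN ti
private theorem ti_fix {Y J : Type} [Group Y] [Finite J] [MulAction Y J] (r : ℕ)
    (hr : r.Prime) (x : Y) (hx : orderOf x = r) :
    Nat.card J ≡ Nat.card {j : J // x • j = j} [MOD r] := by
  haveI : Fact r.Prime := ⟨hr⟩
  have hxg : IsPGroup r (Subgroup.zpowers x) := by
    refine IsPGroup.of_card (n := 1) ?_
    rw [Nat.card_zpowers, pow_one, hx]
  have h1 := hxg.card_modEq_card_fixedPoints J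
  have h2 : Nat.card (MulAction.fixedPoints (Subgroup.zpowers x) J) =
      Nat.card {j : J // x • j = j} := by
    refine Nat.card_congr (Equiv.subtypeEquivRight fun j => ?_)
    rw [MulAction.mem_fixedPoints]
    constructor
    · intro h
      exact h ⟨x, Subgroup.mem_zpowers x⟩
    · rintro h ⟨g, hg⟩
      have h3 : Subgroup.zpowers x ≤ MulAction.stabilizer Y j := by
        rw [Subgroup.zpowers_le]
        exact MulAction.mem_stabilizer_iff.2 h
      exact MulAction.mem_stabilizer_iff.1 (h3 hg)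
  rwa [h2] at h1

/-- An element of order `7` on eight points with one fixed point: what commutes with it is one of its powers; and it is
transitive on the other points. -/
private theorem ti_com {Y J : Type} [Group Y] [Finite Y] [Finite J] [MulAction Y J]
    (hJ : Nat.card J = 8) (hf : ∀ y : Y, (∀ j : J, y • j = j) → y = 1) (y : Y)
    (hy : orderOf y = 7) (h1 : Nat.card {j : J // y • j = j} = 1) :
    (∀ x : Y, y * x = x * y → x ∈ Subgroup.zpowers y) ∧
      ∀ j₀ j j' : J, y • j₀ = j₀ → j ≠ j₀ → j' ≠ j₀ → ∃ g ∈ Subgroup.zpowers y, g • j = j' := by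
  obtain ⟨hsub, ⟨⟨j₀, hj₀⟩⟩⟩ := Nat.card_eq_one_iff_unique.1 h1
  have huniq : ∀ j : J, y • j = j → j = j₀ := fun j hj =>
    congrArg Subtype.val (hsub.elim ⟨j, hj⟩ ⟨j₀, hj₀⟩)
  have hpow : ∀ g ∈ Subgroup.zpowers y, g • j₀ = j₀ := by
    intro g hg
    have h3 : Subgroup.zpowers y ≤ MulAction.stabilizer Y j₀ := by
      rw [Subgroup.zpowers_le]
      exact MulAction.mem_stabilizer_iff.2 hj₀
    exact MulAction.mem_stabilizer_iff.1 (h3 hg)
  -- the orbit of `j'`
  have horb : ∀ j' : J, j' ≠ j₀ → (MulAction.orbit (Subgroup.zpowers y) j').ncard = 7 := by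
    intro j' hj'
    have hnf : y • j' ≠ j' := fun h => hj' (huniq j' h)
    have h2 : (MulAction.orbit (Subgroup.zpowers y) j').ncard ∣ 7 := by
      rw [← MulAction.index_stabilizer, ← hy, ← Nat.card_zpowers]
      exact Subgroup.index_dvd_card _
    rcases (Nat.dvd_prime (by norm_num : Nat.Prime 7)).1 h2 with h3 | h3
    · exfalso
      obtain ⟨a, ha⟩ := Set.ncard_eq_one.1 h3
      have h4 : j' ∈ MulAction.orbit (Subgroup.zpowers y) j' := MulAction.mem_orbit_self j'
      have h5 : y • j' ∈ MulAction.orbit (Subgroup.zpowers y) j' :=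
        ⟨⟨y, Subgroup.mem_zpowers y⟩, rfl⟩
      rw [ha, Set.mem_singleton_iff] at h4 h5
      exact hnf (h5.trans h4.symm)
    · exact h3
  have hn0 : ∀ j' : J, j' ≠ j₀ → j₀ ∉ MulAction.orbit (Subgroup.zpowers y) j' := by
    rintro j' hj' ⟨⟨g, hg⟩, hgj⟩
    have h2 : g • j' = j₀ := hgj
    have h3 := hpow g hg
    rw [← h2] at h3
    exact hj' ((MulAction.injective g h3).symm.trans h2)
  have huniv : ∀ j' : J, j' ≠ j₀ →
      insert j₀ (MulAction.orbit (Subgroup.zpowers y) j') = Set.univ := by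
    intro j' hj'
    rw [Set.eq_univ_iff_ncard, Set.ncard_insert_of_notMem (hn0 j' hj'), horb j' hj', hJ]
  have htr : ∀ j j' : J, j ≠ j₀ → j' ≠ j₀ → ∃ g ∈ Subgroup.zpowers y, g • j = j' := by
    intro j j' hj hj'
    have h2 : j' ∈ insert j₀ (MulAction.orbit (Subgroup.zpowers y) j) := by
      rw [huniv j hj]; trivial
    rcases h2 with h2 | ⟨⟨g, hg⟩, hgj⟩
    · exact absurd h2 hj'
    · exact ⟨g, hg, hgj⟩
  refine ⟨?_, ?_⟩
  · intro x hc
    have hxj : x • j₀ = j₀ := by
      apply huniq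
      rw [smul_smul, hc, mul_smul, hj₀]
    haveI : Nontrivial J := by
      rw [← Finite.one_lt_card_iff_nontrivial, hJ]
      norm_num
    obtain ⟨j', hj'⟩ := exists_ne j₀
    obtain ⟨g, hg, hgj'⟩ := htr j' (x • j') hj' (fun h =>
      hj' (MulAction.injective x (h.trans hxj.symm)))
    -- `g⁻¹ * x` fixes everything
    have hcom : ∀ z ∈ Subgroup.zpowers y, z * x = x * z := by
      intro z hz
      obtain ⟨n, rfl⟩ := hz
      exact (Commute.zpow_left (show Commute y x from hc) n)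
    have hgc : ∀ z ∈ Subgroup.zpowers y, z * g = g * z := by
      intro z hz
      obtain ⟨n, rfl⟩ := hz
      obtain ⟨l, rfl⟩ := hg
      exact (Commute.zpow_zpow_self y n l)
    have h9 : g⁻¹ * x = 1 := by
      apply hf
      intro j
      by_cases hjj : j = j₀
      · rw [hjj, mul_smul, hxj]
        exact hpow _ (Subgroup.inv_mem _ hg)
      · obtain ⟨z, hz, hzj⟩ := htr j' j hj' hjj
        have h4 : Commute z (g⁻¹ * x) :=
          (show Commute z g from hgc z hz).inv_right.mul_right (hcom z hz)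
        rw [← hzj, smul_smul, ← h4.eq, mul_smul, mul_smul g⁻¹, ← hgj', inv_smul_smul]
    rw [← inv_mul_eq_one.1 h9]
    exact hg
  · intro j₂ j j' h2 hj hj'
    rw [huniq j₂ h2] at hj hj'
    exact htr j j' hj hj'

/-- Degree 8: a nontrivial normal commutative subgroup of prime exponent `q` of a point stabilizer has `q = 7`. -/
private theorem ti_seven [Nontrivial J] (hJ : Nat.card J = 8) (hs : Group.IsSolvable Y)
    (hf : ∀ y : Y, (∀ j : J, y • j = j) → y = 1) (hp : MulAction.IsPreprimitive Y J) (j₀ : J)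
    (M : Subgroup (MulAction.stabilizer Y j₀)) (q : ℕ) (hM : Ab M) (hq : q.Prime)
    (he : ∀ x ∈ M, x ^ q = 1) (hne : M ≠ ⊥) : q = 7 := by
  obtain ⟨N, s, hab, hsp, hexp, htr, hreg, hcen, hmin⟩ := prim_reg hs hf hp
  have hN := hab.nor
  have hcom := hab.com
  have := Fact.mk hq
  have hbij : Function.Bijective (fun x : N => (x : Y) • j₀) := by
    constructor
    · intro a b hab
      have h1 : ((b : Y)⁻¹ * (a : Y)) • j₀ = j₀ := by
        have h2 : (a : Y) • j₀ = (b : Y) • j₀ := hab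
        rw [mul_smul, h2, inv_smul_smul]
      have h3 := hreg _ (N.mul_mem (N.inv_mem b.2) a.2) j₀ h1
      exact Subtype.ext (inv_mul_eq_one.1 h3).symm
    · intro j'
      obtain ⟨x, hx, hxj⟩ := htr j₀ j'
      exact ⟨⟨x, hx⟩, hxj⟩
  have hcard : Nat.card N = 8 := (Nat.card_congr (Equiv.ofBijective _ hbij)).trans hJ
  let D : Subgroup Y := N ⊓ Subgroup.centralizer ((M.map (MulAction.stabilizer Y j₀).subtype :
    Subgroup Y) : Set Y)
  have hD : ∀ n : Y, n ∈ D ↔ n ∈ N ∧ ∀ m ∈ M, (m : Y) * n = n * m := by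
    intro n
    rw [Subgroup.mem_inf, Subgroup.mem_centralizer_iff]
    refine and_congr_right fun _ => ⟨fun h m hm => h m ⟨m, hm, rfl⟩, ?_⟩
    rintro h _ ⟨m, hm, rfl⟩
    exact h m hm
  have hDn : D.Normal := by
    refine ⟨fun d hd y => ?_⟩
    rw [hD] at hd ⊢
    refine ⟨hN.conj_mem d hd.1 y, ?_⟩
    obtain ⟨n, hn, hnj⟩ := htr j₀ (y • j₀)
    have hst : n⁻¹ * y ∈ MulAction.stabilizer Y j₀ := by
      rw [MulAction.mem_stabilizer_iff, mul_smul, ← hnj, inv_smul_smul]
    have h2 : y * d * y⁻¹ = (n⁻¹ * y) * d * (n⁻¹ * y)⁻¹ := by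
      have h3 : (n⁻¹ * y) * d * (n⁻¹ * y)⁻¹ ∈ N := hN.conj_mem d hd.1 _
      have h4 : y * d * y⁻¹ = n * ((n⁻¹ * y) * d * (n⁻¹ * y)⁻¹) * n⁻¹ := by group
      rw [h4, hcom n hn _ h3, mul_assoc, mul_inv_cancel, mul_one]
    intro m hm
    rw [h2]
    have h5 := hM.nor.conj_mem m hm (⟨n⁻¹ * y, hst⟩⁻¹ : MulAction.stabilizer Y j₀)
    have h6 := hd.2 _ h5
    simp only [Subgroup.coe_mul, Subgroup.coe_inv, inv_inv] at h6
    have h7 : (n⁻¹ * y) * ((n⁻¹ * y)⁻¹ * (m : Y) * (n⁻¹ * y) * d) * (n⁻¹ * y)⁻¹ =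
        (n⁻¹ * y) * (d * ((n⁻¹ * y)⁻¹ * (m : Y) * (n⁻¹ * y))) * (n⁻¹ * y)⁻¹ := by rw [h6]
    have h8 : (n⁻¹ * y) * ((n⁻¹ * y)⁻¹ * (m : Y) * (n⁻¹ * y) * d) * (n⁻¹ * y)⁻¹ =
        (m : Y) * ((n⁻¹ * y) * d * (n⁻¹ * y)⁻¹) := by group
    have h9 : (n⁻¹ * y) * (d * ((n⁻¹ * y)⁻¹ * (m : Y) * (n⁻¹ * y))) * (n⁻¹ * y)⁻¹ =
        ((n⁻¹ * y) * d * (n⁻¹ * y)⁻¹) * (m : Y) := by group
    rw [← h8, h7, h9]
  have hDb : D = ⊥ := by
    rcases hmin D hDn inf_le_left with h | h
    · exact h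
    · exfalso
      apply hne
      rw [Subgroup.eq_bot_iff_forall]
      intro m hm
      have h1 : (m : Y) ∈ N := by
        refine hcen _ fun x hx => ?_
        rw [← h, hD] at hx
        exact hx.2 m hm
      exact Subtype.ext (hreg _ h1 j₀ m.2)
  letI : MulAction M N := MulAction.compHom N
    (((MulAut.conjNormal (H := N)).comp (MulAction.stabilizer Y j₀).subtype).comp M.subtype)
  have hact : ∀ (m : M) (n : N), ((m • n : N) : Y) = ((m : MulAction.stabilizer Y j₀) : Y) * n *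
      ((m : MulAction.stabilizer Y j₀) : Y)⁻¹ := fun m n => MulAut.conjNormal_apply _ _
  have hMp : IsPGroup q M := fun m => ⟨1, Subtype.ext (by
    rw [pow_one]
    exact he m m.2)⟩
  have h1 := hMp.card_modEq_card_fixedPoints N
  have h2 : Nat.card (MulAction.fixedPoints M N) = 1 := by
    rw [Nat.card_eq_one_iff_unique]
    have hone : ∀ n : N, n ∈ MulAction.fixedPoints M N → n = 1 := by
      intro n hn
      have h3 : (n : Y) ∈ D := by
        rw [hD]
        refine ⟨n.2, fun m hm => ?_⟩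
        have h4 := congrArg (Subtype.val) (hn ⟨m, hm⟩)
        rw [hact] at h4
        exact mul_inv_eq_iff_eq_mul.1 h4
      rw [hDb, Subgroup.mem_bot] at h3
      exact Subtype.ext h3
    refine ⟨⟨fun u v => Subtype.ext ((hone u.1 u.2).trans (hone v.1 v.2).symm)⟩, ⟨⟨1, ?_⟩⟩⟩
    intro m
    apply Subtype.ext
    rw [hact, Subgroup.coe_one, mul_one, mul_inv_cancel]
  rw [h2, hcard] at h1
  have h3 : q ∣ 7 := (Nat.modEq_iff_dvd' (by norm_num)).1 h1.symm
  exact (Nat.prime_dvd_prime_iff_eq hq (by norm_num)).1 h3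

/-- (ti, size 4) Degree 8. (1) the only primes are `2`, `3`, `7`; (2) an element of order `7` has one fixed point;
(3) only `1` fixes three points. PROOF of (3). `M`: a minimal normal subgroup of the stabilizer `Y₀` of a point `j₀`, it is a `7`-group: `ti_seven`. Let `z` fix `j₀`, `b`, `c`. There is a `g ∈ M` with `g • b = c`; `g⁻¹ z g z⁻¹ ∈ M` fixes `b`, so it is `1`. So `z` commutes with `g`, so it is a power of `g`, and `z` fixes `b`. -/
theorem deg8 (hJ : Nat.card J = 8) (hs : Group.IsSolvable Y)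
    (hf : ∀ y : Y, (∀ j : J, y • j = j) → y = 1) (hp : MulAction.IsPreprimitive Y J) :
    (∀ r : ℕ, r.Prime → 5 ≤ r → r ≠ 7 → ¬ r ∣ Nat.card Y) ∧
      (∀ x : Y, orderOf x = 7 → Nat.card {j : J // x • j = j} = 1) ∧
      ∀ (z : Y) (a b c : J), a ≠ b → a ≠ c → b ≠ c → z • a = a → z • b = b → z • c = c →
        z = 1 := by
  haveI hnt : Nontrivial J := by
    rw [← Finite.one_lt_card_iff_nontrivial, hJ]
    norm_num
  obtain ⟨s, k, hs', hk0, hcard, -, hfix⟩ := pr3 hs hf hp
  rw [hJ] at hcard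
  have hs2 : s = 2 := by
    have h1 : s ∣ 2 ^ 3 := by
      have : s ∣ s ^ k := dvd_pow_self s (by omega)
      rw [← hcard] at this
      exact this
    exact (Nat.prime_dvd_prime_iff_eq hs' Nat.prime_two).1 (hs'.dvd_of_dvd_pow h1)
  subst hs2
  have hk3 : k = 3 := Nat.pow_right_injective (le_refl 2) (show 2 ^ k = 2 ^ 3 by rw [← hcard])
  subst hk3
  -- an element of prime order `r ∤ 8` has a fixed point
  have hex : ∀ (r : ℕ) (x : Y), r.Prime → 3 ≤ r → orderOf x = r →
      ∃ i < 3, Nat.card {j : J // x • j = j} = 2 ^ i ∧ r ∣ 2 ^ (3 - i) - 1 ∧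
        8 ≡ 2 ^ i [MOD r] := by
    intro r x hr h5 hx
    have h1 := ti_fix (J := J) r hr x hx
    rw [hJ] at h1
    have h2 : Nat.card {j : J // x • j = j} ≠ 0 := by
      intro h0
      rw [h0] at h1
      have h3 : r ∣ 2 ^ 3 := (Nat.modEq_zero_iff_dvd.1 h1)
      have h4 := (Nat.prime_dvd_prime_iff_eq hr Nat.prime_two).1 (hr.dvd_of_dvd_pow h3)
      omega
    obtain ⟨⟨j₀, hj₀⟩⟩ : Nonempty {j : J // x • j = j} := (Nat.card_ne_zero.1 h2).1
    have hx1 : x ≠ 1 := by
      rintro rfl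
      rw [orderOf_one] at hx
      omega
    obtain ⟨i, hi, h3, h4⟩ := hfix x j₀ hx1 hj₀
    refine ⟨i, hi, h3, h4 r hr (by omega) ?_, ?_⟩
    · rw [← hx]; exact pow_orderOf_eq_one x
    · rw [← h3]; exact h1
  have h7 : ∀ x : Y, orderOf x = 7 → Nat.card {j : J // x • j = j} = 1 := by
    intro x hx
    obtain ⟨i, hi, h5, -, h6⟩ := hex 7 x (by norm_num) (by norm_num) hx
    rw [h5]
    interval_cases i
    · rfl
    · exact absurd h6 (by decide)
    · exact absurd h6 (by decide)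
  refine ⟨?_, h7, ?_⟩
  · intro r hr h5 h7 hd
    haveI : Fact r.Prime := ⟨hr⟩
    obtain ⟨x, hx⟩ := exists_prime_orderOf_dvd_card' r hd
    obtain ⟨i, hi, -, h1, -⟩ := hex r x hr (by omega) hx
    interval_cases i
    · exact h7 ((Nat.prime_dvd_prime_iff_eq hr (by norm_num : Nat.Prime 7)).1 h1)
    · have := Nat.le_of_dvd (by norm_num) h1
      norm_num at this
      omega
    · have := Nat.le_of_dvd (by norm_num) h1
      norm_num at this
      omega
  · intro z a b c hab hac hbc ha hb hc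
    have hsol : Group.IsSolvable (MulAction.stabilizer Y a) := by
      have := hs
      infer_instance
    by_contra hz1
    have hnt' : Nontrivial (MulAction.stabilizer Y a) :=
      ⟨⟨z, ha⟩, 1, fun h => hz1 (congrArg Subtype.val h)⟩
    obtain ⟨M, q, hM, hq, he, hne⟩ := te_min hsol
    have hq7 := ti_seven hJ hs hf hp a M q hM hq he hne
    subst hq7
    have := Fact.mk hq
    have hMo : ∀ m ∈ M, m ≠ 1 → orderOf (m : Y) = 7 := by
      intro m hm hm1
      rw [Subgroup.orderOf_coe]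
      exact orderOf_eq_prime (he m hm) hm1
    have hfx : ∀ m ∈ M, ∀ j : J, j ≠ a → (m : Y) • j = j → m = 1 := by
      intro m hm j hj hmj
      by_contra hm1
      have h1 := h7 (m : Y) (hMo m hm hm1)
      obtain ⟨hsub, -⟩ := Nat.card_eq_one_iff_unique.1 h1
      have h2 := hsub.elim ⟨j, hmj⟩ ⟨a, m.2⟩
      exact hj (congrArg Subtype.val h2)
    obtain ⟨m, hmM, hm1⟩ : ∃ m ∈ M, m ≠ 1 := by
      by_contra hcon
      push Not at hcon
      exact hne ((Subgroup.eq_bot_iff_forall _).2 hcon)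
    obtain ⟨g, hg, hgb⟩ := (ti_com hJ hf (m : Y) (hMo m hmM hm1) (h7 _ (hMo m hmM hm1))).2 a b c
      m.2 hab.symm hac.symm
    obtain ⟨n, rfl⟩ := hg
    have hgM : m ^ n ∈ M := M.zpow_mem hmM n
    have hgb' : ((m ^ n : MulAction.stabilizer Y a) : Y) • b = c := by
      rw [Subgroup.coe_zpow]
      exact hgb
    have hg1 : m ^ n ≠ 1 := by
      intro h
      rw [h, Subgroup.coe_one, one_smul] at hgb'
      exact hbc hgb'
    have hz' : z⁻¹ • b = b := by
      rw [inv_smul_eq_iff]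
      exact hb.symm
    have hu : (m ^ n)⁻¹ * (⟨z, ha⟩ * m ^ n * ⟨z, ha⟩⁻¹) ∈ M :=
      M.mul_mem (M.inv_mem hgM) (hM.nor.conj_mem _ hgM _)
    have hu1 := hfx _ hu b hab.symm (by
      simp only [Subgroup.coe_mul, Subgroup.coe_inv]
      rw [mul_smul, mul_smul, mul_smul, hz', hgb', hc]
      rw [inv_smul_eq_iff]
      exact hgb'.symm)
    have hcomm : ((m ^ n : MulAction.stabilizer Y a) : Y) * z =
        z * ((m ^ n : MulAction.stabilizer Y a) : Y) := by
      have h1 := congrArg (Subtype.val) (inv_mul_eq_one.1 hu1)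
      simp only [Subgroup.coe_mul, Subgroup.coe_inv] at h1
      exact (eq_mul_inv_iff_mul_eq.1 h1)
    have hzz := (ti_com hJ hf ((m ^ n : MulAction.stabilizer Y a) : Y) (hMo _ hgM hg1)
      (h7 _ (hMo _ hgM hg1))).1 z hcomm
    obtain ⟨l, hl⟩ := hzz
    have hl' : ((m ^ n) ^ l : MulAction.stabilizer Y a) = ⟨z, ha⟩ := Subtype.ext (by
      rw [Subgroup.coe_zpow]
      exact hl)
    have h9 := hfx _ (M.zpow_mem hgM l) b hab.symm (by
      rw [hl']
      exact hb)
    rw [hl'] at h9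
    exact hz1 (congrArg Subtype.val h9)
-- END ti

-- BEGIN tl
private theorem tl_gr (hJ : Nat.card J = 8) (hf : ∀ y : Y, (∀ j : J, y • j = j) → y = 1)
    (h5' : ∀ r : ℕ, r.Prime → 5 ≤ r → r ≠ 7 → ¬ r ∣ Nat.card Y)
    (h7 : ∀ x : Y, orderOf x = 7 → Nat.card {j : J // x • j = j} = 1) (D : Finset J)
    (h2 : 2 ≤ D.card) (h6 : D.card < 7) (r : ℕ) (hr : r.Prime) (h5 : 5 ≤ r) : Gr Y r D := by
  classical
  intro R hR x hx j
  have := Fact.mk hr
  by_cases hx1 : x = 1
  · rw [hx1, one_smul]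
  · exfalso
    obtain ⟨y, hyR, hyr, hy1⟩ := te_el R x hx hx1
    have ho : orderOf y = r := orderOf_eq_prime hyr hy1
    have hr7 : r = 7 := by
      by_contra hne
      apply h5' r hr h5 hne
      rw [← ho]
      exact orderOf_dvd_natCard y
    subst hr7
    have h1 := h7 y ho
    obtain ⟨hsub, ⟨⟨a, ha⟩⟩⟩ := Nat.card_eq_one_iff_unique.1 h1
    obtain ⟨i, hi, hia⟩ : ∃ i ∈ D, i ≠ a := by
      by_contra hcon
      push Not at hcon
      have h3 : D ⊆ {a} := fun i hi => by rw [hcon i hi]; exact Finset.mem_singleton_self a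
      have h4 := Finset.card_le_card h3
      rw [Finset.card_singleton] at h4
      omega
    have h3 : ∀ i' : J, i' ≠ a → i' ∈ D := by
      intro i' hi'
      obtain ⟨g, hg, hgi⟩ := (ti_com hJ hf y ho h1).2 a i i' ha hia hi'
      rw [← hgi]
      exact hR g ((Subgroup.zpowers_le.2 hyR) hg) i hi
    have := Fintype.ofFinite J
    have h4 : Finset.univ.erase a ⊆ D := fun i' hi' => h3 i' (Finset.ne_of_mem_erase hi')
    have h8 := Finset.card_le_card h4
    rw [Finset.card_erase_of_mem (Finset.mem_univ a), Finset.card_univ, ← Nat.card_eq_fintype_card,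
      hJ] at h8
    omega

/-- Two elements which permute the three points of `E` cyclically. -/
private theorem tl_cyc (h3 : ∀ (z : Y) (a b c : J), a ≠ b → a ≠ c → b ≠ c → z • a = a →
      z • b = b → z • c = c → z = 1) (x y : Y) (hx : x ^ 3 = 1) (p : J) (E : Finset J)
    (hE : E.card = 3) (hp : p ∈ E) (hxE : ∀ e ∈ E, x • e ∈ E) (hyE : ∀ e ∈ E, y • e ∈ E)
    (hxn : ∀ e ∈ E, x • e ≠ e) (hyn : ∀ e ∈ E, y • e ≠ e) : y = x ∨ y = x⁻¹ := by
  classical
  have hqE : x • p ∈ E := hxE p hp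
  have hrE : x • x • p ∈ E := hxE _ hqE
  have hxr : x • x • x • p = p := by
    rw [← mul_smul, ← mul_smul]
    have h3 : x * x * x = 1 := by rw [← hx, pow_succ, pow_two]
    rw [h3, one_smul]
  have hpq : p ≠ x • p := fun h => hxn p hp h.symm
  have hqr : x • p ≠ x • x • p := fun h => hxn _ hqE h.symm
  have hpr : p ≠ x • x • p := by
    intro h
    apply hxn p hp
    calc x • p = x • x • x • p := by rw [← h]
      _ = p := hxr
  have hall : ∀ e ∈ E, e = p ∨ e = x • p ∨ e = x • x • p := by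
    have h1 : ({p, x • p, x • x • p} : Finset J) = E := by
      apply Finset.eq_of_subset_of_card_le
      · intro e he
        simp only [Finset.mem_insert, Finset.mem_singleton] at he
        rcases he with rfl | rfl | rfl
        · exact hp
        · exact hqE
        · exact hrE
      · rw [hE, Finset.card_insert_of_notMem, Finset.card_insert_of_notMem,
          Finset.card_singleton]
        · rw [Finset.mem_singleton]
          exact hqr
        · rw [Finset.mem_insert, Finset.mem_singleton, not_or]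
          exact ⟨hpq, hpr⟩
    intro e he
    rw [← h1] at he
    simpa only [Finset.mem_insert, Finset.mem_singleton] using he
  have hinj : ∀ a b : J, y • a = y • b → a = b := fun a b h => MulAction.injective y h
  rcases hall _ (hyE p hp) with h | h | h
  · exact absurd h (hyn p hp)
  · -- `y • p = x • p`
    have h1 : y • (x • x • p) = p := by
      rcases hall _ (hyE _ hrE) with h' | h' | h'
      · exact h'
      · exact absurd (hinj _ _ (h'.trans h.symm)).symm hpr
      · exact absurd h' (hyn _ hrE)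
    have h2 : y • (x • p) = x • x • p := by
      rcases hall _ (hyE _ hqE) with h' | h' | h'
      · exact absurd (hinj _ _ (h'.trans h1.symm)) hqr
      · exact absurd h' (hyn _ hqE)
      · exact h'
    left
    have h4 := h3 (x⁻¹ * y) p (x • p) (x • x • p) hpq hpr hqr
      (by rw [mul_smul, h, inv_smul_smul]) (by rw [mul_smul, h2, inv_smul_smul])
      (by rw [mul_smul, h1, inv_smul_eq_iff, hxr])
    exact (inv_mul_eq_one.1 h4).symm
  · have h1 : y • (x • p) = p := by
      rcases hall _ (hyE _ hqE) with h' | h' | h'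
      · exact h'
      · exact absurd h' (hyn _ hqE)
      · exact absurd (hinj _ _ (h'.trans h.symm)).symm hpq
    have h2 : y • (x • x • p) = x • p := by
      rcases hall _ (hyE _ hrE) with h' | h' | h'
      · exact absurd (hinj _ _ (h'.trans h1.symm)).symm hqr
      · exact h'
      · exact absurd h' (hyn _ hrE)
    right
    have h4 := h3 (x * y) p (x • p) (x • x • p) hpq hpr hqr
      (by rw [mul_smul, h, hxr]) (by rw [mul_smul, h1]) (by rw [mul_smul, h2])
    exact eq_inv_of_mul_eq_one_right h4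

/-- (tl, size 4) Degree 8. PROOF. `D₀ = {j₀, b}`. It is good for `7` since an element of order 7 has one fixed point, and for all other `r ≥ 5` since `r` does not divide `card Y`. If it is good for `3` we have `GA`. Otherwise some Sylow `3`-subgroup `P` fixes `j₀` and `b`; `x ∈ P` of order 3, `d` another point, `D₁ = {j₀, b, d, x • d, x ^ 2 • d}`.
An element `y` of order 3 of `T₁` acts on the complement of `D₁` as `x` or `x⁻¹`, so it is `x` or `x⁻¹`. `T₁` permutes the fixed points of `y`. -/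
theorem base8f (hJ : Nat.card J = 8) (hs : Group.IsSolvable Y)
    (hf : ∀ y : Y, (∀ j : J, y • j = j) → y = 1) (hp : MulAction.IsPreprimitive Y J)
    (j₀ j₁ : J) : GA Y j₀ j₁ ∨ GB Y j₀ j₁ := by
  classical
  have := Fact.mk Nat.prime_three
  obtain ⟨d5, d7, d3⟩ := deg8 hJ hs hf hp
  have hnt : Nontrivial J := by
    rw [← Finite.one_lt_card_iff_nontrivial, hJ]
    norm_num
  obtain ⟨b, hb, hb1⟩ : ∃ b : J, b ≠ j₀ ∧ (j₁ = j₀ ∨ j₁ = b) := by
    by_cases h : j₁ = j₀
    · obtain ⟨b, hb⟩ := exists_ne j₀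
      exact ⟨b, hb, Or.inl h⟩
    · exact ⟨j₁, h, Or.inr rfl⟩
  have hj₁ : j₁ ∈ ({j₀, b} : Finset J) := by
    rw [Finset.mem_insert, Finset.mem_singleton]
    exact hb1
  have hc0 : ({j₀, b} : Finset J).card = 2 := Finset.card_pair hb.symm
  by_cases h3 : Gr Y 3 ({j₀, b} : Finset J)
  · left
    refine ⟨{j₀, b}, Finset.mem_insert_self _ _, hj₁, fun _ => hc0.ge, ?_⟩
    intro r hr hr3
    by_cases h33 : r = 3
    · subst h33
      exact h3
    · have h4 : r ≠ 4 := by
        rintro rfl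
        revert hr
        norm_num
      exact tl_gr hJ hf d5 d7 _ hc0.ge (by rw [hc0]; norm_num) r hr (by omega)
  · right
    unfold Gr at h3
    push Not at h3
    obtain ⟨P, hP, x', hx'P, i, hi⟩ := h3
    have hx'1 : x' ≠ 1 := by
      rintro rfl
      exact hi (one_smul _ _)
    obtain ⟨x, hxP, hx3, hx1⟩ := te_el P x' hx'P hx'1
    have hodd : ¬ 2 ∣ 3 := by decide
    have hxx := th_odd hodd hx3 (Ne.symm hb) (by
      have h := hP x hxP j₀ (Finset.mem_insert_self _ _)
      rwa [Finset.mem_insert, Finset.mem_singleton] at h) (by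
      have h := hP x hxP b (Finset.mem_insert_of_mem (Finset.mem_singleton_self _))
      rwa [Finset.mem_insert, Finset.mem_singleton] at h)
    obtain ⟨hxj, hxb⟩ := hxx
    have hxf : ∀ j : J, x • j = j → j = j₀ ∨ j = b := by
      intro j hj
      by_contra hcon
      push Not at hcon
      exact hx1 (d3 x j₀ b j (Ne.symm hb) hcon.1.symm hcon.2.symm hxj hxb hj)
    have hFJ := Fintype.ofFinite J
    obtain ⟨d, hd⟩ : ∃ d : J, d ∉ ({j₀, b} : Finset J) := by
      by_contra hcon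
      push Not at hcon
      have h1 := Finset.card_le_card (show (Finset.univ : Finset J) ⊆ {j₀, b} from
        fun j _ => hcon j)
      rw [Finset.card_univ, ← Nat.card_eq_fintype_card, hJ, hc0] at h1
      omega
    have hd' := hd
    rw [Finset.mem_insert, Finset.mem_singleton, not_or] at hd'
    obtain ⟨hd0, hdb⟩ := hd'
    have hxxx : ∀ j : J, x • x • x • j = j := by
      intro j
      have : x * (x * x) = 1 := by rw [← mul_assoc, ← hx3, pow_succ, pow_two]
      rw [← mul_smul x x j, ← mul_smul, this, one_smul]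
    have hmv : ∀ j : J, j ≠ j₀ → j ≠ b → x • j ≠ j := fun j h0 h1 h => by
      rcases hxf j h with h2 | h2
      · exact h0 h2
      · exact h1 h2
    have hst0 : ∀ j : J, j ≠ j₀ → x • j ≠ j₀ := fun j h0 h =>
      h0 (MulAction.injective x (h.trans hxj.symm))
    have hstb : ∀ j : J, j ≠ b → x • j ≠ b := fun j h0 h =>
      h0 (MulAction.injective x (h.trans hxb.symm))
    have e0 := hst0 d hd0
    have eb := hstb d hdb
    have f0 := hst0 _ e0
    have fb := hstb _ eb
    have hn1 := hmv d hd0 hdb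
    have hn2 := hmv _ e0 eb
    have hn3 : x • x • d ≠ d := by
      intro h
      apply hmv _ f0 fb
      rw [hxxx, h]
    let D₁ : Finset J := {j₀, b, d, x • d, x • x • d}
    have hD₁ : ∀ j : J, j ∈ D₁ ↔ j = j₀ ∨ j = b ∨ j = d ∨ j = x • d ∨ j = x • x • d := by
      intro j
      simp [D₁]
    have hc1 : D₁.card = 5 := by
      show ({j₀, b, d, x • d, x • x • d} : Finset J).card = 5
      rw [Finset.card_insert_of_notMem, Finset.card_insert_of_notMem,
        Finset.card_insert_of_notMem, Finset.card_insert_of_notMem, Finset.card_singleton]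
      · rw [Finset.mem_singleton]
        exact fun h => hn2 h.symm
      · simp only [Finset.mem_insert, Finset.mem_singleton, not_or]
        exact ⟨fun h => hn1 h.symm, fun h => hn3 h.symm⟩
      · simp only [Finset.mem_insert, Finset.mem_singleton, not_or]
        exact ⟨fun h => hdb h.symm, fun h => eb h.symm, fun h => fb h.symm⟩
      · simp only [Finset.mem_insert, Finset.mem_singleton, not_or]
        exact ⟨fun h => hb h.symm, fun h => hd0 h.symm, fun h => e0 h.symm, fun h => f0 h.symm⟩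
    have hxD : ∀ j ∈ D₁, x • j ∈ D₁ := by
      intro j hj
      rw [hD₁] at hj ⊢
      rcases hj with rfl | rfl | rfl | rfl | rfl
      · exact Or.inl hxj
      · exact Or.inr (Or.inl hxb)
      · exact Or.inr (Or.inr (Or.inr (Or.inl rfl)))
      · exact Or.inr (Or.inr (Or.inr (Or.inr rfl)))
      · rw [hxxx]
        exact Or.inr (Or.inr (Or.inl rfl))
    have hE3 : (Finset.univ \ D₁).card = 3 := by
      rw [Finset.card_sdiff_of_subset (Finset.subset_univ _), Finset.card_univ,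
        ← Nat.card_eq_fintype_card, hJ, hc1]
    have hxE : ∀ e ∈ Finset.univ \ D₁, x • e ∈ Finset.univ \ D₁ := by
      intro e he
      rw [Finset.mem_sdiff] at he ⊢
      refine ⟨Finset.mem_univ _, fun h => he.2 ?_⟩
      rw [← hxxx e]
      exact hxD _ (hxD _ h)
    have hxn : ∀ e ∈ Finset.univ \ D₁, x • e ≠ e := by
      intro e he h
      rw [Finset.mem_sdiff, hD₁] at he
      apply he.2
      rcases hxf e h with h | h
      · exact Or.inl h
      · exact Or.inr (Or.inl h)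
    obtain ⟨p, hpE⟩ : (Finset.univ \ D₁).Nonempty := by
      rw [← Finset.card_pos, hE3]
      norm_num
    have h3d : 3 ∣ Nat.card Y := by
      rw [← orderOf_eq_prime hx3 hx1]
      exact orderOf_dvd_natCard x
    refine ⟨{j₀, b}, D₁, d, Finset.mem_insert_self _ _, hj₁, fun _ => hc0.ge, ?_, ?_, hd, ?_, ?_⟩
    · intro j hj
      rw [Finset.mem_insert, Finset.mem_singleton] at hj
      rw [hD₁]
      rcases hj with h | h
      · exact Or.inl h
      · exact Or.inr (Or.inl h)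
    · rw [hD₁]
      exact Or.inr (Or.inr (Or.inl rfl))
    · intro r hr hr5
      exact ⟨tl_gr hJ hf d5 d7 _ hc0.ge (by rw [hc0]; norm_num) r hr hr5,
        tl_gr hJ hf d5 d7 _ (by rw [hc1]; norm_num) (by rw [hc1]; norm_num) r hr hr5⟩
    · intro T₀ T₁ _ hT₁
      have hTE : ∀ t ∈ (T₁ : Subgroup Y), ∀ e ∈ Finset.univ \ D₁, t • e ∈ Finset.univ \ D₁ := by
        intro t ht e he
        rw [Finset.mem_sdiff] at he ⊢
        refine ⟨Finset.mem_univ _, fun h => he.2 ?_⟩
        have h1 := hT₁ t⁻¹ (Subgroup.inv_mem _ ht) _ h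
        rwa [inv_smul_smul] at h1
      have key : ∀ y ∈ (T₁ : Subgroup Y), y ^ 3 = 1 → y ≠ 1 → y = x ∨ y = x⁻¹ := by
        intro y hy hy3 hy1
        refine tl_cyc d3 x y hx3 p _ hE3 hpE hxE (hTE y hy) hxn ?_
        intro e he hye
        -- the other two points
        have h2 : ((Finset.univ \ D₁).erase e).card = 2 := by
          rw [Finset.card_erase_of_mem he, hE3]
        obtain ⟨f, g, hfg, hEfg⟩ := Finset.card_eq_two.1 h2
        have hm : ∀ j, j ∈ (Finset.univ \ D₁).erase e ↔ j = f ∨ j = g := by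
          intro j
          rw [hEfg, Finset.mem_insert, Finset.mem_singleton]
        have hyy : ∀ j, (j = f ∨ j = g) → (y • j = f ∨ y • j = g) := by
          intro j hj
          rw [← hm] at hj ⊢
          rw [Finset.mem_erase] at hj ⊢
          refine ⟨fun h => hj.1 (MulAction.injective y (h.trans hye.symm)), hTE y hy j hj.2⟩
        have h4 := th_odd hodd hy3 hfg (hyy f (Or.inl rfl)) (hyy g (Or.inr rfl))
        have hfe := Finset.ne_of_mem_erase ((hm f).2 (Or.inl rfl))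
        have hge := Finset.ne_of_mem_erase ((hm g).2 (Or.inr rfl))
        exact hy1 (d3 y e f g hfe.symm hge.symm hfg hye h4.1 h4.2)
      obtain ⟨⟨y, hyT⟩, hyo⟩ := exists_prime_orderOf_dvd_card' 3 (T₁.dvd_card_of_dvd_card h3d)
      have hyo' : orderOf y = 3 := by
        rw [← hyo, Subgroup.orderOf_mk]
      have hy3 : y ^ 3 = 1 := by
        rw [← hyo']
        exact pow_orderOf_eq_one y
      have hy1 : y ≠ 1 := by
        rintro rfl
        rw [orderOf_one] at hyo'
        omega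
      have hfx : ∀ y : Y, y = x ∨ y = x⁻¹ → ∀ j : J, y • j = j ↔ x • j = j := by
        rintro y (rfl | rfl) j
        · exact Iff.rfl
        · rw [inv_smul_eq_iff]
          exact eq_comm
      refine ⟨?_, y, hyT, ?_⟩
      · intro t ht j hj
        have h1 : x • j = j := by
          rw [Finset.mem_insert, Finset.mem_singleton] at hj
          rcases hj with rfl | rfl
          · exact hxj
          · exact hxb
        have h2 : y • j = j := (hfx y (key y hyT hy3 hy1) j).2 h1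
        have h4 := key (t * y * t⁻¹) ((T₁ : Subgroup Y).mul_mem ((T₁ : Subgroup Y).mul_mem ht hyT)
          ((T₁ : Subgroup Y).inv_mem ht)) (by rw [conj_pow, hy3, mul_one, mul_inv_cancel]) (by
            intro h
            apply hy1
            rwa [conj_eq_one_iff] at h)
        have h5 : x • (t • j) = t • j := by
          rw [← hfx _ h4, mul_smul, mul_smul, inv_smul_smul, h2]
        rw [Finset.mem_insert, Finset.mem_singleton]
        exact hxf _ h5
      · intro h
        exact hn1 ((hfx y (key y hyT hy3 hy1) d).1 h)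
-- END tl

-- BEGIN tm
omit [Finite J] in
private theorem tm_gr (r : ℕ) (hr : r.Prime) (Δ : Finset J)
    (h : Gr (MulAction.toPermHom Y J).range r Δ) : Gr Y r Δ := by
  intro R hR x hx j
  have hsur := (MulAction.toPermHom Y J).rangeRestrict_surjective
  have := Fact.mk hr
  refine h (R.mapSurjective hsur) ?_ ((MulAction.toPermHom Y J).rangeRestrict x) ?_ j
  · intro z hz i hi
    rw [Sylow.coe_mapSurjective] at hz
    obtain ⟨y, hy, rfl⟩ := Subgroup.mem_map.mp hz
    exact hR y hy i hi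
  · rw [Sylow.coe_mapSurjective]
    exact Subgroup.mem_map_of_mem _ hx

/-- (tm, size 3) PROOF. `p3_prim` and `base8f` for the image `Y'` of `Y` in the permutations of `J`. -/
theorem p3_pr [Nontrivial J] (hs : Group.IsSolvable Y) (hp : MulAction.IsPreprimitive Y J)
    (j₀ j₁ : J) : GA Y j₀ j₁ ∨ GB Y j₀ j₁ := by
  let φ : Y →* Equiv.Perm J := MulAction.toPermHom Y J
  have hsur := φ.rangeRestrict_surjective
  have hs' : Group.IsSolvable φ.range := by
    have := hs
    exact Group.isSolvable_of_surjective hsur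
  let f : J →ₑ[φ.rangeRestrict] J := ⟨id, fun y j => rfl⟩
  have hp' : MulAction.IsPreprimitive φ.range J :=
    MulAction.IsPreprimitive.of_surjective (f := f) Function.surjective_id
  have hf' : ∀ y : φ.range, (∀ j : J, y • j = j) → y = 1 := by
    intro y hy
    apply Subtype.ext
    apply Equiv.ext
    intro j
    exact hy j
  have h : GA φ.range j₀ j₁ ∨ GB φ.range j₀ j₁ := by
    by_cases h8 : Nat.card J = 8
    · exact base8f h8 hs' hf' hp' j₀ j₁
    · exact Or.inl (p3_prim h8 hs' hf' hp' j₀ j₁)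
  rcases h with ⟨Δ, h1, h2, h3, h4⟩ | ⟨D₀, D₁, d, g0, g1, g2, gs, gd, gd', gr, gt⟩
  · exact Or.inl ⟨Δ, h1, h2, h3, fun r hr hr3 => tm_gr r hr Δ (h4 r hr hr3)⟩
  · refine Or.inr ⟨D₀, D₁, d, g0, g1, g2, gs, gd, gd', fun r hr hr5 =>
      ⟨tm_gr r hr _ (gr r hr hr5).1, tm_gr r hr _ (gr r hr hr5).2⟩, ?_⟩
    intro T₀ T₁ h0 h1
    have := Fact.mk Nat.prime_three
    have hst : ∀ (T : Sylow 3 Y) (D : Finset J), (∀ x ∈ (T : Subgroup Y), ∀ j ∈ D, x • j ∈ D) →
        ∀ x ∈ ((T.mapSurjective hsur : Sylow 3 φ.range) : Subgroup φ.range), ∀ j ∈ D,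
          x • j ∈ D := by
      intro T D hT z hz i hi
      rw [Sylow.coe_mapSurjective] at hz
      obtain ⟨y, hy, rfl⟩ := Subgroup.mem_map.mp hz
      exact hT y hy i hi
    obtain ⟨q1, x, hx, hxd⟩ := gt (T₀.mapSurjective hsur) (T₁.mapSurjective hsur)
      (hst T₀ D₀ h0) (hst T₁ D₁ h1)
    rw [Sylow.coe_mapSurjective] at hx
    obtain ⟨y, hy, rfl⟩ := Subgroup.mem_map.mp hx
    refine ⟨?_, y, hy, hxd⟩
    intro z hz j hj
    exact q1 (φ.rangeRestrict z) (by
      rw [Sylow.coe_mapSurjective]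
      exact Subgroup.mem_map_of_mem _ hz) j hj
-- END tm

end

section
variable {Y J C : Type} [Group Y] [Finite Y] [Finite J] [MulAction Y J] [MulAction Y C]
  [Nontrivial C]

-- BEGIN tn
/-- (tn, size 3) The sets `Δ` over `T`. PROOF. See `pl3_step` in Nfv/Pl.lean. -/
theorem lift_r (htC : MulAction.IsPretransitive Y C) (π : J → C)
    (hπ : ∀ (y : Y) (j : J), π (y • j) = y • π j) (r : ℕ) (hr : r.Prime) (T : Finset C)
    (hT : Gr Y r T) (Δ : Finset J) (hΔ : ∀ j ∈ Δ, π j ∈ T) (hΔ' : ∀ c ∈ T, ∃ j ∈ Δ, π j = c)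
    (c₀ : C) (h0 : c₀ ∈ T) (D : Finset {j : J // π j = c₀}) (hD : ∀ j, j ∈ D ↔ (j : J) ∈ Δ)
    (hDr : @Gr (MulAction.stabilizer Y c₀) _ _ (pl3_act π hπ c₀) r D) : Gr Y r Δ := by
  classical
  intro R hR
  haveI : Fact r.Prime := ⟨hr⟩
  have h1 : ∀ x ∈ (R : Subgroup Y), ∀ c : C, x • c = c := by
    refine hT R ?_
    intro x hx c hc
    obtain ⟨j, hj, rfl⟩ := hΔ' c hc
    rw [← hπ]
    exact hΔ _ (hR x hx j hj)
  have hle : (R : Subgroup Y) ≤ MulAction.stabilizer Y c₀ := fun x hx =>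
    MulAction.mem_stabilizer_iff.mpr (h1 x hx c₀)
  have h4 : ∀ x ∈ (R : Subgroup Y), ∀ j : J, π j = c₀ → x • j = j := by
    intro x hx j hj
    letI := pl3_act π hπ c₀
    have h5 := hDr (R.subtype hle) (by
      intro z hz i hi
      have hz' : (z : Y) ∈ (R : Subgroup Y) := by
        rw [Sylow.coe_subtype, Subgroup.mem_subgroupOf] at hz
        exact hz
      rw [hD] at hi ⊢
      exact hR (z : Y) hz' (i : J) hi) ⟨x, hle hx⟩ (by
      rw [Sylow.coe_subtype, Subgroup.mem_subgroupOf]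
      exact hx) ⟨j, hj⟩
    exact congrArg Subtype.val h5
  -- the kernel on `C`
  let K : Subgroup Y := (MulAction.toPermHom Y C).ker
  have hK : ∀ y : Y, y ∈ K ↔ ∀ c : C, y • c = c := by
    intro y
    constructor
    · intro hy c
      have h6 : MulAction.toPermHom Y C y = 1 := hy
      have h7 := Equiv.congr_fun h6 c
      exact h7
    · intro hy
      show MulAction.toPermHom Y C y = 1
      ext c
      exact hy c
  have hRK : (R : Subgroup Y) ≤ K := fun x hx => (hK x).mpr (h1 x hx)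
  intro x hx j
  obtain ⟨y, hy⟩ := htC.exists_smul_eq c₀ (π j)
  have hRK' : ((y⁻¹ • R : Sylow r Y) : Subgroup Y) ≤ K := by
    intro z hz
    rw [Sylow.coe_subgroup_smul] at hz
    have hz' : y * z * y⁻¹ ∈ (R : Subgroup Y) := by
      rw [Subgroup.mem_pointwise_smul_iff_inv_smul_mem] at hz
      simpa [MulAut.conj_apply] using hz
    rw [hK]
    intro c
    have h8 := h1 _ hz' (y • c)
    rw [mul_smul, mul_smul, inv_smul_smul] at h8
    exact MulAction.injective y h8
  obtain ⟨κ, hκ⟩ := MulAction.exists_smul_eq K (R.subtype hRK) ((y⁻¹ • R).subtype hRK')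
  have h9 : y⁻¹ * x * y ∈ ((y⁻¹ • R : Sylow r Y) : Subgroup Y) := by
    rw [Sylow.coe_subgroup_smul, Subgroup.mem_pointwise_smul_iff_inv_smul_mem]
    have h10 : (MulAut.conj y⁻¹)⁻¹ • (y⁻¹ * x * y) = x := by
      rw [← map_inv, inv_inv, MulAut.smul_def, MulAut.conj_apply]
      group
    rw [h10]
    exact hx
  have h11 : (⟨y⁻¹ * x * y, hRK' h9⟩ : K) ∈
      ((κ • (R.subtype hRK) : Sylow r K) : Subgroup K) := by
    rw [hκ, Sylow.coe_subtype, Subgroup.mem_subgroupOf]
    exact h9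
  rw [Sylow.coe_subgroup_smul, Subgroup.mem_pointwise_smul_iff_inv_smul_mem,
    Sylow.coe_subtype, Subgroup.mem_subgroupOf] at h11
  have h12 : (κ : Y)⁻¹ * (y⁻¹ * x * y) * (κ : Y) ∈ (R : Subgroup Y) := by
    have h13 : (((MulAut.conj κ)⁻¹ • (⟨y⁻¹ * x * y, hRK' h9⟩ : K) : K) : Y) =
        (κ : Y)⁻¹ * (y⁻¹ * x * y) * (κ : Y) := by
      rw [← map_inv, MulAut.smul_def, MulAut.conj_apply]
      simp
    rwa [h13] at h11
  have hκc : ∀ c : C, (κ : Y)⁻¹ • c = c := by
    intro c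
    exact (hK _).mp (K.inv_mem κ.2) c
  have h14 : π ((κ : Y)⁻¹ • y⁻¹ • j) = c₀ := by
    rw [hπ, hκc, hπ, ← hy, inv_smul_smul]
  have h15 := h4 _ h12 _ h14
  rw [mul_smul, smul_inv_smul, mul_smul] at h15
  have h16 := MulAction.injective ((κ : Y)⁻¹) h15
  rw [mul_smul, mul_smul, smul_inv_smul] at h16
  exact MulAction.injective (y⁻¹) h16
-- END tn

-- BEGIN to
private theorem to_prime {r : ℕ} (hr : r.Prime) (h3 : 3 ≤ r) (hne : r ≠ 3) : 5 ≤ r := by
  have h4 : r ≠ 4 := by
    rintro rfl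
    revert hr
    norm_num
  omega

/-- (to) The Sylow `3`-subgroups act nontrivially on the set `C` of blocks. -/
theorem step_top (htC : MulAction.IsPretransitive Y C) (π : J → C)
    (hπ : ∀ (y : Y) (j : J), π (y • j) = y • π j) (hsur : Function.Surjective π) (j₀ j₁ : J)
    (h3 : ∀ R : Sylow 3 Y, ∃ x ∈ (R : Subgroup Y), ∃ c : C, x • c ≠ c)
    (hC : GA Y (π j₀) (π j₁) ∨ GB Y (π j₀) (π j₁))
    (hF : ∀ (c : C) (k₀ k₁ : {j : J // π j = c}), ∃ Δ : Finset {j : J // π j = c},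
      @Gd (MulAction.stabilizer Y c) _ _ (pl3_act π hπ c) k₀ k₁ Δ) :
    GA Y j₀ j₁ ∨ GB Y j₀ j₁ := by
  classical
  have : Fintype J := Fintype.ofFinite J
  have hk : ∀ (c : C) (i : J), ∃ k : {j : J // π j = c}, π i = c → (k : J) = i := by
    intro c i
    by_cases h : π i = c
    · exact ⟨⟨i, h⟩, fun _ => rfl⟩
    · obtain ⟨j, hj⟩ := hsur c
      exact ⟨⟨j, hj⟩, fun h' => absurd h' h⟩
  choose k hkk using hk
  have hD : ∀ c : C, ∃ Δ : Finset {j : J // π j = c},
      @Gd (MulAction.stabilizer Y c) _ _ (pl3_act π hπ c) (k c j₀) (k c j₁) Δ :=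
    fun c => hF c _ _
  choose D hDG using hD
  let E : Finset C → Finset J := fun T =>
    Finset.univ.filter fun j => π j ∈ T ∧ (⟨j, rfl⟩ : {i : J // π i = π j}) ∈ D (π j)
  have hmem : ∀ (T : Finset C) (c : C) (i : {j : J // π j = c}), i ∈ D c → c ∈ T →
      (i : J) ∈ E T := by
    rintro T c ⟨i, rfl⟩ hi hc
    exact Finset.mem_filter.mpr ⟨Finset.mem_univ _, hc, hi⟩
  have hmemT : ∀ (T : Finset C), ∀ j ∈ E T, π j ∈ T := fun T j hj => (Finset.mem_filter.mp hj).2.1
  have hmemD : ∀ (T : Finset C) (c : C) (i : {j : J // π j = c}), (i : J) ∈ E T → i ∈ D c := by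
    rintro T c ⟨i, rfl⟩ hi
    exact (Finset.mem_filter.mp hi).2.2
  have hsurE : ∀ (T : Finset C), ∀ c ∈ T, ∃ j ∈ E T, π j = c := fun T c hc =>
    ⟨_, hmem T c (k c j₀) (hDG c).1 hc, (k c j₀).2⟩
  have hstT : ∀ (T : Finset C) (R : Sylow 3 Y), (∀ x ∈ (R : Subgroup Y), ∀ j ∈ E T, x • j ∈ E T) →
      ∀ x ∈ (R : Subgroup Y), ∀ c ∈ T, x • c ∈ T := by
    intro T R hR x hx c hc
    obtain ⟨j, hj, rfl⟩ := hsurE T c hc
    rw [← hπ]
    exact hmemT T _ (hR x hx j hj)
  have hlift : ∀ (T : Finset C) (r : ℕ), π j₀ ∈ T → r.Prime → 5 ≤ r → Gr Y r T → Gr Y r (E T) := by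
    intro T r hT0 hr hr5 hT
    refine lift_r htC π hπ r hr T hT (E T) (hmemT T) (hsurE T) (π j₀) hT0 (D (π j₀)) ?_ ?_
    · intro j
      exact ⟨fun hj => hmem T _ j hj hT0, fun hj => hmemD T _ j hj⟩
    · exact fun R hR => (hDG (π j₀)).2.2.2 r hr hr5 R hR
  have hj₀ : ∀ T : Finset C, π j₀ ∈ T → j₀ ∈ E T := by
    intro T hT
    have h1 := hmem T (π j₀) (k (π j₀) j₀) (hDG (π j₀)).1 hT
    rwa [hkk (π j₀) j₀ rfl] at h1
  have hj₁ : ∀ T : Finset C, π j₁ ∈ T → j₁ ∈ E T := by
    intro T hT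
    have h1 := hmem T (π j₁) (k (π j₁) j₁) (hDG (π j₁)).2.1 hT
    rwa [hkk (π j₁) j₁ rfl] at h1
  have hcard : ∀ T : Finset C, 2 ≤ T.card → 2 ≤ (E T).card := by
    intro T hT
    refine le_trans hT ?_
    have h1 : T ⊆ (E T).image π := by
      intro c hc
      obtain ⟨j, hj, hjc⟩ := hsurE T c hc
      exact Finset.mem_image.mpr ⟨j, hj, hjc⟩
    exact le_trans (Finset.card_le_card h1) Finset.card_image_le
  rcases hC with ⟨T, hT0, hT1, hT2, hT3⟩ | ⟨D₀, D₁, d, g0, g1, g2, gs, gd, gd', gr, gt⟩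
  · refine Or.inl ⟨E T, hj₀ T hT0, hj₁ T hT1, fun _ => hcard T (hT2 inferInstance), ?_⟩
    intro r hr hr3
    by_cases hr' : r = 3
    · subst hr'
      intro R hR
      obtain ⟨x, hx, c, hc⟩ := h3 R
      exact absurd (hT3 3 hr hr3 R (hstT T R hR) x hx c) hc
    · exact hlift T r hT0 hr (to_prime hr hr3 hr') (hT3 r hr hr3)
  · have hEE : ∀ j ∈ E D₁, π j ∈ D₀ → j ∈ E D₀ := fun j hj hj0 =>
      hmem D₀ (π j) ⟨j, rfl⟩ (hmemD D₁ (π j) ⟨j, rfl⟩ hj) hj0
    obtain ⟨j, hj, hjd⟩ := hsurE D₁ d gd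
    refine Or.inr ⟨E D₀, E D₁, j, hj₀ D₀ g0, hj₁ D₀ g1, fun _ => hcard D₀ (g2 inferInstance),
      ?_, hj, ?_, ?_, ?_⟩
    · intro i hi
      exact hmem D₁ (π i) ⟨i, rfl⟩ (hmemD D₀ (π i) ⟨i, rfl⟩ hi) (gs (hmemT D₀ i hi))
    · intro hj0
      apply gd'
      rw [← hjd]
      exact hmemT D₀ j hj0
    · intro r hr hr5
      exact ⟨hlift D₀ r g0 hr hr5 (gr r hr hr5).1, hlift D₁ r (gs g0) hr hr5 (gr r hr hr5).2⟩
    · intro T₀ T₁ h0 h1
      obtain ⟨q1, x, hx, hxd⟩ := gt T₀ T₁ (hstT D₀ T₀ h0) (hstT D₁ T₁ h1)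
      refine ⟨?_, x, hx, ?_⟩
      · intro y hy i hi
        have hi1 : i ∈ E D₁ := hmem D₁ (π i) ⟨i, rfl⟩ (hmemD D₀ (π i) ⟨i, rfl⟩ hi)
          (gs (hmemT D₀ i hi))
        refine hEE _ (h1 y hy i hi1) ?_
        rw [hπ]
        exact q1 y hy _ (hmemT D₀ i hi)
      · intro hxj
        apply hxd
        rw [← hjd, ← hπ, hxj]
-- END to

-- BEGIN tp
/-- (tp) The Sylow `3`-subgroups act trivially on the set `C` of blocks. -/
theorem step_bot (htC : MulAction.IsPretransitive Y C) (π : J → C)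
    (hπ : ∀ (y : Y) (j : J), π (y • j) = y • π j) (hsur : Function.Surjective π) (j₀ j₁ : J)
    (h3 : ∀ R : Sylow 3 Y, ∀ x ∈ (R : Subgroup Y), ∀ c : C, x • c = c)
    (hC : ∃ T : Finset C, Gd Y (π j₀) (π j₁) T)
    (hF : ∀ (c : C) (k₀ k₁ : {j : J // π j = c}), ∃ Δ : Finset {j : J // π j = c},
      @Gd (MulAction.stabilizer Y c) _ _ (pl3_act π hπ c) k₀ k₁ Δ)
    (hF0 : ∀ k₀ k₁ : {j : J // π j = π j₀},
      @GA (MulAction.stabilizer Y (π j₀)) _ _ (pl3_act π hπ (π j₀)) k₀ k₁ ∨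
      @GB (MulAction.stabilizer Y (π j₀)) _ _ (pl3_act π hπ (π j₀)) k₀ k₁) :
    GA Y j₀ j₁ ∨ GB Y j₀ j₁ := by
  classical
  have : Fintype J := Fintype.ofFinite J
  have hk : ∀ (c : C) (i : J), ∃ k : {j : J // π j = c}, π i = c → (k : J) = i := by
    intro c i
    by_cases h : π i = c
    · exact ⟨⟨i, h⟩, fun _ => rfl⟩
    · obtain ⟨j, hj⟩ := hsur c
      exact ⟨⟨j, hj⟩, fun h' => absurd h' h⟩
  choose k hkk using hk
  have hD : ∀ c : C, ∃ Δ : Finset {j : J // π j = c},
      @Gd (MulAction.stabilizer Y c) _ _ (pl3_act π hπ c) (k c j₀) (k c j₁) Δ :=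
    fun c => hF c _ _
  choose D hDG using hD
  obtain ⟨T, hT0, hT1, hT2, hT3⟩ := hC
  let E : Finset {j : J // π j = π j₀} → Finset J := fun D₀ =>
    Finset.univ.filter fun j => π j ∈ T ∧
      ((∀ h : π j = π j₀, (⟨j, h⟩ : {j : J // π j = π j₀}) ∈ D₀) ∧
        (π j ≠ π j₀ → (⟨j, rfl⟩ : {i : J // π i = π j}) ∈ D (π j)))
  have hE : ∀ (D₀ : Finset {j : J // π j = π j₀}) (j : J), j ∈ E D₀ ↔ π j ∈ T ∧
      ((∀ h : π j = π j₀, (⟨j, h⟩ : {j : J // π j = π j₀}) ∈ D₀) ∧
        (π j ≠ π j₀ → (⟨j, rfl⟩ : {i : J // π i = π j}) ∈ D (π j))) := by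
    intro D₀ j
    simp [E]
  have hE0 : ∀ (D₀ : Finset {j : J // π j = π j₀}) (j : {j : J // π j = π j₀}),
      j ∈ D₀ ↔ (j : J) ∈ E D₀ := by
    intro D₀ j
    rw [hE]
    constructor
    · intro hj
      refine ⟨by rw [j.2]; exact hT0, fun _ => hj, fun h => absurd j.2 h⟩
    · intro hj
      exact hj.2.1 j.2
  have hsurE : ∀ (D₀ : Finset {j : J // π j = π j₀}), (⟨j₀, rfl⟩ : {j : J // π j = π j₀}) ∈ D₀ →
      ∀ c ∈ T, ∃ j ∈ E D₀, π j = c := by
    intro D₀ hD₀ c hc
    by_cases h : c = π j₀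
    · exact ⟨j₀, (hE0 D₀ ⟨j₀, rfl⟩).1 hD₀, h.symm⟩
    · refine ⟨(k c j₀ : J), ?_, (k c j₀).2⟩
      rw [hE]
      have h1 := (hDG c).1
      have h2 : π (k c j₀ : J) = c := (k c j₀).2
      refine ⟨by rw [h2]; exact hc, fun h' => absurd (h2.symm.trans h') h, fun _ => ?_⟩
      have key : ∀ (c : C) (z : {j : J // π j = c}), z ∈ D c →
          (⟨(z : J), rfl⟩ : {i : J // π i = π (z : J)}) ∈ D (π (z : J)) := by
        rintro c ⟨z, rfl⟩ hz
        exact hz
      exact key _ _ h1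
  have hlift : ∀ (D₀ : Finset {j : J // π j = π j₀}) (r : ℕ),
      (⟨j₀, rfl⟩ : {j : J // π j = π j₀}) ∈ D₀ → r.Prime → 3 ≤ r →
      @Gr (MulAction.stabilizer Y (π j₀)) _ _ (pl3_act π hπ (π j₀)) r D₀ → Gr Y r (E D₀) := by
    intro D₀ r hD₀ hr hr3 hr'
    have hT : Gr Y r T := by
      by_cases h : r = 3
      · subst h
        intro R _ x hx c
        exact h3 R x hx c
      · have h4 : r ≠ 4 := by
          rintro rfl
          revert hr
          norm_num
        exact fun R hR => hT3 r hr (by omega) R hR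
    exact lift_r htC π hπ r hr T hT (E D₀) (fun j hj => ((hE D₀ j).1 hj).1) (hsurE D₀ hD₀) (π j₀)
      hT0 D₀ (hE0 D₀) hr'
  have hk₁ : ∃ k₁ : {j : J // π j = π j₀}, π j₁ = π j₀ → (k₁ : J) = j₁ := by
    by_cases h : π j₁ = π j₀
    · exact ⟨⟨j₁, h⟩, fun _ => rfl⟩
    · exact ⟨⟨j₀, rfl⟩, fun h' => absurd h' h⟩
  obtain ⟨k₁, hk₁⟩ := hk₁
  have hj₁ : ∀ D₀ : Finset {j : J // π j = π j₀}, k₁ ∈ D₀ → j₁ ∈ E D₀ := by
    intro D₀ g1
    by_cases h : π j₁ = π j₀
    · have h1 := (hE0 D₀ k₁).1 g1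
      rwa [hk₁ h] at h1
    · rw [hE]
      refine ⟨hT1, fun h' => absurd h' h, fun _ => ?_⟩
      have h1 := (hDG (π j₁)).2.1
      have h2 : k (π j₁) j₁ = ⟨j₁, rfl⟩ := Subtype.ext (hkk (π j₁) j₁ rfl)
      rwa [h2] at h1
  have hcard : ∀ D₀ : Finset {j : J // π j = π j₀},
      (⟨j₀, rfl⟩ : {j : J // π j = π j₀}) ∈ D₀ → 2 ≤ (E D₀).card := by
    intro D₀ g0
    refine le_trans (hT2 inferInstance) ?_
    have h1 : T ⊆ (E D₀).image π := by
      intro c hc
      obtain ⟨j, hj, hjc⟩ := hsurE D₀ g0 c hc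
      exact Finset.mem_image.mpr ⟨j, hj, hjc⟩
    exact le_trans (Finset.card_le_card h1) Finset.card_image_le
  rcases hF0 ⟨j₀, rfl⟩ k₁ with ⟨D₀, g0, g1, -, g3⟩ | ⟨D₀, D₁, d, g0, g1, -, gs, gd, gd', gr, gt⟩
  · exact Or.inl ⟨E D₀, (hE0 D₀ ⟨j₀, rfl⟩).1 g0, hj₁ D₀ g1, fun _ => hcard D₀ g0,
      fun r hr hr3 => hlift D₀ r g0 hr hr3 (fun R hR => g3 r hr hr3 R hR)⟩
  · have hle : ∀ R : Sylow 3 Y, (R : Subgroup Y) ≤ MulAction.stabilizer Y (π j₀) :=
      fun R x hx => MulAction.mem_stabilizer_iff.mpr (h3 R x hx _)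
    have hst : ∀ (D' : Finset {j : J // π j = π j₀}) (R : Sylow 3 Y),
        (∀ x ∈ (R : Subgroup Y), ∀ j ∈ E D', x • j ∈ E D') →
        ∀ z ∈ ((R.subtype (hle R) : Sylow 3 (MulAction.stabilizer Y (π j₀))) :
          Subgroup (MulAction.stabilizer Y (π j₀))),
          ∀ i ∈ D', (pl3_act π hπ (π j₀)).toSMul.smul z i ∈ D' := by
      intro D' R hR z hz i hi
      have hz' : (z : Y) ∈ (R : Subgroup Y) := by
        rw [Sylow.coe_subtype, Subgroup.mem_subgroupOf] at hz
        exact hz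
      rw [hE0] at hi ⊢
      exact hR (z : Y) hz' (i : J) hi
    refine Or.inr ⟨E D₀, E D₁, (d : J), (hE0 D₀ ⟨j₀, rfl⟩).1 g0, hj₁ D₀ g1,
      fun _ => hcard D₀ g0, ?_, (hE0 D₁ d).1 gd, fun h => gd' ((hE0 D₀ d).2 h), ?_, ?_⟩
    · intro j hj
      rw [hE] at hj ⊢
      exact ⟨hj.1, fun h => gs (hj.2.1 h), hj.2.2⟩
    · intro r hr hr5
      exact ⟨hlift D₀ r g0 hr (by omega) (fun R hR => (gr r hr hr5).1 R hR),
        hlift D₁ r (gs g0) hr (by omega) (fun R hR => (gr r hr hr5).2 R hR)⟩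
    · intro T₀ T₁ h0 h1
      obtain ⟨q1, x, hx, hxd⟩ := gt (T₀.subtype (hle T₀)) (T₁.subtype (hle T₁))
        (hst D₀ T₀ h0) (hst D₁ T₁ h1)
      refine ⟨?_, (x : Y), ?_, ?_⟩
      · intro y hy j hj
        have hj1 : j ∈ E D₁ := by
          rw [hE] at hj ⊢
          exact ⟨hj.1, fun h => gs (hj.2.1 h), hj.2.2⟩
        have h5 := h1 y hy j hj1
        rw [hE] at h5 ⊢
        refine ⟨h5.1, fun h => ?_, h5.2.2⟩
        have hyj : π j = π j₀ := by
          rw [hπ, h3 _ y hy] at h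
          exact h
        exact q1 ⟨y, hle _ hy⟩ (by
          rw [Sylow.coe_subtype, Subgroup.mem_subgroupOf]
          exact hy) ⟨j, hyj⟩ (((hE D₀ j).1 hj).2.1 hyj)
      · rw [Sylow.coe_subtype, Subgroup.mem_subgroupOf] at hx
        exact hx
      · intro hxj
        exact hxd (Subtype.ext hxj)
-- END tp

end

-- BEGIN tq
/-- (tq, size 3) PROOF. As `pl3_all` in Nfv/Pl.lean: induction on `card J`; `p3_pr` in the primitive case; `J` trivial: `{j₀}`. Otherwise `pl3_sys`; the Sylow `3`-subgroups are all trivial on `C` (`step_bot`) or none of them is (`step_top`; they are conjugate). `hF` and `hC` of `step_bot` from `pl`. -/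
theorem p3_all (n : ℕ) : ∀ (Y J : Type) (_ : Group Y) (_ : Finite Y) (_ : Finite J)
    (_ : MulAction Y J), Nat.card J ≤ n → Group.IsSolvable Y → MulAction.IsPretransitive Y J →
    ∀ j₀ j₁ : J, GA Y j₀ j₁ ∨ GB Y j₀ j₁ := by
  induction n with
  | zero =>
    intro Y J _ _ _ _ hn hs ht j₀ j₁
    haveI : Nonempty J := ⟨j₀⟩
    have := Nat.card_pos (α := J)
    omega
  | succ n ih =>
    intro Y J _ _ _ _ hn hs ht j₀ j₁
    rcases subsingleton_or_nontrivial J with hJ | hJ
    · left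
      refine ⟨{j₀}, Finset.mem_singleton_self _, ?_, ?_, ?_⟩
      · rw [Subsingleton.elim j₁ j₀]
        exact Finset.mem_singleton_self _
      · intro h
        exact absurd hJ (not_subsingleton_iff_nontrivial.mpr h)
      · intro r _ _ R _ x _ j
        exact Subsingleton.elim _ _
    · by_cases hp : MulAction.IsPreprimitive Y J
      · exact p3_pr hs hp j₀ j₁
      · obtain ⟨C, _, _, _, π, htC, hπ, hsur, hcC, hcF⟩ := pl3_sys ht hp
        haveI := hs
        have hF' : ∀ c : C, @MulAction.IsPretransitive (MulAction.stabilizer Y c)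
            {j : J // π j = c} (pl3_act π hπ c).toSMul := by
          intro c
          letI := pl3_act π hπ c
          constructor
          intro a b
          obtain ⟨y, hy⟩ := ht.exists_smul_eq (a : J) (b : J)
          refine ⟨⟨y, ?_⟩, Subtype.ext hy⟩
          rw [MulAction.mem_stabilizer_iff]
          calc y • c = y • π (a : J) := by rw [a.2]
            _ = π (y • (a : J)) := (hπ _ _).symm
            _ = c := by rw [hy, b.2]
        have hF : ∀ (c : C) (k₀ k₁ : {j : J // π j = c}), ∃ Δ : Finset {j : J // π j = c},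
            @Gd (MulAction.stabilizer Y c) _ _ (pl3_act π hπ c) k₀ k₁ Δ := by
          intro c k₀ k₁
          letI := pl3_act π hπ c
          exact pl (Y := MulAction.stabilizer Y c) inferInstance (hF' c) k₀ k₁
        by_cases h3 : ∃ R : Sylow 3 Y, ∀ x ∈ (R : Subgroup Y), ∀ c : C, x • c = c
        · obtain ⟨R, hR⟩ := h3
          haveI : Fact (Nat.Prime 3) := ⟨Nat.prime_three⟩
          have h3' : ∀ R : Sylow 3 Y, ∀ x ∈ (R : Subgroup Y), ∀ c : C, x • c = c := by
            intro R' x hx c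
            obtain ⟨y, rfl⟩ := MulAction.exists_smul_eq Y R R'
            rw [Sylow.coe_subgroup_smul, Subgroup.mem_pointwise_smul_iff_inv_smul_mem] at hx
            have hx' : y⁻¹ * x * y ∈ (R : Subgroup Y) := by
              simpa [MulAut.conj_apply] using hx
            have h4 := hR _ hx' (y⁻¹ • c)
            rw [mul_smul, smul_inv_smul, mul_smul] at h4
            exact MulAction.injective (y⁻¹) h4
          refine step_bot htC π hπ hsur j₀ j₁ h3' (pl hs htC _ _) hF ?_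
          intro k₀ k₁
          have hcc := hcF (π j₀)
          exact ih (MulAction.stabilizer Y (π j₀)) {j : J // π j = π j₀} inferInstance
            inferInstance inferInstance (pl3_act π hπ (π j₀)) (by omega) inferInstance
            (hF' _) k₀ k₁
        · push Not at h3
          refine step_top htC π hπ hsur j₀ j₁ h3 ?_ hF
          exact ih Y C inferInstance inferInstance inferInstance inferInstance
            (by omega) hs htC (π j₀) (π j₁)
-- END tq

/-- The permutation lemma for all odd primes. -/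
theorem p3 {Y J : Type} [Group Y] [Finite Y] [Finite J] [MulAction Y J] (hs : Group.IsSolvable Y)
    (ht : MulAction.IsPretransitive Y J) (j₀ j₁ : J) : GA Y j₀ j₁ ∨ GB Y j₀ j₁ :=
  p3_all (Nat.card J) Y J inferInstance inferInstance inferInstance inferInstance le_rfl hs ht
    j₀ j₁

end Pool.Agent.Nth
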