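import Pool.Agent.Nfv.Gn
import Pool.Agent.Nth.P3

/-! Generic vectors of irreducible modules for all odd primes. -/

set_option autoImplicit false

namespace Pool.Agent.Nth

open Pool.Agent.Nan Pool.Agent.Nas Pool.Agent.Nfv

section
variable {p : ℕ} [Fact p.Prime] {H X J : Type} [Group H] [Finite H] [AddCommGroup X]
  [Module (ZMod p) X] [Finite X] {ρ : Representation (ZMod p) H X}
  {W : J → Submodule (ZMod p) X} {UU : J → Subgroup H}

/-- The vectors `v j` are generic for the prime `r` in their blocks. -/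
def Vg (ρ : Representation (ZMod p) H X) (W : J → Submodule (ZMod p) X) (UU : J → Subgroup H)
    (r : ℕ) (v : J → X) : Prop :=
  ∀ j, (¬ ∀ x ∈ Nm ρ (W j), ∀ y ∈ Nm ρ (W j), x * y * x⁻¹ * y⁻¹ ∈ UU j) →
    (∀ u ∈ UU j, Tv ρ (W j) (u ^ r) → Tv ρ (W j) u) →
      ∀ R : Sylow r H, (∀ x ∈ (R : Subgroup H), x ∈ Nm ρ (W j)) → ∀ g ∈ Nm ρ (W j),
        (∀ x ∈ (R : Subgroup H), ρ (g * x * g⁻¹) (v j) = v j) →
          ∀ x ∈ (R : Subgroup H), Tv ρ (W j) x

/-- The primes for which the sum of the vectors is generic. -/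
def Gp (ρ : Representation (ZMod p) H X) (W : J → Submodule (ZMod p) X) (UU : J → Subgroup H)
    (r : ℕ) (v : J → X) : Prop :=
  (Vg ρ W UU r v ∧ ¬ Bt ρ W UU r) ∨
    (¬ ∀ R : Sylow r H, ∀ x ∈ (R : Subgroup H), ∀ j, (W j).map (ρ x) = W j) ∨ ¬ Ufr ρ W UU r

theorem vg5 (h : BS ρ W UU) (hs : Group.IsSolvable H) :
    ∃ v : J → X, (∀ j, v j ∈ W j ∧ v j ≠ 0) ∧ ∀ r : ℕ, r.Prime → 5 ≤ r → Vg ρ W UU r v := by
  have hblk := fun j => gn_blk h hs j
  choose v hvW hv0 hvB using hblk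
  exact ⟨v, fun j => ⟨hvW j, hv0 j⟩, fun r hr hr5 j hn hu => hvB j hn r hr hr5 hu⟩

section
variable [MulAction H J]

/-- The components of a sum which is fixed by `x`. -/
theorem comp3 [Finite J] (hind : iSupIndep W) (hW : ∀ (g : H) (j : J), (W j).map (ρ g) = W (g • j))
    (t : J → X) (htW : ∀ j, t j ∈ W j) (ht0 : ∀ j, t j ≠ 0) (Δ : Finset J) (x : H)
    (hx : ρ x (∑ j ∈ Δ, t j) = ∑ j ∈ Δ, t j) :
    ∀ j ∈ Δ, x • j ∈ Δ ∧ ρ x (t j) = t (x • j) := by
  classical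
  have : Fintype J := Fintype.ofFinite J
  have hinv : ∀ (g : H) (w : X), ρ g⁻¹ (ρ g w) = w := by
    intro g w
    rw [← Module.End.mul_apply, ← map_mul, inv_mul_cancel, map_one, Module.End.one_apply]
  have hmem : ∀ (g : H) (j : J) (w : X), w ∈ W j → ρ g w ∈ W (g • j) := by
    intro g j w hw
    rw [← hW]
    exact Submodule.mem_map_of_mem hw
  have h1 : ∑ i : J, (if x⁻¹ • i ∈ Δ then ρ x (t (x⁻¹ • i)) else 0) =
      ∑ i : J, (if i ∈ Δ then t i else 0) := by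
    have h2 : ∑ i : J, (if x⁻¹ • i ∈ Δ then ρ x (t (x⁻¹ • i)) else 0) =
        ∑ i : J, (if i ∈ Δ then ρ x (t i) else 0) :=
      Fintype.sum_equiv (MulAction.toPerm x⁻¹) _ _ (fun i => rfl)
    rw [h2, ← Finset.sum_filter, ← Finset.sum_filter]
    have h3 : (Finset.univ.filter fun i => i ∈ Δ) = Δ := by
      ext i
      simp
    rw [h3, ← map_sum]
    exact hx
  have h4 := ((iSupIndep_iff_finsetSum_eq_imp_eq W).1 hind) Finset.univ
    (fun i => if x⁻¹ • i ∈ Δ then ρ x (t (x⁻¹ • i)) else 0) (fun i => if i ∈ Δ then t i else 0)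
    (fun i _ => by
      refine ⟨?_, ?_⟩
      · split_ifs
        · have h5 := hmem x (x⁻¹ • i) _ (htW (x⁻¹ • i))
          rwa [smul_inv_smul] at h5
        · exact zero_mem _
      · split_ifs
        · exact htW i
        · exact zero_mem _) h1
  intro j hj
  have h5 := h4 (x • j) (Finset.mem_univ _)
  simp only [inv_smul_smul, hj, if_true] at h5
  have h6 : x • j ∈ Δ := by
    by_contra h6
    rw [if_neg h6] at h5
    apply ht0 j
    have h7 := hinv x (t j)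
    rw [h5, map_zero] at h7
    exact h7.symm
  refine ⟨h6, ?_⟩
  rwa [if_pos h6] at h5

/-- A Sylow subgroup which fixes the sum and acts trivially on the blocks. -/
theorem gp_main [Finite J] (h : BS ρ W UU)
    (hW : ∀ (g : H) (j : J), (W j).map (ρ g) = W (g • j)) (r : ℕ) (hr : r.Prime) (v : J → X)
    (hv : ∀ j, v j ∈ W j ∧ v j ≠ 0) (hg : Gp ρ W UU r v) (k : J → H)
    (hk : ∀ j, k j ∈ Nm ρ (W j)) (Δ : Finset J) (hΔ : Gr H r Δ) (j₀ : J) (hΔ0 : j₀ ∈ Δ)
    (R : Sylow r H) (hfix : ∀ x ∈ (R : Subgroup H),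
      ρ x (∑ j ∈ Δ, ρ (k j) (v j)) = ∑ j ∈ Δ, ρ (k j) (v j)) : False := by
  classical
  haveI : Fact r.Prime := ⟨hr⟩
  have hWinj : Function.Injective W := h.ind.injective h.ne
  have hinv : ∀ (g : H) (w : X), ρ g⁻¹ (ρ g w) = w := by
    intro g w
    rw [← Module.End.mul_apply, ← map_mul, inv_mul_cancel, map_one, Module.End.one_apply]
  have hinv' : ∀ (g : H) (w : X), ρ g (ρ g⁻¹ w) = w := by
    intro g w
    rw [← Module.End.mul_apply, ← map_mul, mul_inv_cancel, map_one, Module.End.one_apply]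
  have hmem : ∀ (g : H) (j : J) (w : X), w ∈ W j → ρ g w ∈ W (g • j) := by
    intro g j w hw
    rw [← hW]
    exact Submodule.mem_map_of_mem hw
  have hNm : ∀ (g : H) (j : J), g ∈ Nm ρ (W j) ↔ g • j = j := by
    intro g j
    rw [mem_Nm, hW]
    exact hWinj.eq_iff
  set t : J → X := fun j => ρ (k j) (v j) with ht
  have htW : ∀ j, t j ∈ W j := by
    intro j
    have h1 := hmem (k j) j (v j) (hv j).1
    rwa [(hNm (k j) j).1 (hk j)] at h1
  have ht0 : ∀ j, t j ≠ 0 := by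
    intro j h1
    apply (hv j).2
    have h2 := hinv (k j) (v j)
    change ρ (k j) (v j) = 0 at h1
    rw [h1, map_zero] at h2
    exact h2.symm
  have hcomp := fun x (hx : ρ x (∑ j ∈ Δ, t j) = ∑ j ∈ Δ, t j) =>
    comp3 h.ind hW t htW ht0 Δ x hx
  have hstab : ∀ x ∈ (R : Subgroup H), ∀ j ∈ Δ, x • j ∈ Δ := fun x hx j hj =>
    (hcomp x (hfix x hx) j hj).1
  have hRJ := hΔ R hstab
  have hfixj : ∀ x ∈ (R : Subgroup H), ∀ j ∈ Δ, ρ x (t j) = t j := fun x hx j hj => by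
    have h1 := (hcomp x (hfix x hx) j hj).2
    rwa [hRJ x hx j] at h1
  have hRN : ∀ x ∈ (R : Subgroup H), ∀ j, x ∈ Nm ρ (W j) := fun x hx j => (hNm x j).2 (hRJ x hx j)
  -- conjugates of `R`
  have hconj : ∀ (R' : Sylow r H), ∃ g : H, ∀ x ∈ (R' : Subgroup H), g⁻¹ * x * g ∈ (R : Subgroup H) := by
    intro R'
    obtain ⟨g, hg⟩ := MulAction.exists_smul_eq H R R'
    refine ⟨g, fun x hx => ?_⟩
    rw [← hg, Sylow.coe_subgroup_smul, Subgroup.mem_pointwise_smul_iff_inv_smul_mem, ← map_inv,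
      MulAut.smul_def, MulAut.conj_apply, inv_inv] at hx
    exact hx
  have hblk : ∀ R' : Sylow r H, ∀ x ∈ (R' : Subgroup H), ∀ j, (W j).map (ρ x) = W j := by
    intro R' x hx j
    obtain ⟨g, hg⟩ := hconj R'
    have h2 := hRJ _ (hg x hx) (g⁻¹ • j)
    rw [hW]
    congr 1
    rw [mul_smul, mul_smul, smul_inv_smul] at h2
    have h3 := congrArg (fun i => g • i) h2
    simpa using h3
  by_cases hU : Ufr ρ W UU r
  · rcases hg with ⟨hvg, hB⟩ | hg | hg
    · have hR1 : ¬ ∀ x ∈ (R : Subgroup H), ∀ w, ρ x w = w := by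
        intro h1
        apply hB
        left
        intro R' x hx w
        obtain ⟨g, hg⟩ := hconj R'
        have h2 := h1 _ (hg x hx) (ρ g⁻¹ w)
        have h3 : ρ (g⁻¹ * x * g) (ρ g⁻¹ w) = ρ g⁻¹ (ρ x w) := by
          rw [map_mul, map_mul, Module.End.mul_apply, Module.End.mul_apply, hinv']
        rw [h3] at h2
        have h4 := congrArg (ρ g) h2
        rwa [hinv', hinv'] at h4
      have hR2 : ¬ ∀ x ∈ (R : Subgroup H), Tv ρ (W j₀) x := fun h1 =>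
        hR1 (syl_all h r hr R hRN j₀ h1)
      -- the stabilizers are not abelian modulo `UU`
      have hA : ¬ Abq ρ W UU := fun h1 => hB (Or.inr ⟨hblk, h1, hU⟩)
      unfold Abq at hA
      push Not at hA
      obtain ⟨j', x, hx, y, hy, hxy⟩ := hA
      obtain ⟨g, hg⟩ := h.tra j' j₀
      have hgj : g • j' = j₀ := hWinj (by rw [← hW, hg])
      have hgj' : g⁻¹ • j₀ = j' := by rw [← hgj, inv_smul_smul]
      have hcj : ∀ z ∈ Nm ρ (W j'), g * z * g⁻¹ ∈ Nm ρ (W j₀) := by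
        intro z hz
        rw [hNm] at hz ⊢
        rw [mul_smul, mul_smul, hgj', hz, hgj]
      have hn : ¬ ∀ x ∈ Nm ρ (W j₀), ∀ y ∈ Nm ρ (W j₀), x * y * x⁻¹ * y⁻¹ ∈ UU j₀ := by
        intro h1
        apply hxy
        have h2 := h1 _ (hcj x hx) _ (hcj y hy)
        have h3 := h.uCj g⁻¹ j₀ j' (by rw [hW, hgj']) _ h2
        have h4 : g⁻¹ * (g * x * g⁻¹ * (g * y * g⁻¹) * (g * x * g⁻¹)⁻¹ * (g * y * g⁻¹)⁻¹) * g⁻¹⁻¹ =
            x * y * x⁻¹ * y⁻¹ := by group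
        rwa [h4] at h3
      refine hR2 (hvg j₀ hn (hU j₀) R (fun x hx => hRN x hx j₀) (k j₀)⁻¹
        (inv_mem (hk j₀)) ?_)
      intro x hx
      have h1 := hfixj x hx j₀ hΔ0
      have h2 : ρ ((k j₀)⁻¹ * x * (k j₀)⁻¹⁻¹) (v j₀) = ρ (k j₀)⁻¹ (ρ x (t j₀)) := by
        rw [inv_inv, map_mul, map_mul, Module.End.mul_apply, Module.End.mul_apply]
      rw [h2, h1]
      exact hinv _ _
    · exact hg hblk
    · exact hg hU
  · -- an element of order `r` in the linear part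
    unfold Ufr at hU
    push Not at hU
    obtain ⟨j', u, hu, hur, hu1⟩ := hU
    obtain ⟨g, hg⟩ := h.tra j' j₀
    have hgj : g • j' = j₀ := hWinj (by rw [← hW, hg])
    have hgj' : g⁻¹ • j₀ = j' := by rw [← hgj, inv_smul_smul]
    have hu2 := h.uCj g j' j₀ hg u hu
    have h1 : Tv ρ (W j₀) ((g * u * g⁻¹) ^ r) := by
      intro w hw
      have h2 : ρ g⁻¹ w ∈ W j' := by
        have := hmem g⁻¹ j₀ w hw
        rwa [hgj'] at this
      rw [conj_pow, map_mul, map_mul, Module.End.mul_apply, Module.End.mul_apply, hur _ h2, hinv']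
    have h2 : ¬ Tv ρ (W j₀) (g * u * g⁻¹) := by
      intro h3
      apply hu1
      intro w hw
      have h4 : ρ g w ∈ W j₀ := by
        have := hmem g j' w hw
        rwa [hgj] at this
      have h5 := h3 _ h4
      rw [map_mul, map_mul, Module.End.mul_apply, Module.End.mul_apply, hinv] at h5
      have h6 := congrArg (ρ g⁻¹) h5
      rwa [hinv, hinv] at h6
    obtain ⟨x, hxR, hxU, hx1⟩ := syl_lin h r hr R j₀ (fun x hx => hRN x hx j₀) ⟨_, hu2, h1, h2⟩
    exact hx1 (bs_fpf h j₀ x hxU (t j₀) (htW j₀) (ht0 j₀) (hfixj x hxR j₀ hΔ0))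

end

/-- Generic vectors for all odd primes. Either there is one set `Δ` which is good for all odd primes; or the Sylow
`3`-subgroups move blocks, and there are two sets `D₀ ⊆ D₁` which are good for all primes `r ≥ 5`, and for two families
of vectors `t`, `t'` which differ exactly in `d ∈ D₁`, `d ∉ D₀`: if Sylow `3`-subgroups `T₀`, `T₁`, `T₂` fix the sum of
`t` over `D₀`, of `t` over `D₁`, of `t'` over `D₁`, then they all fix the sum of `t` over `D₀`, but they are not all equal. -/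
theorem gen3 [Finite J] (h : BS ρ W UU) (hs : Group.IsSolvable H) (j₀ j₁ : J) :
    (∃ Δ : Finset J, j₀ ∈ Δ ∧ j₁ ∈ Δ ∧ (Nontrivial J → 2 ≤ Δ.card) ∧
      ∀ v : J → X, (∀ j, v j ∈ W j ∧ v j ≠ 0) → ∀ k : J → H, (∀ j, k j ∈ Nm ρ (W j)) →
        ∀ r : ℕ, r.Prime → 3 ≤ r → Gp ρ W UU r v → ∀ R : Sylow r H,
          ¬ ∀ x ∈ (R : Subgroup H), ρ x (∑ j ∈ Δ, ρ (k j) (v j)) = ∑ j ∈ Δ, ρ (k j) (v j)) ∨
    (∃ (D₀ D₁ : Finset J) (d : J), j₀ ∈ D₀ ∧ j₁ ∈ D₀ ∧ (Nontrivial J → 2 ≤ D₀.card) ∧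
      D₀ ⊆ D₁ ∧ d ∈ D₁ ∧ d ∉ D₀ ∧
      (¬ ∀ R : Sylow 3 H, ∀ x ∈ (R : Subgroup H), ∀ j, (W j).map (ρ x) = W j) ∧
      (∀ v : J → X, (∀ j, v j ∈ W j ∧ v j ≠ 0) → ∀ k : J → H, (∀ j, k j ∈ Nm ρ (W j)) →
        ∀ r : ℕ, r.Prime → 5 ≤ r → Gp ρ W UU r v → ∀ R : Sylow r H,
          (¬ ∀ x ∈ (R : Subgroup H),
            ρ x (∑ j ∈ D₀, ρ (k j) (v j)) = ∑ j ∈ D₀, ρ (k j) (v j)) ∧
          ¬ ∀ x ∈ (R : Subgroup H),
            ρ x (∑ j ∈ D₁, ρ (k j) (v j)) = ∑ j ∈ D₁, ρ (k j) (v j)) ∧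
      ∀ t t' : J → X, (∀ j, t j ∈ W j ∧ t j ≠ 0) → (∀ j, t' j ∈ W j ∧ t' j ≠ 0) →
        (∀ j, j ≠ d → t' j = t j) → t' d ≠ t d → ∀ T₀ T₁ T₂ : Sylow 3 H,
          (∀ x ∈ (T₀ : Subgroup H), ρ x (∑ j ∈ D₀, t j) = ∑ j ∈ D₀, t j) →
          (∀ x ∈ (T₁ : Subgroup H), ρ x (∑ j ∈ D₁, t j) = ∑ j ∈ D₁, t j) →
          (∀ x ∈ (T₂ : Subgroup H), ρ x (∑ j ∈ D₁, t' j) = ∑ j ∈ D₁, t' j) →
            (∀ x ∈ (T₁ : Subgroup H), ρ x (∑ j ∈ D₀, t j) = ∑ j ∈ D₀, t j) ∧
            (∀ x ∈ (T₂ : Subgroup H), ρ x (∑ j ∈ D₀, t j) = ∑ j ∈ D₀, t j) ∧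
            ¬ (T₁ = T₀ ∧ T₂ = T₀)) := by
  classical
  have : Fintype J := Fintype.ofFinite J
  have hWinj : Function.Injective W := h.ind.injective h.ne
  have hex := h.prm
  choose act hact using hex
  have hact1 : ∀ j, act 1 j = j := by
    intro j
    apply hWinj
    rw [← hact, map_one]
    exact Submodule.map_id _
  have hactm : ∀ g g' j, act (g * g') j = act g (act g' j) := by
    intro g g' j
    apply hWinj
    rw [← hact, ← hact, ← hact, map_mul]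
    exact Submodule.map_comp _ _ _
  letI : MulAction H J := { smul := act, one_smul := hact1, mul_smul := hactm }
  have hW : ∀ (g : H) (j : J), (W j).map (ρ g) = W (g • j) := hact
  have htr : MulAction.IsPretransitive H J := by
    refine ⟨fun j j' => ?_⟩
    obtain ⟨g, hg⟩ := h.tra j j'
    exact ⟨g, hWinj (by rw [← hW, hg])⟩
  rcases p3 (Y := H) hs htr j₀ j₁ with
    ⟨Δ, hΔ0, hΔ1, hΔ2, hΔ3⟩ | ⟨D₀, D₁, d, g0, g1, g2, gs, gd, gd', gr, gt⟩
  · exact Or.inl ⟨Δ, hΔ0, hΔ1, hΔ2, fun v hv k hk r hr hr3 hg R hfix =>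
      gp_main h hW r hr v hv hg k hk Δ (hΔ3 r hr hr3) j₀ hΔ0 R hfix⟩
  · refine Or.inr ⟨D₀, D₁, d, g0, g1, g2, gs, gd, gd', ?_, ?_, ?_⟩
    · intro hall
      have hJ : ∀ (R : Sylow 3 H), ∀ x ∈ (R : Subgroup H), ∀ j : J, x • j = j := by
        intro R x hx j
        apply hWinj
        rw [← hW]
        exact hall R x hx j
      obtain ⟨-, x, hx, hxd⟩ := gt default default
        (fun x hx j hj => by rw [hJ default x hx j]; exact hj)
        (fun x hx j hj => by rw [hJ default x hx j]; exact hj)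
      exact hxd (hJ default x hx d)
    · intro v hv k hk r hr hr5 hg R
      exact ⟨fun hfix => gp_main h hW r hr v hv hg k hk D₀ (gr r hr hr5).1 j₀ g0 R hfix,
        fun hfix => gp_main h hW r hr v hv hg k hk D₁ (gr r hr hr5).2 j₀ (gs g0) R hfix⟩
    · intro t t' ht ht' heq hd T₀ T₁ T₂ h0 h1 h2
      have hsum : ∀ (D : Finset J) (T : Sylow 3 H) (s : J → X),
          (∀ x ∈ (T : Subgroup H), ∀ j ∈ D, x • j ∈ D) →
          (∀ x ∈ (T : Subgroup H), ∀ j ∈ D, ρ x (s j) = s (x • j)) →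
          ∀ x ∈ (T : Subgroup H), ρ x (∑ j ∈ D, s j) = ∑ j ∈ D, s j := by
        intro D T s hst hc x hx
        rw [map_sum]
        refine Finset.sum_bij (fun j _ => x • j) (fun j hj => hst x hx j hj) ?_ ?_ ?_
        · intro a _ b _ hab
          exact MulAction.injective x hab
        · intro b hb
          exact ⟨x⁻¹ • b, hst x⁻¹ (inv_mem hx) b hb, smul_inv_smul x b⟩
        · intro j hj
          exact hc x hx j hj
      have c0 := fun x hx => comp3 h.ind hW t (fun j => (ht j).1) (fun j => (ht j).2) D₀ x (h0 x hx)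
      have c1 := fun x hx => comp3 h.ind hW t (fun j => (ht j).1) (fun j => (ht j).2) D₁ x (h1 x hx)
      have c2 := fun x hx => comp3 h.ind hW t' (fun j => (ht' j).1) (fun j => (ht' j).2) D₁ x
        (h2 x hx)
      obtain ⟨q1, y, hy, hyd⟩ := gt T₀ T₁ (fun x hx j hj => (c0 x hx j hj).1)
        (fun x hx j hj => (c1 x hx j hj).1)
      obtain ⟨q2, -⟩ := gt T₀ T₂ (fun x hx j hj => (c0 x hx j hj).1)
        (fun x hx j hj => (c2 x hx j hj).1)
      have hne : ∀ j ∈ D₀, j ≠ d := fun j hj h => gd' (h ▸ hj)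
      refine ⟨hsum D₀ T₁ t q1 fun x hx j hj => (c1 x hx j (gs hj)).2, hsum D₀ T₂ t q2 ?_, ?_⟩
      · intro x hx j hj
        have h3 := (c2 x hx j (gs hj)).2
        rwa [heq j (hne j hj), heq _ (hne _ (q2 x hx j hj))] at h3
      · rintro ⟨e1, e2⟩
        have hyT : y ∈ (T₂ : Subgroup H) := by rw [e2, ← e1]; exact hy
        have h3 := (c1 y hy d gd).2
        have h4 := (c2 y hyT d gd).2
        rw [heq _ hyd, ← h3] at h4
        have h5 := congrArg (ρ y⁻¹) h4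
        rw [← Module.End.mul_apply, ← Module.End.mul_apply, ← map_mul, inv_mul_cancel, map_one,
          Module.End.one_apply, Module.End.one_apply] at h5
        exact hd h5

omit [Finite H] [Finite X] in
/-- A vector of a block which is not fixed by the stabilizer of the block. -/
theorem tw3 [Finite J] (h : BS ρ W UU) (hi : Irrd ρ ⊤) (hJ : Nontrivial J) (v : J → X)
    (hv : ∀ j, v j ∈ W j ∧ v j ≠ 0) (d : J) : ∃ g ∈ Nm ρ (W d), ρ g (v d) ≠ v d := by
  classical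
  have : Fintype J := Fintype.ofFinite J
  by_contra hcon
  push Not at hcon
  have hWinj : Function.Injective W := h.ind.injective h.ne
  have hinv : ∀ (g : H) (w : X), ρ g⁻¹ (ρ g w) = w := by
    intro g w
    rw [← Module.End.mul_apply, ← map_mul, inv_mul_cancel, map_one, Module.End.one_apply]
  choose g hg using fun j => h.tra d j
  have htW : ∀ j, ρ (g j) (v d) ∈ W j := by
    intro j
    rw [← hg j]
    exact Submodule.mem_map_of_mem (hv d).1
  have ht0 : ∀ j, ρ (g j) (v d) ≠ 0 := by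
    intro j h1
    apply (hv d).2
    have h2 := hinv (g j) (v d)
    rw [h1, map_zero] at h2
    exact h2.symm
  have hex := h.prm
  choose act hact using hex
  have hx : ∀ (x : H) (j : J), ρ x (ρ (g j) (v d)) = ρ (g (act x j)) (v d) := by
    intro x j
    have h1 : (g (act x j))⁻¹ * x * g j ∈ Nm ρ (W d) := by
      rw [mem_Nm]
      have h2 : (W d).map (ρ (x * g j)) = (W d).map (ρ (g (act x j))) := by
        rw [hg, map_mul, Module.End.mul_eq_comp, Submodule.map_comp, hg, hact]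
      rw [mul_assoc, map_mul, Module.End.mul_eq_comp, Submodule.map_comp, h2,
        ← Submodule.map_comp, ← Module.End.mul_eq_comp, ← map_mul, inv_mul_cancel, map_one]
      exact Submodule.map_id _
    have h2 := hcon _ h1
    rw [mul_assoc, map_mul, Module.End.mul_apply, map_mul, Module.End.mul_apply] at h2
    have h3 := congrArg (ρ (g (act x j))) h2
    rw [← Module.End.mul_apply, ← map_mul, mul_inv_cancel, map_one, Module.End.one_apply] at h3
    exact h3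
  have hbij : ∀ x : H, Function.Bijective (act x) := by
    intro x
    have hinj : Function.Injective (act x) := by
      intro a b hab
      apply hWinj
      have h1 : (W a).map (ρ x) = (W b).map (ρ x) := by rw [hact, hact, hab]
      have h2 := congrArg (Submodule.map (ρ x⁻¹)) h1
      rw [← Submodule.map_comp, ← Submodule.map_comp, ← Module.End.mul_eq_comp, ← map_mul,
        inv_mul_cancel, map_one] at h2
      exact (Submodule.map_id _).symm.trans (h2.trans (Submodule.map_id _))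
    exact Finite.injective_iff_bijective.1 hinj
  have hs : ∀ x : H, ρ x (∑ j, ρ (g j) (v d)) = ∑ j, ρ (g j) (v d) := by
    intro x
    rw [map_sum]
    exact Fintype.sum_bijective (act x) (hbij x) _ _ (fun j => hx x j)
  have h0 : (∑ j, ρ (g j) (v d)) ≠ 0 := by
    intro h1
    have h2 := ((iSupIndep_iff_finsetSum_eq_imp_eq W).1 h.ind) Finset.univ
      (fun j => ρ (g j) (v d)) (fun _ => 0) (fun j _ => ⟨htW j, zero_mem _⟩)
      (by rw [h1, Finset.sum_const_zero])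
    exact ht0 d (h2 d (Finset.mem_univ d))
  rcases hi (Submodule.span (ZMod p) {∑ j, ρ (g j) (v d)}) (by
    intro x _ w hw
    obtain ⟨c, rfl⟩ := Submodule.mem_span_singleton.1 hw
    rw [map_smul, hs x]
    exact hw) with h1 | h1
  · apply h0
    rw [Submodule.span_singleton_eq_bot] at h1
    exact h1
  · obtain ⟨j, hj⟩ := exists_ne d
    have hmem : ∀ w : X, ∃ c : ZMod p, c • (∑ j, ρ (g j) (v d)) = w := by
      intro w
      apply Submodule.mem_span_singleton.1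
      rw [h1]
      exact Submodule.mem_top
    obtain ⟨a, ha⟩ := hmem (ρ (g d) (v d))
    obtain ⟨b, hb⟩ := hmem (ρ (g j) (v d))
    have h2 := ((iSupIndep_iff_finsetSum_eq_imp_eq W).1 h.ind) {d, j}
      (fun i => if i = d then b • ρ (g d) (v d) else 0)
      (fun i => if i = j then a • ρ (g j) (v d) else 0) (fun i _ => by
        refine ⟨?_, ?_⟩
        · split_ifs with h3
          · rw [h3]
            exact Submodule.smul_mem _ _ (htW d)
          · exact zero_mem _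
        · split_ifs with h3
          · rw [h3]
            exact Submodule.smul_mem _ _ (htW j)
          · exact zero_mem _) (by
        rw [Finset.sum_pair hj.symm, Finset.sum_pair hj.symm, if_pos rfl, if_neg hj,
          if_neg hj.symm, if_pos rfl, add_zero, zero_add, ← ha, ← hb, smul_smul, smul_smul,
          mul_comm])
    have h3 := h2 d (Finset.mem_insert_self _ _)
    rw [if_pos rfl, if_neg hj.symm] at h3
    rcases smul_eq_zero.1 h3 with h4 | h4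
    · rw [h4, zero_smul] at hb
      exact ht0 j hb.symm
    · exact ht0 d h4

/-- Generic vectors for all odd primes if the Sylow `3`-subgroups move blocks: one sum, or three sums
`∑ j ∈ D₀, ρ (k j) (v j)`, `∑ j ∈ D₁, ρ (k j) (v j)` and `∑ j ∈ D₁, ρ (k' j) (v j)`, where `k' = k` except for
`k' d = k d * g`. -/
theorem gen3c [Finite J] (h : BS ρ W UU) (hs : Group.IsSolvable H) (hi : Irrd ρ ⊤)
    (hT : ¬ ∀ R : Sylow 3 H, ∀ x ∈ (R : Subgroup H), ∀ j, (W j).map (ρ x) = W j) (j₀ j₁ : J) :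
    (∃ (Δ : Finset J) (v : J → X), j₀ ∈ Δ ∧ j₁ ∈ Δ ∧ (Nontrivial J → 2 ≤ Δ.card) ∧
      (∀ j, v j ∈ W j ∧ v j ≠ 0) ∧ ∀ k : J → H, (∀ j, k j ∈ Nm ρ (W j)) →
        ∀ r : ℕ, r.Prime → 3 ≤ r → ¬ Bt ρ W UU r → ∀ R : Sylow r H,
          ¬ ∀ x ∈ (R : Subgroup H), ρ x (∑ j ∈ Δ, ρ (k j) (v j)) = ∑ j ∈ Δ, ρ (k j) (v j)) ∨
    (∃ (D₀ D₁ : Finset J) (v : J → X) (d : J) (g : H), j₀ ∈ D₀ ∧ j₁ ∈ D₀ ∧
      (Nontrivial J → 2 ≤ D₀.card) ∧ D₀ ⊆ D₁ ∧ d ∈ D₁ ∧ d ∉ D₀ ∧ g ∈ Nm ρ (W d) ∧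
      (∀ j, v j ∈ W j ∧ v j ≠ 0) ∧
      (∀ k : J → H, (∀ j, k j ∈ Nm ρ (W j)) → ∀ r : ℕ, r.Prime → 5 ≤ r → ¬ Bt ρ W UU r →
        ∀ R : Sylow r H,
          (¬ ∀ x ∈ (R : Subgroup H),
            ρ x (∑ j ∈ D₀, ρ (k j) (v j)) = ∑ j ∈ D₀, ρ (k j) (v j)) ∧
          ¬ ∀ x ∈ (R : Subgroup H),
            ρ x (∑ j ∈ D₁, ρ (k j) (v j)) = ∑ j ∈ D₁, ρ (k j) (v j)) ∧
      ∀ k k' : J → H, (∀ j, k j ∈ Nm ρ (W j)) → (∀ j, j ≠ d → k' j = k j) → k' d = k d * g →
        ∀ T₀ T₁ T₂ : Sylow 3 H,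
          (∀ x ∈ (T₀ : Subgroup H), ρ x (∑ j ∈ D₀, ρ (k j) (v j)) = ∑ j ∈ D₀, ρ (k j) (v j)) →
          (∀ x ∈ (T₁ : Subgroup H), ρ x (∑ j ∈ D₁, ρ (k j) (v j)) = ∑ j ∈ D₁, ρ (k j) (v j)) →
          (∀ x ∈ (T₂ : Subgroup H), ρ x (∑ j ∈ D₁, ρ (k' j) (v j)) = ∑ j ∈ D₁, ρ (k' j) (v j)) →
            (∀ x ∈ (T₁ : Subgroup H), ρ x (∑ j ∈ D₀, ρ (k j) (v j)) = ∑ j ∈ D₀, ρ (k j) (v j)) ∧
            (∀ x ∈ (T₂ : Subgroup H), ρ x (∑ j ∈ D₀, ρ (k j) (v j)) = ∑ j ∈ D₀, ρ (k j) (v j)) ∧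
            ¬ (T₁ = T₀ ∧ T₂ = T₀)) := by
  classical
  have hinv : ∀ (g : H) (w : X), ρ g⁻¹ (ρ g w) = w := by
    intro g w
    rw [← Module.End.mul_apply, ← map_mul, inv_mul_cancel, map_one, Module.End.one_apply]
  have hmem : ∀ (g : H) (j : J), g ∈ Nm ρ (W j) → ∀ w ∈ W j, ρ g w ∈ W j := by
    intro g j hg w hw
    have h1 : ρ g w ∈ (W j).map (ρ g) := Submodule.mem_map_of_mem hw
    rwa [(mem_Nm ρ (W j) g).1 hg] at h1
  have hne0 : ∀ (g : H) (w : X), w ≠ 0 → ρ g w ≠ 0 := by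
    intro g w hw h1
    apply hw
    have h2 := hinv g w
    rw [h1, map_zero] at h2
    exact h2.symm
  obtain ⟨v, hv, hvg⟩ := vg5 h hs
  rcases gen3 h hs j₀ j₁ with ⟨Δ, a0, a1, a2, a3⟩ |
    ⟨D₀, D₁, d, g0, g1, g2, gs, gd, gd', -, gr, gt⟩
  · refine Or.inl ⟨Δ, v, a0, a1, a2, hv, fun k hk r hr hr3 hB R => a3 v hv k hk r hr hr3 ?_ R⟩
    by_cases h33 : r = 3
    · subst h33
      exact Or.inr (Or.inl hT)
    · have h4 : r ≠ 4 := by
        rintro rfl
        revert hr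
        norm_num
      exact Or.inl ⟨hvg r hr (by omega), hB⟩
  · have hJ : Nontrivial J := ⟨j₀, d, fun h => gd' (h ▸ g0)⟩
    obtain ⟨g, hg, hgv⟩ := tw3 h hi hJ v hv d
    refine Or.inr ⟨D₀, D₁, v, d, g, g0, g1, g2, gs, gd, gd', hg, hv, ?_, ?_⟩
    · intro k hk r hr hr5 hB R
      exact gr v hv k hk r hr hr5 (Or.inl ⟨hvg r hr hr5, hB⟩) R
    · intro k k' hk hkk hkd T₀ T₁ T₂ h0 h1 h2
      refine gt (fun j => ρ (k j) (v j)) (fun j => ρ (k' j) (v j))
        (fun j => ⟨hmem _ j (hk j) _ (hv j).1, hne0 _ _ (hv j).2⟩) (fun j => ⟨?_, hne0 _ _ (hv j).2⟩)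
        (fun j hj => by rw [hkk j hj]) ?_ T₀ T₁ T₂ h0 h1 h2
      · by_cases hj : j = d
        · subst hj
          rw [hkd]
          exact hmem _ j (mul_mem (hk j) hg) _ (hv j).1
        · rw [hkk j hj]
          exact hmem _ j (hk j) _ (hv j).1
      · intro h3
        apply hgv
        change ρ (k' d) (v d) = ρ (k d) (v d) at h3
        rw [hkd, map_mul, Module.End.mul_apply] at h3
        have h4 := congrArg (ρ (k d)⁻¹) h3
        rwa [hinv, hinv] at h4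

end

end Pool.Agent.Nth
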